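import Pool.Agent.Run7.h284.DL.Num

/-!
# Growing degree
-/

namespace Pool.Agent.Run7.h284.DL

open Finset Filter DNFPrediction Asymptotics

lemma ev_log (ε : ℝ) (hε : 0 < ε) :
    ∀ᶠ l : ℝ in atTop, 16 * (Real.logb 2 l + 1) ≤ l ^ (ε / 2) := by
  have h1 : (fun l : ℝ => 16 * (Real.logb 2 l + 1)) =o[atTop] (fun l : ℝ => l ^ (ε / 2)) := by
    apply IsLittleO.const_mul_left
    apply IsLittleO.add
    · have : (Real.logb 2 : ℝ → ℝ) = fun l : ℝ => (1 / Real.log 2) * Real.log l := by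
        funext l
        unfold Real.logb
        ring
      rw [this]
      exact (isLittleO_log_rpow_atTop (by positivity)).const_mul_left _
    · rw [isLittleO_one_left_iff]
      refine tendsto_norm_atTop_atTop.comp ?_
      exact tendsto_rpow_atTop (by positivity)
  filter_upwards [h1.def (c := 1) one_pos, eventually_ge_atTop (0 : ℝ)] with l hl hl0
  rw [Real.norm_eq_abs, Real.norm_eq_abs, one_mul, abs_of_nonneg (Real.rpow_nonneg hl0 _)] at hl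
  exact (le_abs_self _).trans hl

lemma ev_exp : ∀ᶠ l : ℝ in atTop, 6 * l ^ 3 ≤ (2 : ℝ) ^ l := by
  have h1 : (fun l : ℝ => l ^ 3) =o[atTop] (fun l : ℝ => Real.exp (Real.log 2 * l)) :=
    isLittleO_pow_exp_pos_mul_atTop 3 (Real.log_pos (by norm_num))
  filter_upwards [h1.def (c := 1 / 6) (by norm_num), eventually_ge_atTop (0 : ℝ)] with l hl hl0
  rw [Real.norm_eq_abs, Real.norm_eq_abs, abs_of_nonneg (by positivity),
    abs_of_nonneg (Real.exp_nonneg _)] at hl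
  rw [Real.rpow_def_of_pos (by norm_num)]
  linarith

lemma ev_all (ε : ℝ) (hε : 0 < ε) : ∀ᶠ m : ℕ in atTop, 20736 ≤ m ∧
    16 * (Real.logb 2 (Real.logb 2 m) + 1) ≤ (Real.logb 2 m) ^ (ε / 2) ∧
    6 * (Real.logb 2 m) ^ 3 ≤ (2 : ℝ) ^ (Real.logb 2 m) ∧
    16 * (Real.logb 2 (Real.logb 2 m) + 1) ≤ Real.logb 2 m ∧ 4 ≤ Real.logb 2 m := by
  have hten : Tendsto (fun m : ℕ => Real.logb 2 (m : ℝ)) atTop atTop :=
    (Real.tendsto_logb_atTop (by norm_num)).comp tendsto_natCast_atTop_atTop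
  have h1 := hten.eventually (ev_log ε hε)
  have h2 := hten.eventually ev_exp
  have h3 := hten.eventually (ev_log 2 (by norm_num))
  have h4 := hten.eventually (eventually_ge_atTop (4 : ℝ))
  filter_upwards [h1, h2, h3, h4, eventually_ge_atTop 20736] with m a b c d e
  refine ⟨e, a, b, ?_, d⟩
  have : (2 : ℝ) / 2 = 1 := by norm_num
  rw [this, Real.rpow_one] at c
  exact c

/-- the key inequalities -/
lemma key_num (ε : ℝ) (hε : 0 < ε) (m t B : ℕ)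
    (h1 : 16 * (Real.logb 2 (Real.logb 2 m) + 1) ≤ (Real.logb 2 m) ^ (ε / 2))
    (h2 : 6 * (Real.logb 2 m) ^ 3 ≤ (2 : ℝ) ^ (Real.logb 2 m))
    (h3 : 16 * (Real.logb 2 (Real.logb 2 m) + 1) ≤ Real.logb 2 m) (h4 : 4 ≤ Real.logb 2 m)
    (ht : (t : ℝ) ≤ (1 - ε) * Real.logb 2 (Real.logb 2 m))
    (hB : (B : ℝ) ≤ (2 : ℝ) ^ ((Real.logb 2 m) ^ (1 + ε / 2))) :
    2 * ((t : ℝ) + 1) ≤ Real.logb 2 m ∧
    (48 : ℝ) ≤ (2 : ℝ) ^ ((Real.logb 2 m) ^ (1 + ε / 2)) ∧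
    3 * ((B : ℝ) + 1) * (t + 2) ^ 3 *
      (2 : ℝ) ^ (-(Real.logb 2 m ^ 2 / ((t + 1) * 2 ^ (t + 2)))) ≤
      (2 : ℝ) ^ (-(2 * (Real.logb 2 m) ^ (1 + ε / 2))) := by
  set l := Real.logb 2 m with hl
  set a := l ^ (1 + ε / 2) with ha
  have hl0 : 0 < l := by linarith
  have hll : 0 ≤ Real.logb 2 l := Real.logb_nonneg (by norm_num) (by linarith)
  have ht2 : (t : ℝ) ≤ Real.logb 2 l := by
    refine ht.trans ?_
    nlinarith
  have hT : (0 : ℝ) ≤ t := Nat.cast_nonneg t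
  have hal : l ≤ a := by
    rw [ha]
    calc l = l ^ (1 : ℝ) := (Real.rpow_one l).symm
      _ ≤ l ^ (1 + ε / 2) := Real.rpow_le_rpow_of_exponent_le (by linarith) (by linarith)
  have h2a : (2 : ℝ) ^ l ≤ (2 : ℝ) ^ a := Real.rpow_le_rpow_of_exponent_le (by norm_num) hal
  have ht3 : (t : ℝ) + 2 ≤ l := by linarith
  have h6 : 6 * ((t : ℝ) + 2) ^ 3 ≤ (2 : ℝ) ^ a := by
    have : ((t : ℝ) + 2) ^ 3 ≤ l ^ 3 := pow_le_pow_left₀ (by positivity) ht3 3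
    linarith
  have h48 : (48 : ℝ) ≤ (2 : ℝ) ^ a := by
    have : (8 : ℝ) ≤ ((t : ℝ) + 2) ^ 3 := by
      calc (8 : ℝ) = 2 ^ 3 := by norm_num
        _ ≤ _ := pow_le_pow_left₀ (by norm_num) (by linarith) 3
    linarith
  refine ⟨by linarith, h48, ?_⟩
  -- the exponent
  have hpow2 : (2 : ℝ) ^ t ≤ l ^ (1 - ε) := by
    have e1 : l ^ (1 - ε) = (2 : ℝ) ^ ((1 - ε) * Real.logb 2 l) := by
      rw [mul_comm, Real.rpow_mul (by norm_num), Real.rpow_logb (by norm_num) (by norm_num) hl0]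
    rw [e1, ← Real.rpow_natCast]
    exact Real.rpow_le_rpow_of_exponent_le (by norm_num) ht
  have hE : 4 * a ≤ l ^ 2 / ((t + 1) * 2 ^ (t + 2)) := by
    rw [le_div_iff₀ (by positivity)]
    have e2 : l ^ (2 : ℕ) = a * (l ^ (ε / 2) * l ^ (1 - ε)) := by
      rw [ha, ← Real.rpow_add hl0, ← Real.rpow_add hl0, ← Real.rpow_natCast]
      congr 1
      push_cast
      ring
    rw [e2]
    have e3 : 4 * a * ((t + 1) * 2 ^ (t + 2)) = a * ((16 * (t + 1)) * 2 ^ t) := by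
      rw [pow_add]; ring
    rw [e3]
    apply mul_le_mul_of_nonneg_left _ (by positivity)
    apply mul_le_mul _ hpow2 (by positivity) (by positivity)
    linarith
  have hA : (0 : ℝ) < (2 : ℝ) ^ a := by positivity
  have hB1 : (B : ℝ) + 1 ≤ 2 * (2 : ℝ) ^ a := by linarith
  calc 3 * ((B : ℝ) + 1) * (t + 2) ^ 3 *
      (2 : ℝ) ^ (-(l ^ 2 / ((t + 1) * 2 ^ (t + 2))))
      ≤ 3 * (2 * (2 : ℝ) ^ a) * (t + 2) ^ 3 * (2 : ℝ) ^ (-(4 * a)) := by
        gcongr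
        norm_num
    _ = (2 : ℝ) ^ a * (6 * (t + 2) ^ 3) * (2 : ℝ) ^ (-(4 * a)) := by ring
    _ ≤ (2 : ℝ) ^ a * (2 : ℝ) ^ a * (2 : ℝ) ^ (-(4 * a)) := by gcongr
    _ = (2 : ℝ) ^ (-(2 * a)) := by
        rw [← Real.rpow_add (by norm_num), ← Real.rpow_add (by norm_num)]
        congr 1
        ring

lemma exists_le_avg {r : ℕ} (f : Fin (r + 1) → ℝ) (c : ℝ) (h : (∑ i, f i) / (r + 1) ≤ c) :
    ∃ i, f i ≤ c := by
  by_contra hcon
  push Not at hcon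
  have h1 : ∑ _i : Fin (r + 1), c < ∑ i, f i :=
    Finset.sum_lt_sum_of_nonempty Finset.univ_nonempty (fun i _ => hcon i)
  rw [Finset.sum_const, Finset.card_univ, Fintype.card_fin, nsmul_eq_mul] at h1
  rw [div_le_iff₀ (by positivity)] at h
  push_cast at h1
  linarith

theorem growing (ε : ℝ) (hε : 0 < ε) : ∀ᶠ m : ℕ in atTop, ∀ t : ℕ,
    (t : ℝ) ≤ (1 - ε) * Real.logb 2 (Real.logb 2 m) →
    (∀ (N R B : ℕ) (P : ThresholdPredictor m N R), P.ReadsLE t → P.BitsLE B →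
      (B : ℝ) ≤ (2 : ℝ) ^ ((Real.logb 2 m) ^ (1 + ε / 2)) →
      ∃ F : DNF m, F.card ≤ m ∧ (∀ c ∈ F, (c.card : ℝ) ≤ Real.logb 2 m) ∧
        P.success F.eval ≤ 1 / 2 + (2 : ℝ) ^ (-(Real.logb 2 m) ^ (1 + ε / 2))) ∧
    (∀ (N R B : ℕ) (P : DepthTwoPredictor m N R), (∀ g, (P.gate g).ReadsLE t) →
      (∀ g, (P.gate g).BitsLE B) → (B : ℝ) ≤ (2 : ℝ) ^ ((Real.logb 2 m) ^ (1 + ε / 2)) →
      (P.total : ℝ) ≤ (2 : ℝ) ^ ((Real.logb 2 m) ^ (1 + ε / 2)) →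
      ∃ F : DNF m, F.card ≤ m ∧ (∀ c ∈ F, (c.card : ℝ) ≤ Real.logb 2 m) ∧
        P.success F.eval ≤ 1 - 1 / (3 * P.total + 3)) := by
  filter_upwards [ev_all ε hε] with m hm t ht
  obtain ⟨hm0, h1, h2, h3, h4⟩ := hm
  have hT : (0 : ℝ) ≤ t := Nat.cast_nonneg t
  constructor
  · intro N R B P hP hB hBb
    obtain ⟨k1, k2, k3⟩ := key_num ε hε m t B h1 h2 h3 h4 ht hBb
    obtain ⟨r, F, hF, hone, _⟩ := explicit m t hm0 k1
    have h5 := hone N R B P hP hB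
    have h6 : (∑ i, P.success (F i).eval) / (r + 1) ≤
        1 / 2 + (2 : ℝ) ^ (-(Real.logb 2 m) ^ (1 + ε / 2)) := by
      have h7 := (abs_le.1 h5).2
      have h8 : (2 : ℝ) ^ (-(2 * (Real.logb 2 m) ^ (1 + ε / 2))) ≤
          (2 : ℝ) ^ (-(Real.logb 2 m) ^ (1 + ε / 2)) := by
        apply Real.rpow_le_rpow_of_exponent_le (by norm_num)
        have : 0 ≤ (Real.logb 2 m) ^ (1 + ε / 2) := Real.rpow_nonneg (by linarith) _
        linarith
      linarith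
    obtain ⟨i, hi⟩ := exists_le_avg _ _ h6
    exact ⟨F i, (hF i).1, (hF i).2, hi⟩
  · intro N R B P hP hB hBb hW
    obtain ⟨k1, k2, k3⟩ := key_num ε hε m t B h1 h2 h3 h4 ht hBb
    obtain ⟨r, F, hF, _, htwo⟩ := explicit m t hm0 k1
    have h5 := htwo N R B P hP hB
    set A := (2 : ℝ) ^ ((Real.logb 2 m) ^ (1 + ε / 2)) with hA
    set W : ℝ := (P.total : ℝ) with hWd
    have hW0 : 0 ≤ W := Nat.cast_nonneg _
    have h8 : (2 : ℝ) ^ (-(2 * (Real.logb 2 m) ^ (1 + ε / 2))) = 1 / (A * A) := by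
      rw [hA, ← Real.rpow_add (by norm_num), one_div, ← Real.rpow_neg (by norm_num)]
      congr 1
      ring
    have h9 : 2 * ((B : ℝ) + 1) * (t + 2) ^ 3 *
        (2 : ℝ) ^ (-(Real.logb 2 m ^ 2 / ((t + 1) * 2 ^ (t + 2)))) ≤ 1 / (A * A) := by
      rw [← h8]
      refine le_trans ?_ k3
      gcongr
      norm_num
    have h10 : 1 / (A * A) ≤ 1 / (6 * (W + 1)) := by
      apply one_div_le_one_div_of_le (by positivity)
      nlinarith
    have h11 : 1 / (2 * W + 2) - 1 / (6 * (W + 1)) = 1 / (3 * W + 3) := by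
      field_simp
      ring
    have h6 : (∑ i, P.success (F i).eval) / (r + 1) ≤ 1 - 1 / (3 * W + 3) := by
      linarith
    obtain ⟨i, hi⟩ := exists_le_avg _ _ h6
    exact ⟨F i, (hF i).1, (hF i).2, hi⟩

end Pool.Agent.Run7.h284.DL
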