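import Pool.Agent.Run7.h284.DL.Fam

/-!
# From correlation bounds to success probabilities
-/

namespace Pool.Agent.Run7.h284.DL

open Finset DNFPrediction
open scoped BigOperators

section avg

variable {m N R : ℕ} {Ω : Type*} [Fintype Ω]

/-- the probability of a correct guess -/
noncomputable def succ (G : (Fin (N + 1) → Fin m → Bool) → (Fin N → Bool) → (Fin R → Bool) → Bool)
    (f : (Fin m → Bool) → Bool) : ℝ :=
  ((univ.filter (fun p : (Fin (N + 1) → Fin m → Bool) × (Fin R → Bool) =>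
    G p.1 (fun i => f (p.1 i.castSucc)) p.2 = f (p.1 (Fin.last N)))).card : ℝ) /
    2 ^ ((N + 1) * m + R)

lemma succ_eq (G : (Fin (N + 1) → Fin m → Bool) → (Fin N → Bool) → (Fin R → Bool) → Bool)
    (f : (Fin m → Bool) → Bool) : succ G f = 𝔼 u : Fin R → Bool, 𝔼 X : Fin (N + 1) → Fin m → Bool,
      (if G X (fun i => f (X i.castSucc)) u = f (X (Fin.last N)) then (1 : ℝ) else 0) := by
  unfold succ
  exact count_eq (fun X u => G X (fun i => f (X i.castSucc)) u = f (X (Fin.last N)))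

/-- the correlation with the label -/
noncomputable def cor (G : (Fin (N + 1) → Fin m → Bool) → (Fin N → Bool) → (Fin R → Bool) → Bool)
    (f : (Fin m → Bool) → Bool) (u : Fin R → Bool) : ℝ :=
  𝔼 X : Fin (N + 1) → Fin m → Bool, (if G X (fun i => f (X i.castSucc)) u = true
    then (1 : ℝ) else 0) * sgr (f (X (Fin.last N)))

/-- the correlation of the constant with the label -/
noncomputable def cor0 (N : ℕ) (f : (Fin m → Bool) → Bool) : ℝ :=
  𝔼 X : Fin (N + 1) → Fin m → Bool, sgr (f (X (Fin.last N)))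

lemma sum_mu_expect {α : Type*} [Fintype α] (μ : Ω → ℝ) (F : Ω → α → ℝ) :
    ∑ ω, μ ω * 𝔼 a, F ω a = 𝔼 a, ∑ ω, μ ω * F ω a := by
  rw [Finset.expect_sum_comm]
  refine Finset.sum_congr rfl fun ω _ => ?_
  rw [Finset.mul_expect]

theorem avg_one (μ : Ω → ℝ) (hμ1 : ∑ ω, μ ω = 1) (lab : Ω → (Fin m → Bool) → Bool) {Δ : ℝ}
    (hΔ : 0 ≤ Δ) (G : (Fin (N + 1) → Fin m → Bool) → (Fin N → Bool) → (Fin R → Bool) → Bool)
    (hG : ∀ u, |∑ ω, μ ω * cor G (lab ω) u| ≤ Δ) (h0 : |∑ ω, μ ω * cor0 N (lab ω)| ≤ Δ) :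
    |(∑ ω, μ ω * succ G (lab ω)) - 1 / 2| ≤ 3 / 2 * Δ := by
  have h1 : ∀ ω, succ G (lab ω) = 𝔼 u : Fin R → Bool,
      (1 / 2 + (1 / 2) * cor0 N (lab ω) - cor G (lab ω) u) := by
    intro ω
    rw [succ_eq]
    refine Finset.expect_congr rfl fun u _ => ?_
    unfold cor0 cor
    rw [Finset.mul_expect, ← Fintype.expect_const (1 / 2 : ℝ)
      (ι := Fin (N + 1) → Fin m → Bool), ← Finset.expect_add_distrib, ← Finset.expect_sub_distrib]
    refine Finset.expect_congr rfl fun X _ => ?_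
    unfold sgr
    cases G X (fun i => lab ω (X i.castSucc)) u <;>
      cases lab ω (X (Fin.last N)) <;> norm_num
  have h2 : (∑ ω, μ ω * succ G (lab ω)) - 1 / 2 = 𝔼 u : Fin R → Bool,
      ((1 / 2) * (∑ ω, μ ω * cor0 N (lab ω)) - ∑ ω, μ ω * cor G (lab ω) u) := by
    simp only [h1]
    rw [sum_mu_expect]
    have h3 : (1 / 2 : ℝ) = 𝔼 _u : Fin R → Bool, (1 / 2 : ℝ) := (Fintype.expect_const _).symm
    rw [h3, ← Finset.expect_sub_distrib, ← h3]
    refine Finset.expect_congr rfl fun u _ => ?_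
    simp only [mul_sub, mul_add, Finset.sum_sub_distrib, Finset.sum_add_distrib]
    rw [← Finset.sum_mul, hμ1, Finset.mul_sum]
    have : ∀ ω, μ ω * (1 / 2 * cor0 N (lab ω)) = 1 / 2 * (μ ω * cor0 N (lab ω)) := fun ω => by ring
    simp only [this]
    ring
  rw [h2]
  refine expR_abs_le _ _ (by positivity) fun u => ?_
  refine (abs_sub _ _).trans ?_
  rw [abs_mul, abs_of_pos (by norm_num : (0 : ℝ) < 1 / 2)]
  have := hG u
  linarith

theorem avg_two (μ : Ω → ℝ) (hμ0 : ∀ ω, 0 ≤ μ ω) (hμ1 : ∑ ω, μ ω = 1)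
    (lab : Ω → (Fin m → Bool) → Bool) {Δ : ℝ} (hΔ : 0 ≤ Δ) {n : ℕ}
    (G : Fin n → (Fin (N + 1) → Fin m → Bool) → (Fin N → Bool) → (Fin R → Bool) → Bool)
    (w : Fin n → ℤ) (b : ℤ)
    (hG : ∀ g, w g ≠ 0 → ∀ u, |∑ ω, μ ω * cor (G g) (lab ω) u| ≤ Δ)
    (h0 : |∑ ω, μ ω * cor0 N (lab ω)| ≤ Δ) :
    (∑ ω, μ ω * succ (fun X y u => decide (0 ≤ b + ∑ g, if G g X y u = true then w g else 0))
      (lab ω)) ≤ 1 - 1 / (2 * ((b.natAbs + ∑ g, (w g).natAbs : ℕ) : ℝ) + 2) + Δ := by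
  set W : ℝ := ((b.natAbs + ∑ g, (w g).natAbs : ℕ) : ℝ) with hW
  have hW0 : 0 ≤ W := Nat.cast_nonneg _
  have hWeq : W = |(b : ℝ)| + ∑ g, |(w g : ℝ)| := by
    rw [hW]
    push_cast
    simp only [Nat.cast_natAbs, Int.cast_abs]
  set T : (Fin (N + 1) → Fin m → Bool) → (Fin N → Bool) → (Fin R → Bool) → Bool :=
    fun X y u => decide (0 ≤ b + ∑ g, if G g X y u = true then w g else 0) with hT
  -- pointwise
  have hpt : ∀ (ω : Ω) (u : Fin R → Bool) (X : Fin (N + 1) → Fin m → Bool),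
      (if T X (fun i => lab ω (X i.castSucc)) u = lab ω (X (Fin.last N))
        then (1 : ℝ) else 0) * (2 * W + 2) ≤
      (2 * W + 1) - ((2 * b + 1) * sgr (lab ω (X (Fin.last N))) +
        ∑ g, (2 * (w g : ℝ)) *
          ((if G g X (fun r => lab ω (X r.castSucc)) u = true
            then (1 : ℝ) else 0) * sgr (lab ω (X (Fin.last N))))) := by
    intro ω u X
    set y : Fin N → Bool := fun r => lab ω (X r.castSucc) with hy
    set l := lab ω (X (Fin.last N)) with hl
    set Vz : ℤ := b + ∑ g, if G g X y u = true then w g else 0 with hVz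
    have hsum : (2 * (b : ℝ) + 1) * sgr l + ∑ g, (2 * (w g : ℝ)) *
          ((if G g X y u = true then (1 : ℝ) else 0) * sgr l) =
        (2 * (Vz : ℝ) + 1) * sgr l := by
      rw [hVz]
      push_cast
      have : ∑ g, (2 * (w g : ℝ)) *
          ((if G g X y u = true then (1 : ℝ) else 0) * sgr l) =
          (2 * ∑ g, (if G g X y u = true then (w g : ℝ) else 0)) * sgr l := by
        rw [Finset.mul_sum, Finset.sum_mul]
        refine Finset.sum_congr rfl fun g _ => ?_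
        split_ifs <;> ring
      rw [this]
      ring
    rw [hsum]
    have hVabs : |(Vz : ℝ)| ≤ W := by
      rw [hVz, hWeq]
      push_cast
      refine (abs_add_le _ _).trans (add_le_add (le_refl _) ?_)
      refine (Finset.abs_sum_le_sum_abs _ _).trans (Finset.sum_le_sum fun g _ => ?_)
      split_ifs
      · exact le_refl _
      · simp
    have hV1 := (abs_le.1 hVabs).1
    have hV2 := (abs_le.1 hVabs).2
    have hg : T X y u = decide (0 ≤ Vz) := rfl
    rw [hg]
    by_cases hz : 0 ≤ Vz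
    · have hz' : (0 : ℝ) ≤ Vz := by exact_mod_cast hz
      rw [decide_eq_true hz]
      unfold sgr
      cases l
      · simp; linarith
      · simp; linarith
    · have hz' : (Vz : ℝ) ≤ -1 := by
        have : Vz ≤ -1 := by omega
        exact_mod_cast this
      rw [decide_eq_false hz]
      unfold sgr
      cases l
      · simp; linarith
      · simp; linarith
  -- the average over the examples
  have h1 : ∀ ω, succ T (lab ω) * (2 * W + 2) ≤ 𝔼 u : Fin R → Bool,
      ((2 * W + 1) - ((2 * b + 1) * cor0 N (lab ω) +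
        ∑ g, (2 * (w g : ℝ)) * cor (G g) (lab ω) u)) := by
    intro ω
    rw [succ_eq]
    simp only [Finset.expect_mul]
    refine Finset.expect_le_expect fun u _ => ?_
    refine (Finset.expect_le_expect fun X _ => hpt ω u X).trans (le_of_eq ?_)
    simp only [Finset.expect_sub_distrib, Finset.expect_add_distrib, Fintype.expect_const,
      ← Finset.mul_expect, Finset.expect_sum_comm]
    rfl
  have h2 : (∑ ω, μ ω * succ T (lab ω)) * (2 * W + 2) ≤ 𝔼 u : Fin R → Bool,
      ((2 * W + 1) - ((2 * b + 1) * (∑ ω, μ ω * cor0 N (lab ω)) +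
        ∑ g, (2 * (w g : ℝ)) * ∑ ω, μ ω * cor (G g) (lab ω) u)) := by
    have h3 : (∑ ω, μ ω * succ T (lab ω)) * (2 * W + 2) ≤ ∑ ω, μ ω * 𝔼 u : Fin R → Bool,
      ((2 * W + 1) - ((2 * b + 1) * cor0 N (lab ω) +
        ∑ g, (2 * (w g : ℝ)) * cor (G g) (lab ω) u)) := by
      rw [Finset.sum_mul]
      refine Finset.sum_le_sum fun ω _ => ?_
      rw [mul_assoc]
      exact mul_le_mul_of_nonneg_left (h1 ω) (hμ0 ω)
    refine h3.trans (le_of_eq ?_)
    rw [sum_mu_expect]
    refine Finset.expect_congr rfl fun u _ => ?_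
    simp only [mul_sub, mul_add, Finset.sum_sub_distrib, Finset.sum_add_distrib]
    have e1 : ∑ ω, μ ω * (2 * W) = 2 * W := by rw [← Finset.sum_mul, hμ1, one_mul]
    have e2 : ∑ ω, μ ω * 1 = 1 := by simpa using hμ1
    have e3 : ∑ ω, μ ω * ((2 * (b : ℝ) + 1) * cor0 N (lab ω)) =
        (2 * (b : ℝ) + 1) * ∑ ω, μ ω * cor0 N (lab ω) := by
      rw [Finset.mul_sum]
      exact Finset.sum_congr rfl fun ω _ => by ring
    have e4 : ∑ ω, μ ω * ∑ g, (2 * (w g : ℝ)) * cor (G g) (lab ω) u =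
        ∑ g, (2 * (w g : ℝ)) * ∑ ω, μ ω * cor (G g) (lab ω) u := by
      simp only [Finset.mul_sum]
      rw [Finset.sum_comm]
      exact Finset.sum_congr rfl fun g _ => Finset.sum_congr rfl fun ω _ => by ring
    rw [e1, e2, e3, e4]
  have hkey : ∀ u : Fin R → Bool, ((2 * W + 1) - ((2 * b + 1) * (∑ ω, μ ω * cor0 N (lab ω)) +
        ∑ g, (2 * (w g : ℝ)) * ∑ ω, μ ω * cor (G g) (lab ω) u)) ≤
      (2 * W + 1) + (2 * W + 1) * Δ := by
    intro u
    have h5 : ∀ g, -((2 * (w g : ℝ)) * ∑ ω, μ ω * cor (G g) (lab ω) u) ≤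
        2 * |(w g : ℝ)| * Δ := by
      intro g
      by_cases hw : w g = 0
      · simp [hw]
      have h3 := hG g hw u
      refine (neg_le_abs _).trans ?_
      rw [abs_mul, abs_mul, abs_two]
      exact mul_le_mul_of_nonneg_left h3 (by positivity)
    have h6 : -((2 * (b : ℝ) + 1) * (∑ ω, μ ω * cor0 N (lab ω))) ≤ (2 * |(b : ℝ)| + 1) * Δ := by
      refine (neg_le_abs _).trans ?_
      rw [abs_mul]
      refine mul_le_mul ?_ h0 (abs_nonneg _) (by positivity)
      refine (abs_add_le _ _).trans ?_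
      rw [abs_mul, abs_two, abs_one]
    have h7 := Finset.sum_le_sum (s := univ) (fun g _ => h5 g)
    rw [Finset.sum_neg_distrib] at h7
    have h8 : ∑ g, 2 * |(w g : ℝ)| * Δ = 2 * (∑ g, |(w g : ℝ)|) * Δ := by
      rw [Finset.mul_sum, Finset.sum_mul]
    rw [h8] at h7
    have h9 : (2 * W + 1) * Δ = (2 * |(b : ℝ)| + 1) * Δ +
        2 * (∑ g, |(w g : ℝ)|) * Δ := by
      rw [hWeq]; ring
    rw [h9]
    linarith
  have hW2 : (0 : ℝ) < 2 * W + 2 := by linarith
  have h10 := h2.trans (Finset.expect_le Finset.univ_nonempty fun u _ => hkey u)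
  rw [← le_div_iff₀ hW2] at h10
  refine h10.trans ?_
  rw [div_le_iff₀ hW2]
  have : (1 - 1 / (2 * W + 2) + Δ) * (2 * W + 2) = (2 * W + 1) + (2 * W + 2) * Δ := by
    field_simp
    ring
  rw [this]
  nlinarith

end avg

section push

variable {Ω : Type*} [Fintype Ω] {A : Type*} [Fintype A] [DecidableEq A]

/-- the image of a distribution -/
noncomputable def push (μ : Ω → ℝ) (F : Ω → A) (a : A) : ℝ := ∑ ω ∈ univ.filter (fun ω => F ω = a), μ ω

lemma push_nonneg {μ : Ω → ℝ} (hμ : ∀ ω, 0 ≤ μ ω) (F : Ω → A) (a : A) : 0 ≤ push μ F a :=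
  Finset.sum_nonneg fun ω _ => hμ ω

lemma push_sum (μ : Ω → ℝ) (F : Ω → A) (g : A → ℝ) :
    ∑ a, push μ F a * g a = ∑ ω, μ ω * g (F ω) := by
  unfold push
  rw [← Finset.sum_fiberwise univ F (fun ω => μ ω * g (F ω))]
  refine Finset.sum_congr rfl fun a _ => ?_
  rw [Finset.sum_mul]
  refine Finset.sum_congr rfl fun ω hω => ?_
  rw [(Finset.mem_filter.1 hω).2]

lemma push_one (μ : Ω → ℝ) (F : Ω → A) : ∑ a, push μ F a = ∑ ω, μ ω := by
  have := push_sum μ F (fun _ => 1)
  simpa using this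

lemma push_ne {μ : Ω → ℝ} {F : Ω → A} {a : A} (h : push μ F a ≠ 0) : ∃ ω, F ω = a := by
  by_contra hcon
  push Not at hcon
  apply h
  unfold push
  rw [Finset.filter_false_of_mem (fun ω _ => hcon ω), Finset.sum_empty]

end push

end Pool.Agent.Run7.h284.DL
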