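import Pool.Agent.Run7.h284.DL.Core
import Pool.Agent.H994R2.JL.AS0

/-!
# Constant-depth circuits on blocks of columns

`V`, `W` are two matrices, `ρ` is a random restriction of the selector bits.  The stars of `ρ` are divided into `T`
blocks; `γ : Fin T → Bool` selects `W` or `V` for all stars of a block at once.  If all functions of small depth are
juntas after one block is switched to `V`, whichever block it is, then the value of every node at the point where all
blocks are switched to `W` is a signed sum of its values at the other points.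
-/

namespace Pool.Agent.Run7.h284.DL

open Finset DomAC0 H568R2 Pool.Agent.H994R2.JL

section blocks

variable {N m T : ℕ} {J : Type}

/-- the selector bits for the selection `γ` of the blocks -/
def selb (blk : Fin m → Fin T) (ρ : Restr (Fin m)) (γ : Fin T → Bool) : Fin m → Bool :=
  ov ρ (fun j => γ (blk j))

/-- leaves at the selection `γ` -/
def sigB (lf : J → Mat N m → Col N → Bool) (blk : Fin m → Fin T) (ρ : Restr (Fin m))
    (V W : Mat N m) (y : Col N) (γ : Fin T → Bool) : J → Bool :=
  sig lf V W y (selb blk ρ γ)

/-- the function of a prefix of a gate is not a junta when the block `i` is switched off -/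
def BadB (C : Circuit J) (lf : J → Mat N m → Col N → Bool) (blk : Fin m → Fin T) (K d : ℕ)
    (i : Fin T) (V W : Mat N m) (y : Col N) (ρ : Restr (Fin m)) : Prop :=
  ∃ g : Fin C.size, C.gateDepth g ≤ d ∧ ∃ l : ℕ, ¬ Junta K (fun γ : Fin T → Bool =>
    gfun C g (sigB lf blk ρ V W y (Function.update γ i false)) ((pl C g).take l))

lemma junta_comp {f : (Fin m → Bool) → Bool} {K : ℕ} (hf : Junta K f) (blk : Fin m → Fin T)
    (F : (Fin T → Bool) → (Fin T → Bool)) (hF : ∀ γ γ' i, γ i = γ' i → F γ i = F γ' i) :
    Junta K (fun γ : Fin T → Bool => f (fun j => F γ (blk j))) := by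
  classical
  obtain ⟨A, hA, hf⟩ := hf
  refine ⟨A.image blk, Finset.card_image_le.trans hA, fun γ γ' h => ?_⟩
  apply hf
  intro j hj
  exact hF γ γ' _ (h _ (Finset.mem_image_of_mem blk hj))

lemma not_badB {C : Circuit J} {lf : J → Mat N m → Col N → Bool} {blk : Fin m → Fin T}
    {a0 κ d : ℕ} {V W : Mat N m} {y : Col N} {ρ : Restr (Fin m)}
    (h : GoodA C (sig lf V W y) a0 κ d ρ) (i : Fin T) :
    ¬ BadB C lf blk (KA a0 κ d) d i V W y ρ := by
  rintro ⟨g, hg, l, hl⟩
  apply hl
  exact junta_comp (h g hg l) blk (fun γ => Function.update γ i false) (by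
    intro γ γ' i' hi
    by_cases h2 : i' = i
    · subst h2; simp
    · simp [Function.update_of_ne h2, hi])

lemma badB_indep (C : Circuit J) (lf : J → Mat N m → Col N → Bool) (blk : Fin m → Fin T)
    (K d : ℕ) (i : Fin T) (V W : Mat N m) (y : Col N) (ρ : Restr (Fin m)) (j0 : Fin m)
    (hb : blk j0 = i) (hρ : ρ j0 = none) (c : Col N) :
    BadB C lf blk K d i V (Function.update W j0 c) y ρ ↔ BadB C lf blk K d i V W y ρ := by
  have h : ∀ γ : Fin T → Bool,
      sigB lf blk ρ V (Function.update W j0 c) y (Function.update γ i false) =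
        sigB lf blk ρ V W y (Function.update γ i false) := by
    intro γ
    unfold sigB sig
    funext e
    congr 1
    funext j
    unfold mixb
    by_cases hj : j = j0
    · subst hj
      have : selb blk ρ (Function.update γ i false) j = false := by
        show (ρ j).getD (Function.update γ i false (blk j)) = false
        rw [hρ, hb]
        simp
      rw [this]
      rfl
    · rw [Function.update_of_ne hj]
  unfold BadB
  simp only [h]

lemma plant_id (γ : Fin T → Bool) :
    plant id (univ.filter (fun i => γ i = true)) (fun _ => false) = γ := by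
  funext i
  unfold plant
  simp

/-- a coordinate outside the sensitive set does not matter -/
lemma sens_free {f : (Fin T → Bool) → Bool} {i0 : Fin T} (h : i0 ∉ sens f id (fun _ => false))
    (γ : Fin T → Bool) (b : Bool) : f (Function.update γ i0 b) = f γ := by
  classical
  rw [not_mem_sens] at h
  have key : ∀ γ : Fin T → Bool, f (Function.update γ i0 true) = f (Function.update γ i0 false) := by
    intro γ
    have h1 := h (univ.filter (fun i => Function.update γ i0 false i = true))
    rw [plant_id] at h1
    rw [h1]
    congr 1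
    rw [← plant_id (Function.update γ i0 true)]
    congr 1
    ext i
    simp only [Finset.mem_filter, Finset.mem_univ, true_and, Finset.mem_insert]
    by_cases hi : i = i0
    · subst hi; simp
    · simp [hi]
  cases hb : γ i0 with
  | true =>
    have e1 : Function.update γ i0 true = γ := by rw [← hb]; exact Function.update_eq_self i0 γ
    cases b with
    | true => rw [e1]
    | false => rw [← key, e1]
  | false =>
    have e1 : Function.update γ i0 false = γ := by rw [← hb]; exact Function.update_eq_self i0 γ
    cases b with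
    | true => rw [key, e1]
    | false => rw [e1]

/-- Every node of small depth has a block that does not matter. -/
lemma node_free (hME : StubME) (C : Circuit J) (lf : J → Mat N m → Col N → Bool)
    {a0 K d : ℕ} (hlf : ∀ j, Local a0 (lf j)) (ha : a0 ≤ K) (hT : T = 2 * K + 1)
    (blk : Fin m → Fin T) (V W : Mat N m) (y : Col N) (ρ : Restr (Fin m))
    (hno : ∀ i, ¬ BadB C lf blk K d i V W y ρ) (v : J ⊕ Fin C.size) (hv : C.nodeDepth v ≤ d) :
    ∃ i0 : Fin T, ∀ (γ : Fin T → Bool) (b : Bool),
      C.nodeVal (sigB lf blk ρ V W y (Function.update γ i0 b)) v =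
        C.nodeVal (sigB lf blk ρ V W y γ) v := by
  classical
  have hσ : ∀ j, Junta a0 (fun γ : Fin T → Bool => sigB lf blk ρ V W y γ j) := by
    intro j
    have h1 := (sig_junta lf hlf V W y j).rs ρ
    exact junta_comp h1 blk id (fun _ _ _ h => h)
  have hsmall : (sens (fun γ => C.nodeVal (sigB lf blk ρ V W y γ) v) id
      (fun _ => false)).card < K + 1 := by
    by_contra hcon
    push Not at hcon
    obtain ⟨g, hg, l, _, h1, h2⟩ := hME (Fin T) (Fin T) J C (sigB lf blk ρ V W y) a0 (K + 1)
      (by omega) hσ id Function.injective_id (fun _ => false) d v hv hcon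
    set f : (Fin T → Bool) → Bool :=
      fun γ => gfun C g (sigB lf blk ρ V W y γ) ((pl C g).take l) with hf
    obtain ⟨i0, hi0⟩ : ∃ i0, i0 ∉ sens f id (fun _ => false) := by
      by_contra hall
      push Not at hall
      have h3 : sens f id (fun _ => false) = univ := Finset.eq_univ_iff_forall.2 hall
      rw [h3, Finset.card_univ, Fintype.card_fin] at h2
      omega
    have h4 : Junta K f := by
      by_contra hJ
      apply hno i0
      refine ⟨g, hg, l, ?_⟩
      have h5 : (fun γ : Fin T → Bool => gfun C g
          (sigB lf blk ρ V W y (Function.update γ i0 false)) ((pl C g).take l)) = f := by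
        funext γ
        exact sens_free hi0 γ false
      rw [h5]
      exact hJ
    have h6 := sens_junta h4 id Function.injective_id (fun _ => false)
    omega
  obtain ⟨i0, hi0⟩ : ∃ i0, i0 ∉ sens (fun γ => C.nodeVal (sigB lf blk ρ V W y γ) v) id
      (fun _ => false) := by
    by_contra hall
    push Not at hall
    have h3 := Finset.eq_univ_iff_forall.2 hall
    rw [h3, Finset.card_univ, Fintype.card_fin] at hsmall
    omega
  exact ⟨i0, fun γ b => sens_free hi0 γ b⟩

/-- the sign of a selection -/
def sgn (γ : Fin T → Bool) : ℤ := ∏ i, (if γ i then -1 else 1)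

lemma sgn_sq (γ : Fin T → Bool) : sgn γ * sgn γ = 1 := by
  unfold sgn
  rw [← Finset.prod_mul_distrib]
  apply Finset.prod_eq_one
  intro i _
  split_ifs <;> norm_num

lemma sgn_abs (γ : Fin T → Bool) : |sgn γ| = 1 := by
  have h := sgn_sq γ
  rcases mul_self_eq_one_iff.1 h with h1 | h1 <;> simp [h1]

lemma sgn_flip (γ : Fin T → Bool) (i0 : Fin T) :
    sgn (Function.update γ i0 (!γ i0)) = -sgn γ := by
  unfold sgn
  rw [← Finset.mul_prod_erase univ _ (Finset.mem_univ i0),
    ← Finset.mul_prod_erase univ (fun i => (if γ i then (-1 : ℤ) else 1)) (Finset.mem_univ i0)]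
  have h1 : ∏ x ∈ univ.erase i0, (if Function.update γ i0 (!γ i0) x then (-1 : ℤ) else 1) =
      ∏ x ∈ univ.erase i0, (if γ x then (-1 : ℤ) else 1) := by
    refine Finset.prod_congr rfl fun x hx => ?_
    rw [Function.update_of_ne (Finset.ne_of_mem_erase hx)]
  rw [h1, Function.update_self]
  cases γ i0 <;> simp

/-- inclusion and exclusion -/
lemma incl_excl (F : (Fin T → Bool) → ℤ) (i0 : Fin T)
    (hF : ∀ (γ : Fin T → Bool) (b : Bool), F (Function.update γ i0 b) = F γ) :
    F (fun _ => true) = ∑ γ ∈ univ.erase (fun _ : Fin T => true),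
      (-(sgn (fun _ : Fin T => true) * sgn γ)) * F γ := by
  have h0 : ∑ γ : Fin T → Bool, sgn γ * F γ = 0 := by
    have hinv : Function.Involutive (fun γ : Fin T → Bool => Function.update γ i0 (!γ i0)) := by
      intro γ
      simp
    have h1 : ∑ γ : Fin T → Bool, sgn γ * F γ =
        ∑ γ : Fin T → Bool, sgn (Function.update γ i0 (!γ i0)) *
          F (Function.update γ i0 (!γ i0)) :=
      (Equiv.sum_comp hinv.toPerm (fun γ => sgn γ * F γ)).symm
    have h2 : ∑ γ : Fin T → Bool, sgn (Function.update γ i0 (!γ i0)) *
          F (Function.update γ i0 (!γ i0)) = -∑ γ : Fin T → Bool, sgn γ * F γ := by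
      rw [← Finset.sum_neg_distrib]
      refine Finset.sum_congr rfl fun γ _ => ?_
      rw [sgn_flip, hF]
      ring
    rw [h2] at h1
    omega
  rw [← Finset.add_sum_erase univ _ (Finset.mem_univ (fun _ : Fin T => true))] at h0
  have h3 : ∑ γ ∈ univ.erase (fun _ : Fin T => true),
      (-(sgn (fun _ : Fin T => true) * sgn γ)) * F γ =
      -(sgn (fun _ : Fin T => true)) * ∑ γ ∈ univ.erase (fun _ : Fin T => true), sgn γ * F γ := by
    rw [Finset.mul_sum]
    refine Finset.sum_congr rfl fun γ _ => ?_
    ring
  rw [h3]
  have h4 := sgn_sq (fun _ : Fin T => true)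
  have h5 : ∑ γ ∈ univ.erase (fun _ : Fin T => true), sgn γ * F γ =
      -(sgn (fun _ : Fin T => true) * F (fun _ => true)) := by linarith
  rw [h5]
  calc F (fun _ => true) = (sgn (fun _ : Fin T => true) * sgn (fun _ : Fin T => true)) *
        F (fun _ => true) := by rw [h4, one_mul]
    _ = _ := by ring

end blocks

end Pool.Agent.Run7.h284.DL
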