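import Pool.Agent.Run7.h284.DL.Rho2

/-!
# Random restrictions and hidden variables among the stars
-/

namespace Pool.Agent.Run7.h284.DL

open Finset DomAC0 H568R2 Pool.Agent.H994R2.JL
open scoped BigOperators

section cells

variable {m t k0 n0 w0 : ℕ}

/-- a block, a cell of the block, a subcell, a column of the subcell -/
abbrev CIdx (t k0 n0 w0 : ℕ) := Fin (t + 1) × Fin k0 × Fin n0 × Fin w0

open Classical in
/-- the block of a column -/
noncomputable def blkE (e : CIdx t k0 n0 w0 ↪ Fin m) (j : Fin m) : Fin (t + 1) :=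
  if h : ∃ p, e p = j then h.choose.1 else 0

lemma blkE_e (e : CIdx t k0 n0 w0 ↪ Fin m) (p : CIdx t k0 n0 w0) : blkE e (e p) = p.1 := by
  classical
  have h : ∃ p', e p' = e p := ⟨p, rfl⟩
  unfold blkE
  rw [dif_pos h, e.injective h.choose_spec]

/-- every subcell has a star -/
def GoodR (e : CIdx t k0 n0 w0 ↪ Fin m) (ρ : Restr (Fin m)) : Prop :=
  ∀ i j u, ∃ v, ρ (e (i, j, u, v)) = none

open Classical in
/-- a star of the subcell -/
noncomputable def repR (e : CIdx t k0 n0 w0 ↪ Fin m) (v0 : Fin w0) (ρ : Restr (Fin m))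
    (i : Fin (t + 1)) (j : Fin k0) (u : Fin n0) : Fin m :=
  if h : ∃ v, ρ (e (i, j, u, v)) = none then e (i, j, u, h.choose) else e (i, j, u, v0)

lemma repR_eq (e : CIdx t k0 n0 w0 ↪ Fin m) (v0 : Fin w0) (ρ : Restr (Fin m))
    (i : Fin (t + 1)) (j : Fin k0) (u : Fin n0) : ∃ v, repR e v0 ρ i j u = e (i, j, u, v) := by
  classical
  unfold repR
  split_ifs with h
  · exact ⟨_, rfl⟩
  · exact ⟨_, rfl⟩

lemma repR_star {e : CIdx t k0 n0 w0 ↪ Fin m} {v0 : Fin w0} {ρ : Restr (Fin m)}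
    (h : GoodR e ρ) (i : Fin (t + 1)) (j : Fin k0) (u : Fin n0) :
    ρ (repR e v0 ρ i j u) = none := by
  classical
  unfold repR
  rw [dif_pos (h i j u)]
  exact (h i j u).choose_spec

/-- the hidden variables of a block -/
noncomputable def hidR (e : CIdx t k0 n0 w0 ↪ Fin m) (v0 : Fin w0) (ρ : Restr (Fin m))
    (i : Fin (t + 1)) (a : Fin k0 → Fin n0) : Finset (Fin m) :=
  univ.image (fun j => repR e v0 ρ i j (a j))

lemma hidR_blk (e : CIdx t k0 n0 w0 ↪ Fin m) (v0 : Fin w0) (ρ : Restr (Fin m))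
    (i : Fin (t + 1)) (a : Fin k0 → Fin n0) : ∀ j ∈ hidR e v0 ρ i a, blkE e j = i := by
  intro j hj
  unfold hidR at hj
  rw [Finset.mem_image] at hj
  obtain ⟨j', _, rfl⟩ := hj
  obtain ⟨v, hv⟩ := repR_eq e v0 ρ i j' (a j')
  rw [hv, blkE_e]

lemma hidR_star {e : CIdx t k0 n0 w0 ↪ Fin m} {v0 : Fin w0} {ρ : Restr (Fin m)}
    (h : GoodR e ρ) (i : Fin (t + 1)) (a : Fin k0 → Fin n0) :
    ∀ j ∈ hidR e v0 ρ i a, ρ j = none := by
  intro j hj
  unfold hidR at hj
  rw [Finset.mem_image] at hj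
  obtain ⟨j', _, rfl⟩ := hj
  exact repR_star h _ _ _

lemma hidR_card (e : CIdx t k0 n0 w0 ↪ Fin m) (v0 : Fin w0) (ρ : Restr (Fin m))
    (i : Fin (t + 1)) (a : Fin k0 → Fin n0) : (hidR e v0 ρ i a).card ≤ k0 := by
  unfold hidR
  refine Finset.card_image_le.trans ?_
  rw [Finset.card_univ, Fintype.card_fin]

lemma hidR_inj (e : CIdx t k0 n0 w0 ↪ Fin m) (v0 : Fin w0) (ρ : Restr (Fin m))
    (i : Fin (t + 1)) : Function.Injective (hidR e v0 ρ i) := by
  intro a b hab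
  funext j
  have h1 : repR e v0 ρ i j (a j) ∈ hidR e v0 ρ i b := by
    rw [← hab]
    exact Finset.mem_image_of_mem _ (Finset.mem_univ j)
  unfold hidR at h1
  rw [Finset.mem_image] at h1
  obtain ⟨j', _, h2⟩ := h1
  obtain ⟨v, hv⟩ := repR_eq e v0 ρ i j (a j)
  obtain ⟨v', hv'⟩ := repR_eq e v0 ρ i j' (b j')
  rw [hv, hv'] at h2
  have h3 := e.injective h2
  simp only [Prod.mk.injEq, true_and] at h3
  obtain ⟨h4, h5, _⟩ := h3
  subst h4
  exact h5.symm

lemma hidR_spread (e : CIdx t k0 n0 w0 ↪ Fin m) (v0 : Fin w0) (ρ : Restr (Fin m))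
    (i : Fin (t + 1)) (A : Finset (Fin m)) :
    𝔼 a : Fin k0 → Fin n0, (if hidR e v0 ρ i a = A then (1 : ℝ) else 0) ≤
      1 / ((n0 ^ k0 : ℕ) : ℝ) := by
  refine (spread_inj _ (hidR_inj e v0 ρ i) A).trans (le_of_eq ?_)
  rw [Fintype.card_fun, Fintype.card_fin, Fintype.card_fin]

lemma hset_card_le {ι : Type} (hid : Fin (t + 1) → ι → Finset (Fin m)) (k : ℕ)
    (h : ∀ i a, (hid i a).card ≤ k) (s : Fin (t + 1) → ι) :
    (hset hid s).card ≤ (t + 1) * k := by
  unfold hset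
  refine Finset.card_biUnion_le.trans ?_
  refine (Finset.sum_le_card_nsmul _ _ k (fun i _ => h i _)).trans ?_
  rw [Finset.card_univ, Fintype.card_fin, smul_eq_mul]

lemma Ex_expect {I A α : Type*} [Fintype I] [DecidableEq I] [Fintype A] [Fintype α] (w : A → ℝ)
    (F : α → (I → A) → ℝ) : Ex w (fun ω => 𝔼 a, F a ω) = 𝔼 a, Ex w (F a) := by
  unfold Ex
  rw [Finset.expect_sum_comm]
  refine Finset.sum_congr rfl fun ω _ => ?_
  rw [Finset.mul_expect]

lemma Ex_abs_le {I A : Type*} [Fintype I] [DecidableEq I] [Fintype A] {w : A → ℝ}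
    (hw : ∀ a, 0 ≤ w a) (F : (I → A) → ℝ) : |Ex w F| ≤ Ex w (fun ω => |F ω|) := by
  unfold Ex
  refine (Finset.abs_sum_le_sum_abs _ _).trans (Finset.sum_le_sum fun ω _ => ?_)
  rw [abs_mul, abs_of_nonneg (Finset.prod_nonneg fun i _ => hw _)]

open Classical in
lemma prob_goodR (e : CIdx t k0 n0 w0 ↪ Fin m) {p : ℝ} (hp0 : 0 ≤ p) (hp1 : p ≤ 1) :
    Ex (wq p) (fun ρ : Restr (Fin m) => if ¬ GoodR e ρ then (1 : ℝ) else 0) ≤
      ((t + 1) * k0 * n0 : ℕ) * (1 - p) ^ w0 := by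
  have h1 : ∀ ρ : Restr (Fin m), (if ¬ GoodR e ρ then (1 : ℝ) else 0) ≤
      ∑ x : Fin (t + 1) × Fin k0 × Fin n0,
        (1 : ℝ) * (if ∀ i ∈ univ.image (fun v => e (x.1, x.2.1, x.2.2, v)), ρ i ≠ none
          then (1 : ℝ) else 0) := by
    intro ρ
    by_cases h : GoodR e ρ
    · rw [if_neg (not_not.2 h)]
      exact Finset.sum_nonneg fun x _ => by split_ifs <;> norm_num
    · rw [if_pos h]
      unfold GoodR at h
      push Not at h
      obtain ⟨i, j, u, h⟩ := h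
      have h2 := Finset.single_le_sum (f := fun x : Fin (t + 1) × Fin k0 × Fin n0 =>
        (1 : ℝ) * (if ∀ i ∈ univ.image (fun v => e (x.1, x.2.1, x.2.2, v)), ρ i ≠ none
          then (1 : ℝ) else 0)) (fun x _ => by split_ifs <;> norm_num)
        (Finset.mem_univ (i, j, u))
      refine le_trans ?_ h2
      simp only
      rw [if_pos, one_mul]
      intro i' hi'
      rw [Finset.mem_image] at hi'
      obtain ⟨v, _, rfl⟩ := hi'
      exact h v
  refine (Ex_mono (wq_nonneg hp0 hp1) h1).trans ?_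
  rw [Ex_sum]
  have h3 : ∀ x ∈ (univ : Finset (Fin (t + 1) × Fin k0 × Fin n0)),
      Ex (wq p) (fun ρ : Restr (Fin m) =>
        (1 : ℝ) * (if ∀ i ∈ univ.image (fun v => e (x.1, x.2.1, x.2.2, v)), ρ i ≠ none
          then (1 : ℝ) else 0)) ≤ (1 - p) ^ w0 := by
    intro x _
    have h4 := Ex_indep (I := Fin m) (wq_sum p) (fun a : Option Bool => a ≠ none)
      (univ.image (fun v => e (x.1, x.2.1, x.2.2, v))) (fun _ : Restr (Fin m) => (1 : ℝ))
      (by intros; rfl)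
    refine le_of_eq (Eq.trans ?_ (h4.trans ?_))
    · congr 1
      funext ρ
      congr
    · rw [Ex_const (wq_sum p), mul_one, Finset.card_image_of_injective, Finset.card_univ,
        Fintype.card_fin]
      · congr 1
        rw [Finset.sum_filter, Fintype.sum_option, Fintype.sum_bool]
        simp only [ne_eq, not_true_eq_false, if_false, reduceCtorEq, not_false_eq_true, if_true,
          zero_add]
        unfold wq
        ring
      · intro v v' hv
        have := e.injective hv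
        simp only [Prod.mk.injEq, true_and] at this
        exact this
  refine (Finset.sum_le_card_nsmul _ _ _ h3).trans (le_of_eq ?_)
  rw [nsmul_eq_mul, Finset.card_univ, Fintype.card_prod, Fintype.card_prod, Fintype.card_fin,
    Fintype.card_fin, Fintype.card_fin, mul_assoc]

end cells

section global

variable {N m t k0 n0 w0 : ℕ} {J : Type} [Fintype J]

/-- the total error -/
noncomputable def Del (t B W q k0 n0 w0 : ℕ) (p η : ℝ) : ℝ :=
  ((t + 1) * k0 * n0 : ℕ) * (1 - p) ^ w0 + del t B W q (1 / ((n0 ^ k0 : ℕ) : ℝ)) + (t + 1) * η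

open Classical in
theorem global_bound (hME : StubME) (C : Circuit J)
    (lf : J → Mat (N + 1) m → Col (N + 1) → Bool) {a0 κ d : ℕ} (hκ : 1 ≤ κ)
    (hlf : ∀ j, Local a0 (lf j))
    (hlast : ∀ j X y y', (∀ i : Fin N, y i.castSucc = y' i.castSucc) → lf j X y = lf j X y')
    (ht : t = 2 * KA a0 κ d) (B Wt : ℕ) {q : ℕ} (w : Fin q → J ⊕ Fin C.size → ℤ) (θ : Fin q → ℤ)
    (ψ : Fin q → ℤ → Bool) (hgates : GatesOK d B Wt w θ ψ) (f : (Fin q → Bool) → Bool)
    (e : CIdx t k0 n0 w0 ↪ Fin m) (v0 : Fin w0) (hk0 : 1 ≤ k0) (hn0 : 1 ≤ n0) {p : ℝ}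
    (hp0 : 0 ≤ p) (hp1 : p ≤ 1) {η : ℝ}
    (hη : ∀ V W y, Ex (wq p) (fun ρ : Restr (Fin m) =>
      if ¬ GoodA C (sig lf V W y) a0 κ d ρ then (1 : ℝ) else 0) ≤ η) :
    |Ex (wq p) (fun ρ : Restr (Fin m) => 𝔼 s : Fin (t + 1) → Fin k0 → Fin n0,
      𝔼 Z : Mat (N + 1) m,
      (if f (fun k => ψ k (nval C lf (w k) Z (labU (hset (hidR e v0 ρ) s) Z) - θ k))
        then (1 : ℝ) else 0) * sgr (labU (hset (hidR e v0 ρ) s) Z (Fin.last N)))| ≤
      Del t B Wt q k0 n0 w0 p η := by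
  have hw := wq_nonneg hp0 hp1
  set ν : ℝ := 1 / ((n0 ^ k0 : ℕ) : ℝ) with hν
  have hν0 : 0 ≤ ν := by positivity
  have hδ0 := del_nonneg t B Wt q hν0
  have : Nonempty (Fin k0) := ⟨⟨0, hk0⟩⟩
  have : Nonempty (Fin n0) := ⟨⟨0, hn0⟩⟩
  refine (Ex_abs_le hw _).trans ?_
  have h1 : ∀ ρ : Restr (Fin m), |𝔼 s : Fin (t + 1) → Fin k0 → Fin n0, 𝔼 Z : Mat (N + 1) m,
      (if f (fun k => ψ k (nval C lf (w k) Z (labU (hset (hidR e v0 ρ) s) Z) - θ k))
        then (1 : ℝ) else 0) * sgr (labU (hset (hidR e v0 ρ) s) Z (Fin.last N))| ≤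
      ((if ¬ GoodR e ρ then (1 : ℝ) else 0) + del t B Wt q ν) +
        (t + 1) * 𝔼 V : Mat (N + 1) m, 𝔼 W : Mat (N + 1) m, 𝔼 y : Col (N + 1),
          (if ¬ GoodA C (sig lf V W y) a0 κ d ρ then (1 : ℝ) else 0) := by
    intro ρ
    have hnn : 0 ≤ 𝔼 V : Mat (N + 1) m, 𝔼 W : Mat (N + 1) m, 𝔼 y : Col (N + 1),
          (if ¬ GoodA C (sig lf V W y) a0 κ d ρ then (1 : ℝ) else 0) :=
      Finset.expect_nonneg fun _ _ => Finset.expect_nonneg fun _ _ =>
        Finset.expect_nonneg fun _ _ => by split_ifs <;> norm_num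
    by_cases hG : GoodR e ρ
    · rw [if_neg (not_not.2 hG), zero_add]
      exact rho_bound hν0 hME C lf hκ hlf hlast ht B Wt w θ ψ hgates f (blkE e) ρ
        (hidR e v0 ρ) (hidR_blk e v0 ρ) (hidR_star hG) (by
          intro i a
          exact Finset.univ_nonempty.image _) (hidR_spread e v0 ρ)
    · rw [if_pos hG]
      have h2 : |𝔼 s : Fin (t + 1) → Fin k0 → Fin n0, 𝔼 Z : Mat (N + 1) m,
        (if f (fun k => ψ k (nval C lf (w k) Z (labU (hset (hidR e v0 ρ) s) Z) - θ k))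
          then (1 : ℝ) else 0) * sgr (labU (hset (hidR e v0 ρ) s) Z (Fin.last N))| ≤ 1 := by
        refine expR_abs_le _ 1 zero_le_one fun s => expR_abs_le _ 1 zero_le_one fun Z => ?_
        rw [abs_mul, sgr_abs, mul_one]
        split_ifs <;> simp
      have h3 : 0 ≤ (t + 1 : ℝ) * 𝔼 V : Mat (N + 1) m, 𝔼 W : Mat (N + 1) m, 𝔼 y : Col (N + 1),
          (if ¬ GoodA C (sig lf V W y) a0 κ d ρ then (1 : ℝ) else 0) := by positivity
      linarith
  refine (Ex_mono hw h1).trans ?_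
  rw [Ex_add, Ex_add, Ex_const (wq_sum p), Ex_smul, Ex_expect]
  unfold Del
  refine add_le_add (add_le_add (prob_goodR e hp0 hp1) (le_refl _)) ?_
  refine mul_le_mul_of_nonneg_left ?_ (by positivity)
  refine Finset.expect_le Finset.univ_nonempty fun V _ => ?_
  rw [Ex_expect]
  refine Finset.expect_le Finset.univ_nonempty fun W _ => ?_
  rw [Ex_expect]
  exact Finset.expect_le Finset.univ_nonempty fun y _ => hη V W y

end global

end Pool.Agent.Run7.h284.DL
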