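import Pool.Agent.Run7.h284.DL.Thr
import Pool.Agent.H994R2.JL.Stubs

/-!
# From the field with two elements to Boolean examples
-/

namespace Pool.Agent.Run7.h284.DL

open Finset
open scoped BigOperators ComplexConjugate
open Pool.Agent.H994R2.JL (parT)

section marg

variable {A B C : Type*} [Fintype A] [Fintype B] [Fintype C] [DecidableEq A] [DecidableEq B]
  {M : Type*} [AddCommMonoid M] [Module ℚ≥0 M]

/-- restricting a random function along an injection gives a random function -/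
lemma marg [Nonempty C] (g : B → A) (hg : Function.Injective g) (f : (B → C) → M) :
    𝔼 F : A → C, f (F ∘ g) = 𝔼 G : B → C, f G := by
  classical
  let e1 : B ⊕ {a : A // a ∉ Set.range g} ≃ A :=
    (Equiv.sumCongr (Equiv.ofInjective g hg) (Equiv.refl _)).trans
      (Equiv.Set.sumCompl (Set.range g))
  let e2 : (A → C) ≃ (B → C) × ({a : A // a ∉ Set.range g} → C) :=
    (Equiv.arrowCongr e1.symm (Equiv.refl C)).trans (Equiv.sumArrowEquivProdArrow _ _ _)
  have h1 : ∀ F : A → C, (e2 F).1 = F ∘ g := by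
    intro F
    funext b
    rfl
  have h2 : 𝔼 F : A → C, f (F ∘ g) =
      𝔼 p : (B → C) × ({a : A // a ∉ Set.range g} → C), f p.1 := by
    rw [← exp_equiv e2]
    exact Finset.expect_congr rfl fun F _ => by rw [h1]
  rw [h2, exp_prod]
  refine Finset.expect_congr rfl fun G _ => ?_
  exact Fintype.expect_const (ι := ({a : A // a ∉ Set.range g} → C)) (f G)

end marg

/-- `Bool` and the field with two elements -/
def tz : Bool ≃ ZMod 2 where
  toFun b := if b then 1 else 0
  invFun a := decide (a = 1)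
  left_inv b := by cases b <;> decide
  right_inv a := by revert a; decide

lemma tz_true : tz true = 1 := rfl
lemma tz_false : tz false = 0 := rfl

lemma tz_parT {m : ℕ} (U : Finset (Fin m)) (x : Fin m → Bool) :
    tz (parT U x) = ∑ j ∈ U, tz (x j) := by
  have h1 : ∑ j ∈ U, tz (x j) = (((U.filter (fun j => x j = true)).card : ℕ) : ZMod 2) := by
    rw [Finset.natCast_card_filter]
    refine Finset.sum_congr rfl fun j _ => ?_
    cases x j <;> rfl
  rw [h1]
  unfold parT
  by_cases h : Odd (U.filter (fun j => x j = true)).card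
  · rw [decide_eq_true h, tz_true, (ZMod.natCast_eq_one_iff_odd).2 h]
  · rw [decide_eq_false h, tz_false]
    rw [Nat.not_odd_iff_even] at h
    rw [(ZMod.natCast_eq_zero_iff_even).2 h]

/-- the sign of a bit -/
noncomputable def sg (b : Bool) : ℂ := if b then -1 else 1

lemma chi_tz (b : Bool) : chi (tz b) = sg b := by
  cases b <;> simp [chi, sg, tz]

/-- the rows of a block as one matrix -/
def blkEquiv (N : ℕ) (V : Type) : Blk N V ≃ (Fin (N + 1) → V → ZMod 2) :=
  (Equiv.prodComm _ _).trans (Fin.snocEquiv (fun _ => V → ZMod 2))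

lemma blkEquiv_castSucc {N : ℕ} {V : Type} (b : Blk N V) (r : Fin N) :
    blkEquiv N V b r.castSucc = b.1 r := by
  simp [blkEquiv, Fin.snocEquiv]

lemma blkEquiv_last {N : ℕ} {V : Type} (b : Blk N V) :
    blkEquiv N V b (Fin.last N) = b.2 := by
  simp [blkEquiv, Fin.snocEquiv]

section core

variable {m N t : ℕ}

/-- all blocks as one array of bits -/
def bigEquiv (N m T : ℕ) : (Fin T → Blk N (Fin m)) ≃ (Fin T × Fin (N + 1) × Fin m → Bool) where
  toFun D p := tz.symm (blkEquiv N (Fin m) (D p.1) p.2.1 p.2.2)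
  invFun F i := (blkEquiv N (Fin m)).symm (fun r j => tz (F (i, r, j)))
  left_inv D := by
    funext i
    simp
  right_inv F := by
    funext p
    simp

/-- the examples -/
def exs (blk : Fin m → Fin (t + 1)) (D : Fin (t + 1) → Blk N (Fin m)) :
    Fin (N + 1) → Fin m → Bool := fun r j => bigEquiv N m (t + 1) D (blk j, r, j)

lemma exs_castSucc (blk : Fin m → Fin (t + 1)) (D : Fin (t + 1) → Blk N (Fin m)) (r : Fin N)
    (j : Fin m) : tz (exs blk D r.castSucc j) = (D (blk j)).1 r j := by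
  unfold exs bigEquiv
  simp [blkEquiv_castSucc]

lemma exs_last (blk : Fin m → Fin (t + 1)) (D : Fin (t + 1) → Blk N (Fin m))
    (j : Fin m) : tz (exs blk D (Fin.last N) j) = (D (blk j)).2 j := by
  unfold exs bigEquiv
  simp [blkEquiv_last]

lemma exp_exs {M : Type*} [AddCommMonoid M] [Module ℚ≥0 M] (blk : Fin m → Fin (t + 1))
    (f : (Fin (N + 1) → Fin m → Bool) → M) :
    𝔼 D : Fin (t + 1) → Blk N (Fin m), f (exs blk D) = 𝔼 X : Fin (N + 1) → Fin m → Bool, f X := by
  have h1 : 𝔼 D : Fin (t + 1) → Blk N (Fin m), f (exs blk D) =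
      𝔼 F : Fin (t + 1) × Fin (N + 1) × Fin m → Bool, f (fun r j => F (blk j, r, j)) :=
    exp_equiv (bigEquiv N m (t + 1))
      (fun F : Fin (t + 1) × Fin (N + 1) × Fin m → Bool => f (fun r j => F (blk j, r, j)))
  have h2 : 𝔼 X : Fin (N + 1) → Fin m → Bool, f X =
      𝔼 G : Fin (N + 1) × Fin m → Bool, f (fun r j => G (r, j)) :=
    exp_equiv (Equiv.curry (Fin (N + 1)) (Fin m) Bool).symm
      (fun G : Fin (N + 1) × Fin m → Bool => f (fun r j => G (r, j)))
  rw [h1, h2]
  exact marg (fun p : Fin (N + 1) × Fin m => ((blk p.2, p.1, p.2) : Fin (t + 1) × Fin (N + 1) × Fin m))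
    (by
      rintro ⟨r, j⟩ ⟨r', j'⟩ h
      simp only [Prod.mk.injEq] at h
      simp [h.2.1, h.2.2])
    (fun G : Fin (N + 1) × Fin m → Bool => f (fun r j => G (r, j)))

/-- the hidden set -/
def hset {ι : Type} (hid : Fin (t + 1) → ι → Finset (Fin m)) (s : Fin (t + 1) → ι) :
    Finset (Fin m) := univ.biUnion (fun i => hid i (s i))

/-- indicator vectors -/
def indv (A : Finset (Fin m)) : Fin m → ZMod 2 := fun j => if j ∈ A then 1 else 0

lemma indv_inj {A B : Finset (Fin m)} (h : indv A = indv B) : A = B := by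
  ext j
  have := congrFun h j
  unfold indv at this
  by_cases h1 : j ∈ A <;> by_cases h2 : j ∈ B <;> simp_all

lemma dot_indv (x : Fin m → ZMod 2) (A : Finset (Fin m)) : x ⬝ᵥ indv A = ∑ j ∈ A, x j := by
  unfold dotProduct indv
  simp

lemma sum_hset {ι : Type} (blk : Fin m → Fin (t + 1)) (hid : Fin (t + 1) → ι → Finset (Fin m))
    (hb : ∀ i a, ∀ j ∈ hid i a, blk j = i) (s : Fin (t + 1) → ι) (f : Fin m → ZMod 2) :
    ∑ j ∈ hset hid s, f j = ∑ i, ∑ j ∈ hid i (s i), f j := by
  unfold hset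
  rw [Finset.sum_biUnion]
  intro i _ i' _ hii
  rw [Function.onFun, Finset.disjoint_left]
  intro j hj hj'
  exact hii ((hb i _ j hj).symm.trans (hb i' _ j hj'))

theorem core {ι : Type} [Fintype ι] [Nonempty ι] {ν : ℝ} (hν : 0 ≤ ν) (blk : Fin m → Fin (t + 1))
    (hid : Fin (t + 1) → ι → Finset (Fin m)) (hb : ∀ i a, ∀ j ∈ hid i a, blk j = i)
    (hsp : ∀ i (A : Finset (Fin m)), 𝔼 a, (if hid i a = A then (1 : ℝ) else 0) ≤ ν)
    (S : Fin (t + 1) → (Fin N → Bool) → (Fin (N + 1) → Fin m → Bool) → ℤ)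
    (hS : ∀ i y X X', (∀ r j, blk j ≠ i → X r j = X' r j) → S i y X = S i y X') (L : ℕ)
    (hL : ∀ i y X, |S i y X| < 2 ^ L) :
    ‖𝔼 s : Fin (t + 1) → ι, 𝔼 X : Fin (N + 1) → Fin m → Bool,
      (if 0 ≤ ∑ i, S i (fun r => parT (hset hid s) (X r.castSucc)) X then (1 : ℂ) else 0) *
        sg (parT (hset hid s) (X (Fin.last N)))‖ ≤ (L * (t + 2) ^ 2 + 1) * nb ν t 1 := by
  set h : Fin (t + 1) → ι → Fin m → ZMod 2 := fun i a => indv (hid i a) with hh
  have hspread : ∀ i, Spread ν (h i) := by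
    intro i v
    by_cases hv : ∃ A : Finset (Fin m), indv A = v
    · obtain ⟨A, rfl⟩ := hv
      refine le_trans (Finset.expect_le_expect fun a _ => ?_) (hsp i A)
      by_cases hA : hid i a = A
      · rw [if_pos hA]
        split_ifs <;> norm_num
      · rw [if_neg hA, if_neg (fun h2 => hA (indv_inj h2))]
    · refine le_trans (le_of_eq ?_) hν
      refine Finset.expect_eq_zero fun a _ => ?_
      rw [if_neg]
      intro h2
      exact hv ⟨_, h2⟩
  -- the space
  let Ω := (Unit → Fin (t + 1) → ι) × (Fin (t + 1) → Blk N (Fin m))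
  have hlab : ∀ (s : Unit → Fin (t + 1) → ι) (D : Fin (t + 1) → Blk N (Fin m)) (r : Fin N),
      lab h s D () r = tz (parT (hset hid (s ())) (exs blk D r.castSucc)) := by
    intro s D r
    rw [tz_parT, sum_hset blk hid hb]
    unfold lab
    refine Finset.sum_congr rfl fun i _ => ?_
    rw [hh]
    simp only
    rw [dot_indv]
    refine Finset.sum_congr rfl fun j hj => ?_
    rw [exs_castSucc, hb i _ j hj]
  have htgt : ∀ (s : Unit → Fin (t + 1) → ι) (D : Fin (t + 1) → Blk N (Fin m)),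
      tgt h s D = tz (parT (hset hid (s ())) (exs blk D (Fin.last N))) := by
    intro s D
    rw [tz_parT, sum_hset blk hid hb]
    unfold tgt
    rw [Fintype.sum_unique]
    refine Finset.sum_congr rfl fun i _ => ?_
    rw [hh]
    simp only
    rw [dot_indv]
    refine Finset.sum_congr rfl fun j hj => ?_
    rw [exs_last, hb i _ j hj]
  have hmain := thr_bound (Ω := Ω) (Z := Unit → Fin N → ZMod 2) (B := Blk N (Fin m)) (T := t + 1)
    (fun ω => lab h ω.1 ω.2) (fun ω => ω.2) (fun ω => chi (tgt h ω.1 ω.2)) (nb ν t 1)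
    (nb_nonneg hν _ _) (by
      intro φ hφ hF
      have h1 := nof_main (N := N) hν t h hspread Unit φ hφ hF
      rw [Fintype.card_unit] at h1
      rwa [← exp_prod (fun ω : Ω => (∏ i, φ i (lab h ω.1 ω.2) ω.2) * chi (tgt h ω.1 ω.2))] at h1)
    (fun i z D => S i (fun r => tz.symm (z () r)) (exs blk D)) (by
      intro i z D D' hD
      apply hS
      intro r j hj
      unfold exs bigEquiv
      simp only [Equiv.coe_fn_mk]
      rw [hD _ hj]) L (fun i ω => hL _ _ _)
  have hconv : 𝔼 ω : Ω, (if 0 ≤ ∑ i, S i (fun r => tz.symm (lab h ω.1 ω.2 () r)) (exs blk ω.2)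
      then (1 : ℂ) else 0) * chi (tgt h ω.1 ω.2) =
      𝔼 s : Fin (t + 1) → ι, 𝔼 X : Fin (N + 1) → Fin m → Bool,
      (if 0 ≤ ∑ i, S i (fun r => parT (hset hid s) (X r.castSucc)) X then (1 : ℂ) else 0) *
        sg (parT (hset hid s) (X (Fin.last N))) := by
    rw [exp_prod]
    rw [← exp_equiv (Equiv.funUnique Unit (Fin (t + 1) → ι))]
    refine Finset.expect_congr rfl fun s _ => ?_
    rw [← exp_exs blk]
    refine Finset.expect_congr rfl fun D _ => ?_
    simp only [hlab, htgt, Equiv.symm_apply_apply, chi_tz]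
    rfl
  rw [hconv] at hmain
  refine hmain.trans (le_of_eq ?_)
  push_cast
  ring

/-- the real sign of a bit -/
noncomputable def sgr (b : Bool) : ℝ := if b then -1 else 1

theorem coreR {ι : Type} [Fintype ι] [Nonempty ι] {ν : ℝ} (hν : 0 ≤ ν) (blk : Fin m → Fin (t + 1))
    (hid : Fin (t + 1) → ι → Finset (Fin m)) (hb : ∀ i a, ∀ j ∈ hid i a, blk j = i)
    (hsp : ∀ i (A : Finset (Fin m)), 𝔼 a, (if hid i a = A then (1 : ℝ) else 0) ≤ ν)
    (S : Fin (t + 1) → (Fin N → Bool) → (Fin (N + 1) → Fin m → Bool) → ℤ)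
    (hS : ∀ i y X X', (∀ r j, blk j ≠ i → X r j = X' r j) → S i y X = S i y X') (L : ℕ)
    (hL : ∀ i y X, |S i y X| < 2 ^ L) :
    |𝔼 s : Fin (t + 1) → ι, 𝔼 X : Fin (N + 1) → Fin m → Bool,
      (if 0 ≤ ∑ i, S i (fun r => parT (hset hid s) (X r.castSucc)) X then (1 : ℝ) else 0) *
        sgr (parT (hset hid s) (X (Fin.last N)))| ≤ (L * (t + 2) ^ 2 + 1) * nb ν t 1 := by
  have h := core hν blk hid hb hsp S hS L hL
  rw [← Real.norm_eq_abs, ← Complex.norm_real]
  refine le_trans (le_of_eq ?_) h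
  congr 1
  rw [Complex.ofReal_expect]
  refine Finset.expect_congr rfl fun s _ => ?_
  rw [Complex.ofReal_expect]
  refine Finset.expect_congr rfl fun X _ => ?_
  unfold sgr sg
  push_cast
  congr 1
  · split_ifs <;> simp
  · split_ifs <;> simp

end core

/-- the bound in closed form -/
lemma nb_le {ν : ℝ} : ∀ (t e : ℕ) (x : ℝ), 0 ≤ x → x ≤ 1 → x ^ (2 ^ t) = ν →
    nb ν t e ≤ 2 ^ e * (t + 1) * x := by
  intro t
  induction t with
  | zero =>
    intro e x hx hx1 hxν
    simp only [pow_zero, pow_one] at hxν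
    unfold nb
    rw [hxν]
    simp
  | succ t ih =>
    intro e x hx hx1 hxν
    have h1 := ih (2 * e) (x ^ 2) (by positivity) (pow_le_one₀ hx hx1)
      (by rw [← pow_mul, ← hxν, pow_succ, mul_comm 2])
    have h2 : ν ≤ x := by
      rw [← hxν]
      calc x ^ 2 ^ (t + 1) ≤ x ^ 1 :=
            pow_le_pow_of_le_one hx hx1 Nat.one_le_two_pow
        _ = x := pow_one x
    show 2 ^ e * ν + Real.sqrt (nb ν t (2 * e)) ≤ _
    have h3 : Real.sqrt (nb ν t (2 * e)) ≤ 2 ^ e * (t + 1) * x := by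
      apply Real.sqrt_le_iff.2
      refine ⟨by positivity, h1.trans ?_⟩
      have h4 : (1 : ℝ) ≤ (t : ℝ) + 1 := by
        have : (0 : ℝ) ≤ t := Nat.cast_nonneg t
        linarith
      calc (2 : ℝ) ^ (2 * e) * (t + 1) * x ^ 2 = (2 ^ e) ^ 2 * x ^ 2 * ((t + 1) * 1) := by
            rw [← pow_mul, mul_comm e 2]; ring
        _ ≤ (2 ^ e) ^ 2 * x ^ 2 * ((t + 1) * (t + 1)) := by
            apply mul_le_mul_of_nonneg_left _ (by positivity)
            exact mul_le_mul_of_nonneg_left h4 (by positivity)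
        _ = (2 ^ e * (t + 1) * x) ^ 2 := by ring
    have h5 : (2 : ℝ) ^ e * ν ≤ 2 ^ e * x := mul_le_mul_of_nonneg_left h2 (by positivity)
    push_cast
    nlinarith [h3, h5]

end Pool.Agent.Run7.h284.DL
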