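import Pool.Agent.H994R2.JL.PDefs

/-!
# Predictors that are threshold gates of functions of few attributes

`DNF m`, `DNF.eval` are the definitions of the starting result ConstantDepthPredictors.
-/

namespace DNFPrediction

open Finset

/-- A predictor that gets `N` labelled examples, one further example without its label (the
example number `Fin.last N`) and `R` random bits, and has to guess the missing label.  It is one
threshold gate with any number of inputs.  An input is an arbitrary integer-valued function of the
`N + 1` examples, the `N` labels and the random bits, where the input `e` reads only the attributes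
in `reads e` of the examples (but all labels and all random bits).  Weights of the gate are part of
the inputs. -/
structure ThresholdPredictor (m N R : ℕ) where
  inputs : ℕ
  input : Fin inputs → (Fin (N + 1) → Fin m → Bool) → (Fin N → Bool) → (Fin R → Bool) → ℤ
  reads : Fin inputs → Finset (Fin m)
  input_reads : ∀ e x x' y u, (∀ i, ∀ j ∈ reads e, x i j = x' i j) →
    input e x y u = input e x' y u

namespace ThresholdPredictor

variable {m N R : ℕ}

/-- Every input reads at most `t` attributes. -/
def ReadsLE (P : ThresholdPredictor m N R) (t : ℕ) : Prop := ∀ e, (P.reads e).card ≤ t

/-- The inputs have less than `B` bits together: their absolute values sum to less than `2 ^ B`. -/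
def BitsLE (P : ThresholdPredictor m N R) (B : ℕ) : Prop :=
  ∀ x y u, ∑ e, |P.input e x y u| < 2 ^ B

/-- The guess: is the sum of the inputs nonnegative? -/
def guess (P : ThresholdPredictor m N R) (x : Fin (N + 1) → Fin m → Bool) (y : Fin N → Bool)
    (u : Fin R → Bool) : Bool :=
  decide (0 ≤ ∑ e, P.input e x y u)

/-- The probability, over `N + 1` uniform examples and uniform random bits, that the guess is
right when the target function is `f`: the first `N` examples are labelled by `f`. -/
noncomputable def success (P : ThresholdPredictor m N R) (f : (Fin m → Bool) → Bool) : ℝ :=
  ((univ.filter (fun p : (Fin (N + 1) → Fin m → Bool) × (Fin R → Bool) =>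
    P.guess p.1 (fun i => f (p.1 i.castSucc)) p.2 = f (p.1 (Fin.last N)))).card : ℝ) /
    2 ^ ((N + 1) * m + R)

end ThresholdPredictor

/-- A threshold gate with integer weights on top of finitely many threshold predictors. -/
structure DepthTwoPredictor (m N R : ℕ) where
  gates : ℕ
  gate : Fin gates → ThresholdPredictor m N R
  weight : Fin gates → ℤ
  bias : ℤ

namespace DepthTwoPredictor

variable {m N R : ℕ}

/-- The total weight of the top gate. -/
def total (P : DepthTwoPredictor m N R) : ℕ := P.bias.natAbs + ∑ g, (P.weight g).natAbs

/-- The guess of the top gate. -/
def guess (P : DepthTwoPredictor m N R) (x : Fin (N + 1) → Fin m → Bool) (y : Fin N → Bool)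
    (u : Fin R → Bool) : Bool :=
  decide (0 ≤ P.bias + ∑ g, if (P.gate g).guess x y u = true then P.weight g else 0)

/-- The probability, over `N + 1` uniform examples and uniform random bits, that the guess is
right when the target function is `f`: the first `N` examples are labelled by `f`. -/
noncomputable def success (P : DepthTwoPredictor m N R) (f : (Fin m → Bool) → Bool) : ℝ :=
  ((univ.filter (fun p : (Fin (N + 1) → Fin m → Bool) × (Fin R → Bool) =>
    P.guess p.1 (fun i => f (p.1 i.castSucc)) p.2 = f (p.1 (Fin.last N)))).card : ℝ) /
    2 ^ ((N + 1) * m + R)

end DepthTwoPredictor

end DNFPrediction
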