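import Pool.Agent.H994R2.JL.PDefs

/-!
# Predictors with few threshold gates or symmetric gates on top of constant-depth circuits

`Circuit`, `DNF m`, `DNF.eval` are the definitions of the starting result ConstantDepthPredictors.
-/

namespace DNFPrediction

open Finset DomAC0

/-- A predictor that gets `N` labelled examples, one further example without its label (the
example number `Fin.last N`) and `R` random bits, and has to guess the missing label.  It consists
of a Boolean circuit (NOT gates, unbounded fan-in AND and OR gates) and a function `top` of the
values of all its nodes.  The leaves of the circuit are arbitrary Boolean functions of the `N + 1`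
examples, the `N` labels and the random bits, where the leaf `e` reads only the attributes in
`reads e` of the examples (but all labels and all random bits). -/
structure NodePredictor (m N R : ℕ) where
  leaves : ℕ
  leaf : Fin leaves → (Fin (N + 1) → Fin m → Bool) → (Fin N → Bool) → (Fin R → Bool) → Bool
  reads : Fin leaves → Finset (Fin m)
  leaf_reads : ∀ e x x' y u, (∀ i, ∀ j ∈ reads e, x i j = x' i j) →
    leaf e x y u = leaf e x' y u
  circuit : Circuit (Fin leaves)
  top : (Fin leaves ⊕ Fin circuit.size → Bool) → Bool

namespace NodePredictor

variable {m N R : ℕ}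

/-- The number of nodes: leaves and gates. -/
def nodes (P : NodePredictor m N R) : ℕ := P.leaves + P.circuit.size

/-- Every leaf reads at most `c` attributes. -/
def ReadsLE (P : NodePredictor m N R) (c : ℕ) : Prop := ∀ e, (P.reads e).card ≤ c

/-- The guess for the label of the last example. -/
noncomputable def guess (P : NodePredictor m N R) (x : Fin (N + 1) → Fin m → Bool)
    (y : Fin N → Bool) (u : Fin R → Bool) : Bool :=
  P.top (P.circuit.nodeVal (fun e => P.leaf e x y u))

/-- `h` is a threshold gate with arbitrary real weights, applied to nodes of depth at most `d`. -/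
def IsThreshold (P : NodePredictor m N R) (d : ℕ)
    (h : (Fin P.leaves ⊕ Fin P.circuit.size → Bool) → Bool) : Prop :=
  ∃ (w : Fin P.leaves ⊕ Fin P.circuit.size → ℝ) (θ : ℝ),
    (∀ v, w v ≠ 0 → P.circuit.nodeDepth v ≤ d) ∧
    ∀ b, h b = true ↔ θ ≤ ∑ v, if b v = true then w v else 0

/-- `h` is a weighted symmetric gate, applied to nodes of depth at most `d`: an arbitrary function
of a sum with integer weights, the absolute values of the weights sum to at most `W`. -/
def IsSymmetric (P : NodePredictor m N R) (d W : ℕ)
    (h : (Fin P.leaves ⊕ Fin P.circuit.size → Bool) → Bool) : Prop :=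
  ∃ (w : Fin P.leaves ⊕ Fin P.circuit.size → ℤ) (φ : ℤ → Bool),
    (∀ v, w v ≠ 0 → P.circuit.nodeDepth v ≤ d) ∧ ∑ v, |w v| ≤ W ∧
    ∀ b, h b = φ (∑ v, if b v = true then w v else 0)

/-- The guess is an arbitrary Boolean function of `q` gates, each of them a threshold gate with
arbitrary real weights or a weighted symmetric gate of weight at most `W`, and the inputs of these
gates are nodes of depth at most `d`. -/
def TopLE (P : NodePredictor m N R) (d W q : ℕ) : Prop :=
  ∃ (h : Fin q → (Fin P.leaves ⊕ Fin P.circuit.size → Bool) → Bool) (f : (Fin q → Bool) → Bool),
    (∀ k, P.IsThreshold d (h k) ∨ P.IsSymmetric d W (h k)) ∧ ∀ b, P.top b = f (fun k => h k b)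

/-- The probability, over `N + 1` uniform examples and uniform random bits, that the guess is
right when the target function is `f`: the first `N` examples are labelled by `f`. -/
noncomputable def success (P : NodePredictor m N R) (f : (Fin m → Bool) → Bool) : ℝ :=
  ((univ.filter (fun p : (Fin (N + 1) → Fin m → Bool) × (Fin R → Bool) =>
    P.guess p.1 (fun i => f (p.1 i.castSucc)) p.2 = f (p.1 (Fin.last N)))).card : ℝ) /
    2 ^ ((N + 1) * m + R)

end NodePredictor

/-- A threshold gate with integer weights on top of finitely many predictors. -/
structure MajorityPredictor (m N R : ℕ) where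
  gates : ℕ
  gate : Fin gates → NodePredictor m N R
  weight : Fin gates → ℤ
  bias : ℤ

namespace MajorityPredictor

variable {m N R : ℕ}

/-- The total weight of the top gate. -/
def total (P : MajorityPredictor m N R) : ℕ := P.bias.natAbs + ∑ g, (P.weight g).natAbs

/-- The guess of the top gate. -/
noncomputable def guess (P : MajorityPredictor m N R) (x : Fin (N + 1) → Fin m → Bool)
    (y : Fin N → Bool) (u : Fin R → Bool) : Bool :=
  decide (0 ≤ P.bias + ∑ g, if (P.gate g).guess x y u = true then P.weight g else 0)

/-- The probability, over `N + 1` uniform examples and uniform random bits, that the guess is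
right when the target function is `f`: the first `N` examples are labelled by `f`. -/
noncomputable def success (P : MajorityPredictor m N R) (f : (Fin m → Bool) → Bool) : ℝ :=
  ((univ.filter (fun p : (Fin (N + 1) → Fin m → Bool) × (Fin R → Bool) =>
    P.guess p.1 (fun i => f (p.1 i.castSucc)) p.2 = f (p.1 (Fin.last N)))).card : ℝ) /
    2 ^ ((N + 1) * m + R)

end MajorityPredictor

end DNFPrediction
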