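import Pool.Agent.Run7.h284.DL.Defs
import Pool.Agent.Run7.h284.DL.Core
import Pool.Agent.H994R2.JL.Fin2

/-!
# The family of parities and the bounds for threshold predictors
-/

namespace Pool.Agent.Run7.h284.DL

open Finset DNFPrediction
open scoped BigOperators
open Pool.Agent.H994R2.JL (parT parDNF parDNF_eval parDNF_card parDNF_width)

lemma expR_abs_le {α : Type*} [Fintype α] (f : α → ℝ) (c : ℝ) (hc : 0 ≤ c)
    (hf : ∀ a, |f a| ≤ c) : |𝔼 a, f a| ≤ c := by
  refine (Finset.abs_expect_le _ _).trans ?_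
  rcases isEmpty_or_nonempty α with h | h
  · simpa using hc
  · exact Finset.expect_le Finset.univ_nonempty (fun x _ => hf x)

section gate

variable {m N R t : ℕ} {ι : Type} [Fintype ι] [Nonempty ι]

lemma gate_bound {ν : ℝ} (hν : 0 ≤ ν) (blk : Fin m → Fin (t + 1))
    (hid : Fin (t + 1) → ι → Finset (Fin m)) (hb : ∀ i a, ∀ j ∈ hid i a, blk j = i)
    (hsp : ∀ i (A : Finset (Fin m)), 𝔼 a, (if hid i a = A then (1 : ℝ) else 0) ≤ ν)
    (P : ThresholdPredictor m N R) (hP : P.ReadsLE t) (B : ℕ) (hB : P.BitsLE B)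
    (u : Fin R → Bool) :
    |𝔼 s : Fin (t + 1) → ι, 𝔼 X : Fin (N + 1) → Fin m → Bool,
      (if P.guess X (fun r => parT (hset hid s) (X r.castSucc)) u = true then (1 : ℝ) else 0) *
        sgr (parT (hset hid s) (X (Fin.last N)))| ≤ (B * (t + 2) ^ 2 + 1) * nb ν t 1 := by
  classical
  -- a block that is not read
  have hbo : ∀ e : Fin P.inputs, ∃ i : Fin (t + 1), ∀ j ∈ P.reads e, blk j ≠ i := by
    intro e
    have h1 : ((P.reads e).image blk).card < (univ : Finset (Fin (t + 1))).card := by
      rw [Finset.card_univ, Fintype.card_fin]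
      exact Nat.lt_succ_of_le (Finset.card_image_le.trans (hP e))
    obtain ⟨i, _, hi⟩ := Finset.exists_mem_notMem_of_card_lt_card h1
    exact ⟨i, fun j hj hji => hi (hji ▸ Finset.mem_image_of_mem blk hj)⟩
  choose bo hbo using hbo
  have h := coreR (N := N) hν blk hid hb hsp
    (fun i y X => ∑ e ∈ univ.filter (fun e => bo e = i), P.input e X y u) (by
      intro i y X X' hX
      refine Finset.sum_congr rfl fun e he => ?_
      apply P.input_reads
      intro r j hj
      apply hX
      rw [← (Finset.mem_filter.1 he).2]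
      exact hbo e j hj) B (by
      intro i y X
      refine lt_of_le_of_lt (Finset.abs_sum_le_sum_abs _ _) (lt_of_le_of_lt ?_ (hB X y u))
      exact Finset.sum_le_sum_of_subset_of_nonneg (Finset.filter_subset _ _)
        (fun _ _ _ => abs_nonneg _))
  refine le_trans (le_of_eq ?_) h
  congr 1
  refine Finset.expect_congr rfl fun s _ => Finset.expect_congr rfl fun X _ => ?_
  congr 1
  have h2 : ∑ i, ∑ e ∈ univ.filter (fun e => bo e = i),
      P.input e X (fun r => parT (hset hid s) (X r.castSucc)) u =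
      ∑ e, P.input e X (fun r => parT (hset hid s) (X r.castSucc)) u :=
    Finset.sum_fiberwise _ _ _
  rw [h2]
  unfold ThresholdPredictor.guess
  simp only [decide_eq_true_eq]

/-- the label alone -/
lemma label_bound {ν : ℝ} (hν : 0 ≤ ν) (blk : Fin m → Fin (t + 1))
    (hid : Fin (t + 1) → ι → Finset (Fin m)) (hb : ∀ i a, ∀ j ∈ hid i a, blk j = i)
    (hsp : ∀ i (A : Finset (Fin m)), 𝔼 a, (if hid i a = A then (1 : ℝ) else 0) ≤ ν) (B : ℕ) :
    |𝔼 s : Fin (t + 1) → ι, 𝔼 X : Fin (N + 1) → Fin m → Bool,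
        sgr (parT (hset hid s) (X (Fin.last N)))| ≤ (B * (t + 2) ^ 2 + 1) * nb ν t 1 := by
  have h := coreR (N := N) hν blk hid hb hsp (fun _ _ _ => 0) (fun _ _ _ _ _ => rfl) B (by simp)
  simpa using h

/-- the counts as averages -/
lemma count_eq (Q : (Fin (N + 1) → Fin m → Bool) → (Fin R → Bool) → Prop)
    [DecidablePred (fun p : (Fin (N + 1) → Fin m → Bool) × (Fin R → Bool) => Q p.1 p.2)]
    [∀ X u, Decidable (Q X u)] :
    ((univ.filter (fun p : (Fin (N + 1) → Fin m → Bool) × (Fin R → Bool) => Q p.1 p.2)).card : ℝ) /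
    2 ^ ((N + 1) * m + R) =
      𝔼 u : Fin R → Bool, 𝔼 X : Fin (N + 1) → Fin m → Bool, (if Q X u then (1 : ℝ) else 0) := by
  rw [exp_comm, ← exp_prod (fun p : (Fin (N + 1) → Fin m → Bool) × (Fin R → Bool) =>
    (if Q p.1 p.2 then (1 : ℝ) else 0)), Fintype.expect_eq_sum_div_card]
  congr 1
  · rw [Finset.sum_boole]
  · rw [Fintype.card_prod, Fintype.card_fun, Fintype.card_fun, Fintype.card_fun, Fintype.card_fin,
      Fintype.card_fin, Fintype.card_fin, Fintype.card_bool]
    push_cast
    rw [pow_add, ← pow_mul, mul_comm m]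

/-- one threshold gate -/
theorem one_gate {ν : ℝ} (hν : 0 ≤ ν) (blk : Fin m → Fin (t + 1))
    (hid : Fin (t + 1) → ι → Finset (Fin m)) (hb : ∀ i a, ∀ j ∈ hid i a, blk j = i)
    (hsp : ∀ i (A : Finset (Fin m)), 𝔼 a, (if hid i a = A then (1 : ℝ) else 0) ≤ ν)
    (P : ThresholdPredictor m N R) (hP : P.ReadsLE t) (B : ℕ) (hB : P.BitsLE B) :
    |(𝔼 s : Fin (t + 1) → ι, P.success (parT (hset hid s))) - 1 / 2| ≤
      3 / 2 * ((B * (t + 2) ^ 2 + 1) * nb ν t 1) := by
  set δ := (B * (t + 2) ^ 2 + 1) * nb ν t 1 with hδ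
  have hδ0 : 0 ≤ δ := by
    have := nb_nonneg hν t 1
    positivity
  have h1 : ∀ s : Fin (t + 1) → ι, P.success (parT (hset hid s)) =
      𝔼 u : Fin R → Bool, 𝔼 X : Fin (N + 1) → Fin m → Bool,
        (1 / 2 + (1 / 2) * sgr (parT (hset hid s) (X (Fin.last N))) -
          (if P.guess X (fun r => parT (hset hid s) (X r.castSucc)) u = true then (1 : ℝ) else 0) *
            sgr (parT (hset hid s) (X (Fin.last N)))) := by
    intro s
    unfold ThresholdPredictor.success
    rw [count_eq (fun X u => P.guess X (fun i => parT (hset hid s) (X i.castSucc)) u =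
      parT (hset hid s) (X (Fin.last N)))]
    refine Finset.expect_congr rfl fun u _ => Finset.expect_congr rfl fun X _ => ?_
    unfold sgr
    cases P.guess X (fun i => parT (hset hid s) (X i.castSucc)) u <;>
      cases parT (hset hid s) (X (Fin.last N)) <;> norm_num
  simp only [h1]
  rw [exp_comm]
  have h2 : 𝔼 u : Fin R → Bool, 𝔼 s : Fin (t + 1) → ι, 𝔼 X : Fin (N + 1) → Fin m → Bool,
        (1 / 2 + (1 / 2) * sgr (parT (hset hid s) (X (Fin.last N))) -
          (if P.guess X (fun r => parT (hset hid s) (X r.castSucc)) u = true then (1 : ℝ) else 0) *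
            sgr (parT (hset hid s) (X (Fin.last N)))) - 1 / 2 =
      𝔼 u : Fin R → Bool, ((1 / 2) * (𝔼 s : Fin (t + 1) → ι, 𝔼 X : Fin (N + 1) → Fin m → Bool,
          sgr (parT (hset hid s) (X (Fin.last N)))) -
        𝔼 s : Fin (t + 1) → ι, 𝔼 X : Fin (N + 1) → Fin m → Bool,
          (if P.guess X (fun r => parT (hset hid s) (X r.castSucc)) u = true then (1 : ℝ) else 0) *
            sgr (parT (hset hid s) (X (Fin.last N)))) := by
    simp only [Finset.expect_sub_distrib, Finset.expect_add_distrib, Fintype.expect_const,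
      ← Finset.mul_expect]
    ring
  rw [h2]
  refine expR_abs_le _ _ (by positivity) fun u => ?_
  have h3 := gate_bound hν blk hid hb hsp P hP B hB u
  have h4 := label_bound (N := N) hν blk hid hb hsp B
  rw [← hδ] at h3 h4
  refine (abs_sub _ _).trans ?_
  rw [abs_mul, abs_of_pos (by norm_num : (0 : ℝ) < 1 / 2)]
  linarith

/-- threshold gates of threshold gates -/
theorem two_gates {ν : ℝ} (hν : 0 ≤ ν) (blk : Fin m → Fin (t + 1))
    (hid : Fin (t + 1) → ι → Finset (Fin m)) (hb : ∀ i a, ∀ j ∈ hid i a, blk j = i)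
    (hsp : ∀ i (A : Finset (Fin m)), 𝔼 a, (if hid i a = A then (1 : ℝ) else 0) ≤ ν)
    (P : DepthTwoPredictor m N R) (hP : ∀ g, (P.gate g).ReadsLE t) (B : ℕ)
    (hB : ∀ g, (P.gate g).BitsLE B) :
    (𝔼 s : Fin (t + 1) → ι, P.success (parT (hset hid s))) ≤
      1 - 1 / (2 * P.total + 2) + (B * (t + 2) ^ 2 + 1) * nb ν t 1 := by
  set δ := (B * (t + 2) ^ 2 + 1) * nb ν t 1 with hδ
  have hδ0 : 0 ≤ δ := by
    have := nb_nonneg hν t 1
    positivity
  set W : ℝ := (P.total : ℝ) with hW
  have hW0 : 0 ≤ W := Nat.cast_nonneg _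
  have hWeq : W = |(P.bias : ℝ)| + ∑ g, |(P.weight g : ℝ)| := by
    rw [hW]
    unfold DepthTwoPredictor.total
    push_cast
    simp only [Nat.cast_natAbs, Int.cast_abs]
  -- pointwise
  have hpt : ∀ (s : Fin (t + 1) → ι) (u : Fin R → Bool) (X : Fin (N + 1) → Fin m → Bool),
      (if P.guess X (fun i => parT (hset hid s) (X i.castSucc)) u =
        parT (hset hid s) (X (Fin.last N)) then (1 : ℝ) else 0) * (2 * W + 2) ≤
      (2 * W + 1) - ((2 * P.bias + 1) * sgr (parT (hset hid s) (X (Fin.last N))) +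
        ∑ g, (2 * (P.weight g : ℝ)) *
          ((if (P.gate g).guess X (fun r => parT (hset hid s) (X r.castSucc)) u = true
            then (1 : ℝ) else 0) * sgr (parT (hset hid s) (X (Fin.last N))))) := by
    intro s u X
    set y : Fin N → Bool := fun r => parT (hset hid s) (X r.castSucc) with hy
    set l := parT (hset hid s) (X (Fin.last N)) with hl
    set Vz : ℤ := P.bias + ∑ g, if (P.gate g).guess X y u = true then P.weight g else 0 with hVz
    have hsum : (2 * (P.bias : ℝ) + 1) * sgr l + ∑ g, (2 * (P.weight g : ℝ)) *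
          ((if (P.gate g).guess X y u = true then (1 : ℝ) else 0) * sgr l) =
        (2 * (Vz : ℝ) + 1) * sgr l := by
      rw [hVz]
      push_cast
      have : ∑ g, (2 * (P.weight g : ℝ)) *
          ((if (P.gate g).guess X y u = true then (1 : ℝ) else 0) * sgr l) =
          (2 * ∑ g, (if (P.gate g).guess X y u = true then (P.weight g : ℝ) else 0)) * sgr l := by
        rw [Finset.mul_sum, Finset.sum_mul]
        refine Finset.sum_congr rfl fun g _ => ?_
        split_ifs <;> ring
      rw [this]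
      ring
    rw [hsum]
    have hVabs : |(Vz : ℝ)| ≤ W := by
      rw [hVz, hWeq]
      push_cast
      refine (abs_add_le _ _).trans (add_le_add (le_refl _) ?_)
      refine (Finset.abs_sum_le_sum_abs _ _).trans (Finset.sum_le_sum fun g _ => ?_)
      split_ifs
      · exact le_refl _
      · simp
    have hV1 := (abs_le.1 hVabs).1
    have hV2 := (abs_le.1 hVabs).2
    have hg : P.guess X y u = decide (0 ≤ Vz) := rfl
    rw [hg]
    by_cases hz : 0 ≤ Vz
    · have hz' : (0 : ℝ) ≤ Vz := by exact_mod_cast hz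
      rw [decide_eq_true hz]
      unfold sgr
      cases l
      · simp; linarith
      · simp; linarith
    · have hz' : (Vz : ℝ) ≤ -1 := by
        have : Vz ≤ -1 := by omega
        exact_mod_cast this
      rw [decide_eq_false hz]
      unfold sgr
      cases l
      · simp; linarith
      · simp; linarith
  have h1 : ∀ s : Fin (t + 1) → ι, P.success (parT (hset hid s)) =
      𝔼 u : Fin R → Bool, 𝔼 X : Fin (N + 1) → Fin m → Bool,
        (if P.guess X (fun i => parT (hset hid s) (X i.castSucc)) u =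
          parT (hset hid s) (X (Fin.last N)) then (1 : ℝ) else 0) := by
    intro s
    unfold DepthTwoPredictor.success
    exact count_eq (fun X u => P.guess X (fun i => parT (hset hid s) (X i.castSucc)) u =
      parT (hset hid s) (X (Fin.last N)))
  simp only [h1]
  rw [exp_comm]
  have hkey : ∀ u : Fin R → Bool, (𝔼 s : Fin (t + 1) → ι, 𝔼 X : Fin (N + 1) → Fin m → Bool,
        (if P.guess X (fun i => parT (hset hid s) (X i.castSucc)) u =
          parT (hset hid s) (X (Fin.last N)) then (1 : ℝ) else 0)) * (2 * W + 2) ≤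
      (2 * W + 1) + (2 * W + 1) * δ := by
    intro u
    simp only [Finset.expect_mul]
    refine (Finset.expect_le_expect fun s _ => Finset.expect_le_expect fun X _ =>
      hpt s u X).trans ?_
    simp only [Finset.expect_sub_distrib, Finset.expect_add_distrib, Fintype.expect_const,
      ← Finset.mul_expect, Finset.expect_sum_comm]
    have h4 := label_bound (N := N) hν blk hid hb hsp B
    rw [← hδ] at h4
    have h5 : ∀ g, -((2 * (P.weight g : ℝ)) * (𝔼 s : Fin (t + 1) → ι,
        𝔼 X : Fin (N + 1) → Fin m → Bool,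
        (if (P.gate g).guess X (fun r => parT (hset hid s) (X r.castSucc)) u = true
          then (1 : ℝ) else 0) * sgr (parT (hset hid s) (X (Fin.last N))))) ≤
        2 * |(P.weight g : ℝ)| * δ := by
      intro g
      have h3 := gate_bound hν blk hid hb hsp (P.gate g) (hP g) B (hB g) u
      rw [← hδ] at h3
      refine (neg_le_abs _).trans ?_
      rw [abs_mul, abs_mul, abs_two]
      exact mul_le_mul_of_nonneg_left h3 (by positivity)
    have h6 : -((2 * (P.bias : ℝ) + 1) * (𝔼 s : Fin (t + 1) → ι,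
        𝔼 X : Fin (N + 1) → Fin m → Bool, sgr (parT (hset hid s) (X (Fin.last N))))) ≤
        (2 * |(P.bias : ℝ)| + 1) * δ := by
      refine (neg_le_abs _).trans ?_
      rw [abs_mul]
      refine mul_le_mul ?_ h4 (abs_nonneg _) (by positivity)
      refine (abs_add_le _ _).trans ?_
      rw [abs_mul, abs_two, abs_one]
    have h7 := Finset.sum_le_sum (s := univ) (fun g _ => h5 g)
    rw [Finset.sum_neg_distrib] at h7
    have h8 : ∑ g, 2 * |(P.weight g : ℝ)| * δ = 2 * (∑ g, |(P.weight g : ℝ)|) * δ := by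
      rw [Finset.mul_sum, Finset.sum_mul]
    rw [h8] at h7
    have h9 : (2 * W + 1) * δ = (2 * |(P.bias : ℝ)| + 1) * δ +
        2 * (∑ g, |(P.weight g : ℝ)|) * δ := by
      rw [hWeq]; ring
    rw [h9]
    linarith
  have hW2 : (0 : ℝ) < 2 * W + 2 := by linarith
  refine Finset.expect_le Finset.univ_nonempty fun u _ => ?_
  have h10 := hkey u
  rw [← le_div_iff₀ hW2] at h10
  refine h10.trans ?_
  rw [div_le_iff₀ hW2]
  have : (1 - 1 / (2 * W + 2) + δ) * (2 * W + 2) = (2 * W + 1) + (2 * W + 2) * δ := by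
    field_simp
    ring
  rw [this]
  nlinarith

end gate

section family

variable {m n t : ℕ}

/-- the block of a column -/
def blkOf (n t : ℕ) (j : Fin m) : Fin (t + 1) := ⟨min (j / n) t, by omega⟩

/-- the columns of a block -/
def colOf (h : (t + 1) * n ≤ m) (i : Fin (t + 1)) (v : Fin n) : Fin m :=
  ⟨i * n + v, by
    have h1 : (i : ℕ) * n + n ≤ (t + 1) * n := by
      have : (i : ℕ) + 1 ≤ t + 1 := i.2
      calc (i : ℕ) * n + n = (i + 1) * n := by ring
        _ ≤ (t + 1) * n := Nat.mul_le_mul_right _ this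
    have := v.2
    omega⟩

lemma blk_col (h : (t + 1) * n ≤ m) (i : Fin (t + 1)) (v : Fin n) :
    blkOf n t (colOf h i v) = i := by
  unfold blkOf colOf
  apply Fin.ext
  simp only
  have hn : 0 < n := lt_of_le_of_lt (Nat.zero_le _) v.2
  rw [Nat.add_comm, Nat.add_mul_div_right _ _ hn, Nat.div_eq_of_lt v.2, zero_add]
  have := i.2
  omega

lemma col_inj (h : (t + 1) * n ≤ m) (i : Fin (t + 1)) : Function.Injective (colOf h i) := by
  intro v v' hv
  unfold colOf at hv
  have := congrArg Fin.val hv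
  simp only at this
  exact Fin.ext (by omega)

/-- the `k`-element subsets -/
abbrev Idx (n k : ℕ) := {a : Finset (Fin n) // a.card = k}

/-- the hidden sets -/
def hidf (h : (t + 1) * n ≤ m) {k : ℕ} (i : Fin (t + 1)) (a : Idx n k) : Finset (Fin m) :=
  a.1.map ⟨colOf h i, col_inj h i⟩

lemma hidf_inj (h : (t + 1) * n ≤ m) {k : ℕ} (i : Fin (t + 1)) :
    Function.Injective (hidf h i : Idx n k → Finset (Fin m)) := by
  intro a b hab
  exact Subtype.ext (Finset.map_injective _ hab)

lemma hidf_blk (h : (t + 1) * n ≤ m) {k : ℕ} (i : Fin (t + 1)) (a : Idx n k) :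
    ∀ j ∈ hidf h i a, blkOf n t j = i := by
  intro j hj
  unfold hidf at hj
  rw [Finset.mem_map] at hj
  obtain ⟨v, _, rfl⟩ := hj
  exact blk_col h i v

lemma hidf_card (h : (t + 1) * n ≤ m) {k : ℕ} (i : Fin (t + 1)) (a : Idx n k) :
    (hidf h i a).card = k := by
  unfold hidf
  rw [Finset.card_map, a.2]

lemma spread_inj {ι A : Type*} [Fintype ι] [DecidableEq A] (f : ι → A) (hf : Function.Injective f)
    (a : A) : 𝔼 x, (if f x = a then (1 : ℝ) else 0) ≤ 1 / Fintype.card ι := by
  rw [Fintype.expect_eq_sum_div_card]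
  apply div_le_div_of_nonneg_right _ (Nat.cast_nonneg _)
  rw [Finset.sum_boole]
  have : (univ.filter (fun x => f x = a)).card ≤ 1 := by
    rw [Finset.card_le_one]
    intro x hx y hy
    rw [Finset.mem_filter] at hx hy
    exact hf (hx.2.trans hy.2.symm)
  exact_mod_cast this

lemma hidf_spread (h : (t + 1) * n ≤ m) {k : ℕ} (i : Fin (t + 1)) (A : Finset (Fin m)) :
    𝔼 a : Idx n k, (if hidf h i a = A then (1 : ℝ) else 0) ≤ 1 / (n.choose k : ℝ) := by
  refine (spread_inj _ (hidf_inj h i) A).trans (le_of_eq ?_)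
  rw [Fintype.card_finset_len, Fintype.card_fin]

lemma hset_card (h : (t + 1) * n ≤ m) {k : ℕ} (s : Fin (t + 1) → Idx n k) :
    (hset (hidf h) s).card = (t + 1) * k := by
  unfold hset
  rw [Finset.card_biUnion]
  · simp only [hidf_card, Finset.sum_const, Finset.card_univ, Fintype.card_fin, smul_eq_mul]
  · intro i _ i' _ hii
    rw [Function.onFun, Finset.disjoint_left]
    intro j hj hj'
    exact hii ((hidf_blk h i _ j hj).symm.trans (hidf_blk h i' _ j hj'))

instance idx_nonempty {n k : ℕ} [Fact (k ≤ n)] : Nonempty (Idx n k) := by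
  obtain ⟨a, _, ha⟩ := Finset.exists_subset_card_eq (s := (univ : Finset (Fin n))) (n := k)
    (by rw [Finset.card_univ, Fintype.card_fin]; exact Fact.out)
  exact ⟨⟨a, ha⟩⟩

end family

end Pool.Agent.Run7.h284.DL
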