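import Mathlib

/-!
# Integer weights for threshold gates

Every threshold gate with `n` Boolean inputs and real weights has integer weights with at most `n ^ 2 + O(n)` bits
(Muroga).
-/

namespace Pool.Agent.Run7.h284.DL

open Finset
open scoped BigOperators

section vertex

variable {κ R : Type} [Fintype κ] [DecidableEq κ] [Fintype R]

/-- the tight rows -/
def tight (a : R → κ → ℝ) (z : κ → ℝ) : Set (κ → ℝ) := a '' {r | a r ⬝ᵥ z = 1}

lemma move (a : R → κ → ℝ) (hspan : Submodule.span ℝ (Set.range a) = ⊤) (z : κ → ℝ)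
    (hz : ∀ r, 1 ≤ a r ⬝ᵥ z) (hlt : Submodule.span ℝ (tight a z) < ⊤) :
    ∃ z' : κ → ℝ, (∀ r, 1 ≤ a r ⬝ᵥ z') ∧
      Submodule.span ℝ (tight a z) < Submodule.span ℝ (tight a z') := by
  obtain ⟨φ0, hφ0, hker0⟩ := Submodule.exists_le_ker_of_lt_top _ hlt
  obtain ⟨r0, hr0⟩ : ∃ r, φ0 (a r) ≠ 0 := by
    by_contra hcon
    push Not at hcon
    apply hφ0
    have h1 : Submodule.span ℝ (Set.range a) ≤ LinearMap.ker φ0 := by
      rw [Submodule.span_le]
      rintro _ ⟨r, rfl⟩
      exact hcon r
    rw [hspan, top_le_iff] at h1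
    exact LinearMap.ker_eq_top.1 h1
  obtain ⟨φ, hker, r1, hr1⟩ : ∃ φ : (κ → ℝ) →ₗ[ℝ] ℝ,
      Submodule.span ℝ (tight a z) ≤ LinearMap.ker φ ∧ ∃ r, φ (a r) < 0 := by
    rcases lt_or_gt_of_ne hr0 with h | h
    · exact ⟨φ0, hker0, r0, h⟩
    · refine ⟨-φ0, ?_, r0, by simpa using h⟩
      intro x hx
      have := hker0 hx
      simp only [LinearMap.mem_ker, LinearMap.neg_apply, neg_eq_zero] at this ⊢
      exact this
  set v : κ → ℝ := fun i => φ (Pi.single i 1) with hv
  have hφv : ∀ x : κ → ℝ, φ x = x ⬝ᵥ v := by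
    intro x
    conv_lhs => rw [pi_eq_sum_univ' x]
    rw [map_sum]
    unfold dotProduct
    refine Finset.sum_congr rfl fun i _ => ?_
    rw [map_smul, smul_eq_mul]
  have htight : ∀ r, a r ⬝ᵥ z = 1 → φ (a r) = 0 := by
    intro r hr
    exact hker (Submodule.subset_span ⟨r, hr, rfl⟩)
  obtain ⟨rs, hrs, hmin⟩ := Finset.exists_min_image (univ.filter (fun r => φ (a r) < 0))
    (fun r => (a r ⬝ᵥ z - 1) / (-(φ (a r)))) ⟨r1, by simpa using hr1⟩
  rw [Finset.mem_filter] at hrs
  set lam := (a rs ⬝ᵥ z - 1) / (-(φ (a rs))) with hlam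
  have hneg : 0 < -(φ (a rs)) := by linarith [hrs.2]
  have hlam0 : 0 ≤ lam := div_nonneg (by linarith [hz rs]) hneg.le
  have hval : ∀ r, a r ⬝ᵥ (z + lam • v) = a r ⬝ᵥ z + lam * φ (a r) := by
    intro r
    rw [dotProduct_add, dotProduct_smul, hφv, smul_eq_mul]
  refine ⟨z + lam • v, ?_, ?_⟩
  · intro r
    rw [hval]
    rcases lt_or_ge (φ (a r)) 0 with h | h
    · have h1 := hmin r (by simpa using h)
      have h2 : 0 < -(φ (a r)) := by linarith
      rw [le_div_iff₀ h2] at h1
      linarith
    · have := mul_nonneg hlam0 h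
      linarith [hz r]
  · have hle : Submodule.span ℝ (tight a z) ≤ Submodule.span ℝ (tight a (z + lam • v)) := by
      apply Submodule.span_mono
      rintro _ ⟨r, hr, rfl⟩
      refine ⟨r, ?_, rfl⟩
      show a r ⬝ᵥ (z + lam • v) = 1
      rw [hval, htight r hr, mul_zero, add_zero]
      exact hr
    refine lt_of_le_of_ne hle fun heq => ?_
    have h1 : a rs ∈ Submodule.span ℝ (tight a (z + lam • v)) := by
      apply Submodule.subset_span
      refine ⟨rs, ?_, rfl⟩
      show a rs ⬝ᵥ (z + lam • v) = 1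
      have hne : φ (a rs) ≠ 0 := hrs.2.ne
      rw [hval, hlam]
      field_simp
      ring
    rw [← heq] at h1
    have h2 : φ (a rs) = 0 := hker h1
    linarith [hrs.2]

lemma exists_vertex (a : R → κ → ℝ) (hspan : Submodule.span ℝ (Set.range a) = ⊤) (z : κ → ℝ)
    (hz : ∀ r, 1 ≤ a r ⬝ᵥ z) :
    ∃ z' : κ → ℝ, (∀ r, 1 ≤ a r ⬝ᵥ z') ∧ Submodule.span ℝ (tight a z') = ⊤ := by
  have key : ∀ j : ℕ, ∃ z' : κ → ℝ, (∀ r, 1 ≤ a r ⬝ᵥ z') ∧
      (Submodule.span ℝ (tight a z') = ⊤ ∨
        j ≤ Module.finrank ℝ (Submodule.span ℝ (tight a z'))) := by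
    intro j
    induction j with
    | zero => exact ⟨z, hz, Or.inr (Nat.zero_le _)⟩
    | succ j ih =>
      obtain ⟨z', hz', h | h⟩ := ih
      · exact ⟨z', hz', Or.inl h⟩
      · by_cases htop : Submodule.span ℝ (tight a z') = ⊤
        · exact ⟨z', hz', Or.inl htop⟩
        · obtain ⟨z2, hz2, hlt⟩ := move a hspan z' hz' (lt_top_iff_ne_top.2 htop)
          refine ⟨z2, hz2, Or.inr ?_⟩
          have := Submodule.finrank_lt_finrank_of_lt hlt
          omega
  obtain ⟨z', hz', h | h⟩ := key (Fintype.card κ + 1)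
  · exact ⟨z', hz', h⟩
  · have h1 := Submodule.finrank_le (Submodule.span ℝ (tight a z'))
    rw [Module.finrank_fintype_fun_eq_card] at h1
    omega

/-- integer solutions of bounded size -/
lemma int_solution (a : R → κ → ℤ) (ha : ∀ r i, |a r i| ≤ 1)
    (hspan : Submodule.span ℝ (Set.range (fun r i => (a r i : ℝ))) = ⊤) (z : κ → ℝ)
    (hz : ∀ r, 1 ≤ (fun i => (a r i : ℝ)) ⬝ᵥ z) :
    ∃ z' : κ → ℤ, (∀ r, 1 ≤ a r ⬝ᵥ z') ∧
      ∀ i, |z' i| ≤ Fintype.card κ * (Fintype.card κ).factorial := by
  set aR : R → κ → ℝ := fun r i => (a r i : ℝ) with haR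
  obtain ⟨y, hy, hytop⟩ := exists_vertex aR hspan z hz
  -- a basis of tight rows
  obtain ⟨ι, b, hbinj, hbspan, hbli⟩ := exists_linearIndependent' ℝ
    (fun r : {r // aR r ⬝ᵥ y = 1} => aR r.1)
  have hspan2 : Submodule.span ℝ (Set.range ((fun r : {r // aR r ⬝ᵥ y = 1} => aR r.1) ∘ b)) = ⊤ := by
    rw [hbspan, ← hytop]
    congr 1
    ext x
    constructor
    · rintro ⟨r, rfl⟩
      exact ⟨r.1, r.2, rfl⟩
    · rintro ⟨r, hr, rfl⟩
      exact ⟨⟨r, hr⟩, rfl⟩
  let B := Module.Basis.mk hbli (le_of_eq hspan2.symm)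
  have : Finite ι := Module.Finite.finite_basis B
  have : Fintype ι := Fintype.ofFinite ι
  have hcard : Fintype.card κ = Fintype.card ι := by
    rw [← Module.finrank_eq_card_basis B, Module.finrank_fintype_fun_eq_card]
  let e : κ ≃ ι := Fintype.equivOfCardEq hcard
  let M : Matrix κ κ ℤ := Matrix.of fun i => a (b (e i)).1
  have hMR : LinearIndependent ℝ (M.map (Int.cast : ℤ → ℝ)).row := by
    have h1 : (M.map (Int.cast : ℤ → ℝ)).row = ((fun r : {r // aR r ⬝ᵥ y = 1} => aR r.1) ∘ b) ∘ e := by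
      funext i j
      rfl
    rw [h1]
    exact hbli.comp e e.injective
  have hdetR : (M.map (Int.cast : ℤ → ℝ)).det ≠ 0 := by
    rw [Matrix.linearIndependent_rows_iff_isUnit, Matrix.isUnit_iff_isUnit_det] at hMR
    exact hMR.ne_zero
  have hdet : M.det ≠ 0 := by
    intro h0
    apply hdetR
    have h1 : (M.map (Int.cast : ℤ → ℝ)).det = ((M.det : ℤ) : ℝ) := by
      rw [Int.cast_det]
    rw [h1, h0, Int.cast_zero]
  -- the solution
  have hMy : (M.map (Int.cast : ℤ → ℝ)).mulVec y = fun _ => 1 := by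
    funext i
    exact (b (e i)).2
  set u : κ → ℤ := M.adjugate.mulVec (fun _ => 1) with hu
  have huR : ∀ i, (u i : ℝ) = (M.det : ℝ) * y i := by
    intro i
    have h1 : (M.map (Int.cast : ℤ → ℝ)).adjugate.mulVec ((M.map (Int.cast : ℤ → ℝ)).mulVec y) =
        (M.map (Int.cast : ℤ → ℝ)).det • y := by
      rw [Matrix.mulVec_mulVec, Matrix.adjugate_mul, Matrix.smul_mulVec, Matrix.one_mulVec]
    rw [hMy] at h1
    have h2 := congrFun h1 i
    have h3 : (M.map (Int.cast : ℤ → ℝ)).det = ((M.det : ℤ) : ℝ) := by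
      rw [Int.cast_det]
    rw [h3] at h2
    have h4 : (M.map (Int.cast : ℤ → ℝ)).adjugate = M.adjugate.map (Int.cast : ℤ → ℝ) := by
      have := (Int.castRingHom ℝ).map_adjugate M
      simpa using this.symm
    rw [h4] at h2
    rw [Pi.smul_apply, smul_eq_mul] at h2
    rw [← h2, hu]
    unfold Matrix.mulVec dotProduct
    push_cast
    rfl
  obtain ⟨D, hD⟩ : ∃ D : ℤ, D = M.det := ⟨_, rfl⟩
  rw [← hD] at hdet huR
  refine ⟨fun i => D.sign * u i, ?_, ?_⟩
  · intro r
    have h1 : ((a r ⬝ᵥ (fun i => D.sign * u i) : ℤ) : ℝ) = |(D : ℝ)| * (aR r ⬝ᵥ y) := by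
      unfold dotProduct
      push_cast
      rw [Finset.mul_sum]
      refine Finset.sum_congr rfl fun i _ => ?_
      rw [huR]
      have h2 : ((D.sign : ℤ) : ℝ) * (D : ℝ) = |(D : ℝ)| := by
        rw [← Int.cast_mul, Int.sign_mul_self, Int.natCast_natAbs, Int.cast_abs]
      rw [← h2]
      ring
    have h2 : (1 : ℝ) ≤ |(D : ℝ)| := by
      have := Int.one_le_abs hdet
      rw [← Int.cast_abs]
      exact_mod_cast this
    have h3 : (1 : ℝ) ≤ ((a r ⬝ᵥ (fun i => D.sign * u i) : ℤ) : ℝ) := by
      rw [h1]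
      have := hy r
      nlinarith
    exact_mod_cast h3
  · intro i
    rw [abs_mul]
    have h1 : |D.sign| ≤ 1 := by
      rcases lt_trichotomy D 0 with h | h | h
      · simp [Int.sign_eq_neg_one_of_neg h]
      · exact absurd h hdet
      · simp [Int.sign_eq_one_of_pos h]
    refine (mul_le_of_le_one_left (abs_nonneg _) h1).trans ?_
    rw [hu]
    unfold Matrix.mulVec dotProduct
    refine (Finset.abs_sum_le_sum_abs _ _).trans ?_
    have h2 : ∀ j ∈ (univ : Finset κ), |M.adjugate i j * 1| ≤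
        ((Fintype.card κ).factorial : ℤ) := by
      intro j _
      rw [mul_one, Matrix.adjugate_apply]
      have h3 := Matrix.det_le (A := M.updateRow j (Pi.single i 1))
        (abv := (AbsoluteValue.abs : AbsoluteValue ℤ ℤ)) (x := 1) (by
          intro i' j'
          by_cases h : i' = j
          · subst h
            rw [Matrix.updateRow_self]
            by_cases h4 : j' = i
            · subst h4; simp
            · simp [Pi.single_eq_of_ne h4]
          · rw [Matrix.updateRow_ne h]
            exact ha _ _)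
      simpa using h3
    refine (Finset.sum_le_card_nsmul _ _ _ h2).trans (le_of_eq ?_)
    rw [Finset.card_univ, nsmul_eq_mul]

end vertex

section gate

variable {V : Type} [Fintype V] [DecidableEq V]

/-- the rows of the system of a threshold gate -/
def grow (σ : (V → Bool) → ℤ) (b : V → Bool) : Option V → ℤ
  | none => -σ b
  | some v => if b v then σ b else 0

omit [DecidableEq V] in
lemma grow_dot (σ : (V → Bool) → ℤ) (b : V → Bool) (z : Option V → ℤ) :
    grow σ b ⬝ᵥ z = σ b * ((∑ v, if b v then z (some v) else 0) - z none) := by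
  unfold dotProduct
  rw [Fintype.sum_option, mul_sub, Finset.mul_sum]
  have : ∀ v, grow σ b (some v) * z (some v) = σ b * (if b v then z (some v) else 0) := by
    intro v
    unfold grow
    by_cases h : b v = true <;> simp [h]
  rw [Finset.sum_congr rfl (fun v _ => this v)]
  unfold grow
  ring

omit [DecidableEq V] in
lemma grow_dotR (σ : (V → Bool) → ℤ) (b : V → Bool) (z : Option V → ℝ) :
    (fun i => (grow σ b i : ℝ)) ⬝ᵥ z =
      (σ b : ℝ) * ((∑ v, if b v then z (some v) else 0) - z none) := by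
  unfold dotProduct
  rw [Fintype.sum_option, mul_sub, Finset.mul_sum]
  have : ∀ v, (grow σ b (some v) : ℝ) * z (some v) =
      (σ b : ℝ) * (if b v then z (some v) else 0) := by
    intro v
    unfold grow
    by_cases h : b v = true <;> simp [h]
  rw [Finset.sum_congr rfl (fun v _ => this v)]
  unfold grow
  push_cast
  ring

lemma grow_span (σ : (V → Bool) → ℤ) (hσ : ∀ b, σ b = 1 ∨ σ b = -1) :
    Submodule.span ℝ (Set.range (fun b i => (grow σ b i : ℝ))) = ⊤ := by
  set S := Submodule.span ℝ (Set.range (fun b i => (grow σ b i : ℝ))) with hS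
  have hmem : ∀ b, (fun i => (grow σ b i : ℝ)) ∈ S := fun b =>
    Submodule.subset_span ⟨b, rfl⟩
  have hsq : ∀ b, (σ b : ℝ) * σ b = 1 := by
    intro b
    rcases hσ b with h | h <;> rw [h] <;> norm_num
  have hnone : (Pi.single none 1 : Option V → ℝ) ∈ S := by
    have h1 := S.smul_mem (-(σ (fun _ => false) : ℝ)) (hmem (fun _ => false))
    convert h1 using 1
    funext i
    rw [Pi.smul_apply, smul_eq_mul]
    cases i with
    | none =>
      simp only [Pi.single_eq_same, grow]
      push_cast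
      have := hsq (fun _ => false)
      linarith
    | some v =>
      simp [grow]
  have hsome : ∀ v, (Pi.single (some v) 1 : Option V → ℝ) ∈ S := by
    intro v
    have h1 := S.add_mem (S.smul_mem ((σ (fun v' => decide (v' = v)) : ℝ))
      (hmem (fun v' => decide (v' = v)))) hnone
    convert h1 using 1
    funext i
    rw [Pi.add_apply, Pi.smul_apply, smul_eq_mul]
    cases i with
    | none =>
      simp only [Pi.single_eq_same, grow]
      push_cast
      have := hsq (fun v' => decide (v' = v))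
      rw [Pi.single_eq_of_ne (by simp)]
      linarith
    | some v' =>
      have := hsq (fun v' => decide (v' = v))
      by_cases h : v' = v
      · subst h
        simp only [grow, Pi.single_eq_same, decide_true, if_true]
        rw [this, Pi.single_eq_of_ne (by simp), add_zero]
      · simp [grow, h, Pi.single_apply]
  rw [eq_top_iff]
  intro x _
  rw [pi_eq_sum_univ' x]
  refine S.sum_mem fun i _ => S.smul_mem _ ?_
  cases i with
  | none => exact hnone
  | some v => exact hsome v

omit [DecidableEq V] in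
lemma sum_support {M : Type*} [AddCommMonoid M] (p : V → Prop) [DecidablePred p] (F : V → M)
    (hF : ∀ v, ¬ p v → F v = 0) : ∑ v, F v = ∑ v : {v // p v}, F v := by
  rw [← Fintype.sum_subtype_add_sum_subtype p F]
  have : ∑ v : {v // ¬ p v}, F v = 0 := Finset.sum_eq_zero fun v _ => hF v.1 v.2
  rw [this, add_zero]

lemma bits_bound (k n : ℕ) (hkn : k ≤ n + 1) :
    k * (k * k.factorial) < 2 ^ ((n + 1) * (n + 4)) := by
  have h1 : k < 2 ^ k := Nat.lt_two_pow_self
  have h2 : k.factorial ≤ k ^ k := Nat.factorial_le_pow k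
  have h3 : k ^ k ≤ 2 ^ (k * k) := by
    rw [pow_mul]
    exact Nat.pow_le_pow_left h1.le k
  calc k * (k * k.factorial) ≤ 2 ^ k * (2 ^ k * 2 ^ (k * k)) :=
        Nat.mul_le_mul h1.le (Nat.mul_le_mul h1.le (h2.trans h3))
    _ = 2 ^ (k + (k + k * k)) := by rw [← pow_add, ← pow_add]
    _ < 2 ^ ((n + 1) * (n + 4)) := by
        apply Nat.pow_lt_pow_right (by norm_num)
        nlinarith

omit [DecidableEq V] in
/-- **Muroga's theorem** (with a weaker constant). -/
theorem int_weights (w : V → ℝ) (θ : ℝ) : ∃ (w' : V → ℤ) (θ' : ℤ),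
    (∀ v, w' v ≠ 0 → w v ≠ 0) ∧
    (∀ b : V → Bool, (θ ≤ ∑ v, if b v then w v else 0) ↔ (θ' ≤ ∑ v, if b v then w' v else 0)) ∧
    |θ'| + ∑ v, |w' v| < 2 ^ ((Fintype.card V + 1) * (Fintype.card V + 4)) := by
  classical
  let V' := {v // w v ≠ 0}
  let sm : (V' → Bool) → ℝ := fun b => ∑ v, if b v then w v.1 else 0
  set σ : (V' → Bool) → ℤ := fun b => if θ ≤ sm b then 1 else -1 with hσ
  have hσ1 : ∀ b, σ b = 1 ∨ σ b = -1 := by
    intro b
    rw [hσ]
    by_cases h : θ ≤ sm b
    · left; simp [h]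
    · right; simp [h]
  obtain ⟨θ2, hθ2a, hθ2b⟩ : ∃ x, (∀ b, sm b < θ → sm b < x) ∧ x < θ := by
    have h1 : ∀ᶠ x in nhdsWithin θ (Set.Iio θ), ∀ b, sm b < θ → sm b < x := by
      rw [Filter.eventually_all]
      intro b
      by_cases hb : sm b < θ
      · filter_upwards [Ioo_mem_nhdsLT hb] with x hx _
        exact hx.1
      · exact Filter.Eventually.of_forall fun x h => absurd h hb
    have h2 : ∀ᶠ x in nhdsWithin θ (Set.Iio θ), x < θ := self_mem_nhdsWithin
    exact (h1.and h2).exists
  have hpos : ∀ b, 0 < (σ b : ℝ) * (sm b - θ2) := by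
    intro b
    rw [hσ]
    by_cases h : θ ≤ sm b
    · simp only [h, if_true]
      push_cast
      linarith
    · simp only [h, if_false]
      push_cast
      have := hθ2a b (not_le.1 h)
      linarith
  obtain ⟨μ, hμa, hμb⟩ : ∃ x : ℝ, (∀ b, x ≤ (σ b : ℝ) * (sm b - θ2)) ∧ 0 < x := by
    have h1 : ∀ᶠ x in nhdsWithin (0 : ℝ) (Set.Ioi 0), ∀ b, x ≤ (σ b : ℝ) * (sm b - θ2) := by
      rw [Filter.eventually_all]
      intro b
      filter_upwards [Ioo_mem_nhdsGT (hpos b)] with x hx
      exact hx.2.le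
    have h2 : ∀ᶠ x in nhdsWithin (0 : ℝ) (Set.Ioi 0), 0 < x := self_mem_nhdsWithin
    exact (h1.and h2).exists
  obtain ⟨z, hz1, hz2⟩ := int_solution (R := V' → Bool) (grow σ) (by
      intro b i
      cases i with
      | none =>
        rcases hσ1 b with h | h <;> simp [grow, h]
      | some v =>
        rcases hσ1 b with h | h <;> cases hb : b v <;> simp [grow, h, hb])
    (grow_span σ hσ1)
    (fun i => match i with | none => θ2 / μ | some v => w v.1 / μ) (by
      intro b
      rw [grow_dotR]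
      simp only
      have h1 : (∑ v : V', if b v then w v.1 / μ else 0) = sm b / μ := by
        show _ = (∑ v : V', if b v then w v.1 else 0) / μ
        rw [Finset.sum_div]
        refine Finset.sum_congr rfl fun v _ => ?_
        split_ifs
        · rfl
        · simp
      rw [h1, ← sub_div, ← mul_div_assoc, le_div_iff₀ hμb, one_mul]
      exact hμa b)
  refine ⟨fun v => if h : w v ≠ 0 then z (some ⟨v, h⟩) else 0, z none, ?_, ?_, ?_⟩
  · intro v hv hv0
    apply hv
    show (if h : w v ≠ 0 then z (some ⟨v, h⟩) else 0) = 0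
    rw [dif_neg (not_not.2 hv0)]
  · intro b
    have e1 : (∑ v, if b v then w v else 0) = sm (fun v => b v.1) := by
      rw [sum_support (fun v => w v ≠ 0) (fun v => if b v then w v else 0) (by
        intro v hv
        rw [not_not] at hv
        simp only [hv, ite_self])]
    have e2 : (∑ v, if b v then (if h : w v ≠ 0 then z (some ⟨v, h⟩) else 0) else 0) =
        ∑ v : V', if b v.1 then z (some v) else 0 := by
      rw [sum_support (fun v => w v ≠ 0)
        (fun v => if b v then (if h : w v ≠ 0 then z (some ⟨v, h⟩) else 0) else 0) (by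
        intro v hv
        rw [dif_neg hv, ite_self])]
      refine Finset.sum_congr rfl fun v _ => ?_
      rw [dif_pos v.2]
    rw [e1, e2]
    have h1 := hz1 (fun v => b v.1)
    rw [grow_dot] at h1
    constructor
    · intro h
      have h2 : σ (fun v => b v.1) = 1 := by
        rw [hσ]; simp [h]
      rw [h2] at h1
      linarith
    · intro h
      by_contra hcon
      have h2 : σ (fun v => b v.1) = -1 := by
        rw [hσ]; simp [hcon]
      rw [h2] at h1
      linarith
  · have e3 : ∑ v, |if h : w v ≠ 0 then z (some ⟨v, h⟩) else 0| = ∑ v : V', |z (some v)| := by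
      rw [sum_support (fun v => w v ≠ 0) (fun v => |if h : w v ≠ 0 then z (some ⟨v, h⟩) else 0|) (by
        intro v hv
        rw [dif_neg hv, abs_zero])]
      refine Finset.sum_congr rfl fun v _ => ?_
      rw [dif_pos v.2]
    have e4 : |z none| + ∑ v : V', |z (some v)| = ∑ i : Option V', |z i| := by
      rw [Fintype.sum_option]
    rw [e3, e4]
    have h1 := Finset.sum_le_card_nsmul (univ : Finset (Option V')) (fun i => |z i|) _
      (fun i _ => hz2 i)
    refine lt_of_le_of_lt h1 ?_
    rw [Finset.card_univ, nsmul_eq_mul]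
    have h2 : Fintype.card (Option V') ≤ Fintype.card V + 1 := by
      rw [Fintype.card_option]
      exact Nat.succ_le_succ (Fintype.card_subtype_le _)
    have h3 := bits_bound (Fintype.card (Option V')) (Fintype.card V) h2
    exact_mod_cast h3

end gate

end Pool.Agent.Run7.h284.DL
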