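import Pool.Agent.Run7.h284.DL.Cells
import Pool.Agent.Run7.h284.DL.Avg
import Pool.Agent.Run7.h284.DL.Defs2
import Pool.Agent.Run7.h284.DL.Muroga
import Pool.Agent.H994R2.JL.CO
import Pool.Agent.H994R2.JL.ME

/-!
# Correlation bounds for predictors
-/

namespace Pool.Agent.Run7.h284.DL

open Finset DomAC0 H568R2 Pool.Agent.H994R2.JL DNFPrediction
open scoped BigOperators

section

variable {m t k0 n0 w0 : ℕ}

/-- restrictions and choices of hidden sets -/
abbrev Om (m t k0 n0 : ℕ) := Restr (Fin m) × (Fin (t + 1) → Fin k0 → Fin n0)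

/-- their distribution -/
noncomputable def mu (p : ℝ) (ω : Om m t k0 n0) : ℝ :=
  (∏ i, wq p (ω.1 i)) * (1 / (Fintype.card (Fin (t + 1) → Fin k0 → Fin n0) : ℝ))

lemma mu_sum (p : ℝ) (g : Om m t k0 n0 → ℝ) :
    ∑ ω, mu p ω * g ω = Ex (wq p) (fun ρ => 𝔼 s, g (ρ, s)) := by
  unfold Ex
  rw [Fintype.sum_prod_type]
  refine Finset.sum_congr rfl fun ρ _ => ?_
  unfold mu
  simp only
  rw [Fintype.expect_eq_sum_div_card, Finset.sum_div, Finset.mul_sum]
  refine Finset.sum_congr rfl fun s _ => ?_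
  ring

lemma mu_nonneg {p : ℝ} (hp0 : 0 ≤ p) (hp1 : p ≤ 1) (ω : Om m t k0 n0) : 0 ≤ mu p ω := by
  unfold mu
  have : 0 ≤ ∏ i, wq p (ω.1 i) := Finset.prod_nonneg fun i _ => wq_nonneg hp0 hp1 _
  positivity

lemma mu_one (p : ℝ) (hn0 : 1 ≤ n0) : ∑ ω : Om m t k0 n0, mu p ω = 1 := by
  have : Nonempty (Fin n0) := ⟨⟨0, hn0⟩⟩
  have h := mu_sum (m := m) (t := t) (k0 := k0) (n0 := n0) p (fun _ => 1)
  simp only [mul_one, Fintype.expect_const] at h
  rw [h, Ex_const (wq_sum p)]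

/-- the hidden parity -/
noncomputable def labr (e : CIdx t k0 n0 w0 ↪ Fin m) (v0 : Fin w0) (ω : Om m t k0 n0) :
    (Fin m → Bool) → Bool := parT (hset (hidR e v0 ω.1) ω.2)

/-- gates with integer weights -/
lemma top_ints {N R : ℕ} (P : NodePredictor m N R) {d W q : ℕ} (h : P.TopLE d W q) {B : ℕ}
    (hB : (P.nodes + 1) * (P.nodes + 4) ≤ B) :
    ∃ (w : Fin q → Fin P.leaves ⊕ Fin P.circuit.size → ℤ) (θ : Fin q → ℤ)
      (ψ : Fin q → ℤ → Bool) (f : (Fin q → Bool) → Bool),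
      GatesOK (C := P.circuit) d B W w θ ψ ∧
      ∀ b, P.top b = f (fun k => ψ k ((∑ v, if b v = true then w k v else 0) - θ k)) := by
  classical
  obtain ⟨h, f, hh, hf⟩ := h
  have key : ∀ k, ∃ (w : Fin P.leaves ⊕ Fin P.circuit.size → ℤ) (θ : ℤ) (ψ : ℤ → Bool),
      ((∀ v, w v ≠ 0 → P.circuit.nodeDepth v ≤ d) ∧
        (((∀ x, ψ x = decide (0 ≤ x)) ∧ |θ| + ∑ v, |w v| < 2 ^ B) ∨ |θ| + ∑ v, |w v| ≤ W)) ∧
      ∀ b, h k b = ψ ((∑ v, if b v = true then w v else 0) - θ) := by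
    intro k
    rcases hh k with ⟨w, θ, hd, hw⟩ | ⟨w, φ, hd, hW, hw⟩
    · obtain ⟨w', θ', h1, h2, h3⟩ := int_weights w θ
      refine ⟨w', θ', fun x => decide (0 ≤ x), ⟨fun v hv => hd v (h1 v hv),
        Or.inl ⟨fun _ => rfl, lt_of_lt_of_le h3 ?_⟩⟩, ?_⟩
      · apply pow_le_pow_right₀ (by norm_num)
        rw [Fintype.card_sum, Fintype.card_fin, Fintype.card_fin]
        exact hB
      · intro b
        rw [Bool.eq_iff_iff, hw b, h2 b, decide_eq_true_iff, sub_nonneg]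
    · refine ⟨w, 0, φ, ⟨hd, Or.inr (by simpa using hW)⟩, fun b => by rw [hw b, sub_zero]⟩
  choose w θ ψ hOK hval using key
  exact ⟨w, θ, ψ, f, hOK, fun b => by rw [hf b]; simp only [hval]⟩

/-- leaves of a predictor -/
def lfN {N R : ℕ} (P : NodePredictor m N R) (u : Fin R → Bool) :
    Fin P.leaves → Mat (N + 1) m → Col (N + 1) → Bool :=
  fun e Z y => P.leaf e (tr.symm Z) (fun i => y i.castSucc) u

lemma lfN_local {N R w : ℕ} (P : NodePredictor m N R) (hP : P.ReadsLE w)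
    (u : Fin R → Bool) (e : Fin P.leaves) : Local w (lfN P u e) := by
  refine ⟨P.reads e, hP e, ?_⟩
  intro X X' y h
  apply P.leaf_reads
  intro i j hj
  rw [tr_symm_apply, tr_symm_apply, h j hj]

theorem cor_bound {N R a0 κ d q : ℕ} (P : NodePredictor m N R) (hreads : P.ReadsLE a0)
    (hκ : 1 ≤ κ) {Wt : ℕ} (htop : P.TopLE d Wt q) {B : ℕ}
    (hB : (P.nodes + 1) * (P.nodes + 4) ≤ B) (ht : t = 2 * KA a0 κ d)
    (e : CIdx t k0 n0 w0 ↪ Fin m) (v0 : Fin w0) (hk0 : 1 ≤ k0) (hn0 : 1 ≤ n0) {q0 : ℝ}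
    (hq0 : 0 ≤ q0) (hq1 : q0 ≤ 1 / 3) {η : ℝ}
    (hη : d * (((P.circuit.size * (P.leaves + P.circuit.size + 1) : ℕ)) : ℝ) *
      (4 ^ (KA a0 κ d) * (3 * q0)) ^ κ ≤ η) (u : Fin R → Bool) :
    |∑ ω : Om m t k0 n0, mu (q0 ^ d) ω * cor P.guess (labr e v0 ω) u| ≤
      Del t B Wt q k0 n0 w0 (q0 ^ d) η := by
  classical
  obtain ⟨w, θ, ψ, f, hOK, hval⟩ := top_ints P htop hB
  have hp0 : 0 ≤ q0 ^ d := pow_nonneg hq0 d
  have hp1 : q0 ^ d ≤ 1 := pow_le_one₀ hq0 (by linarith)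
  have h := global_bound stub_ME P.circuit (lfN P u) hκ (lfN_local P hreads u) (by
    intro j X y y' h
    unfold lfN
    congr 1
    funext i
    exact h i) ht B Wt w θ ψ hOK f e v0 hk0 hn0 hp0 hp1 (η := η) (by
      intro V W y
      refine le_trans ?_ hη
      have h2 := stub_CO (Fin m) (Fin P.leaves) P.circuit (sig (lfN P u) V W y) a0 κ hκ
        (sig_junta _ (lfN_local P hreads u) V W y) q0 hq0 hq1 d
      rw [Fintype.card_fin] at h2
      exact h2)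
  refine le_trans (le_of_eq ?_) h
  rw [mu_sum]
  congr 2
  funext ρ
  refine Finset.expect_congr rfl fun s _ => ?_
  unfold cor
  rw [← exp_equiv (tr (N := N + 1) (m := m)).symm]
  refine Finset.expect_congr rfl fun Z _ => ?_
  have hg : P.guess (tr.symm Z) (fun i => labr e v0 (ρ, s) ((tr.symm Z) i.castSucc)) u =
      f (fun k => ψ k (nval P.circuit (lfN P u) (w k) Z
        (labU (hset (hidR e v0 ρ) s) Z) - θ k)) := by
    unfold NodePredictor.guess
    rw [hval]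
    rfl
  rw [hg]
  rfl

/-- the correlation of a constant guess -/
theorem cor0_bound (N : ℕ) {a0 κ d : ℕ} (hκ : 1 ≤ κ) (Wt q B : ℕ)
    (ht : t = 2 * KA a0 κ d)
    (e : CIdx t k0 n0 w0 ↪ Fin m) (v0 : Fin w0) (hk0 : 1 ≤ k0) (hn0 : 1 ≤ n0) {p : ℝ}
    (hp0 : 0 ≤ p) (hp1 : p ≤ 1) {η : ℝ} (hη : 0 ≤ η) :
    |∑ ω : Om m t k0 n0, mu p ω * cor0 N (labr e v0 ω)| ≤ Del t B Wt q k0 n0 w0 p η := by
  classical
  let C : Circuit (Fin 1) :=
    { size := 0
      kind := fun g => g.elim0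
      preds := fun g => g.elim0
      acyclic := fun g => g.elim0
      unary := fun g => g.elim0
      output := Sum.inl 0 }
  have h := global_bound (N := N) stub_ME C (fun _ _ _ => false) (a0 := a0) (κ := κ) (d := d) hκ
    (fun _ => ⟨∅, by simp, fun _ _ _ _ => rfl⟩) (fun _ _ _ _ _ => rfl) ht B Wt
    (q := q) (fun _ _ => 0) (fun _ => 0) (fun _ _ => false) (by
      intro k
      refine ⟨fun v hv => absurd rfl hv, Or.inr ?_⟩
      simp) (fun _ => true) e v0 hk0 hn0 hp0 hp1 (η := η) (by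
      intro V W y
      refine le_trans (le_of_eq ?_) hη
      have : ∀ ρ : Restr (Fin m), GoodA C (sig (fun (_ : Fin 1) _ _ => false) V W y) a0 κ d ρ :=
        fun ρ g => g.elim0
      simp only [this, not_true_eq_false, if_false]
      exact Ex_const (wq_sum p) 0)
  refine le_trans (le_of_eq ?_) h
  rw [mu_sum]
  congr 2
  funext ρ
  refine Finset.expect_congr rfl fun s _ => ?_
  unfold cor0
  rw [← exp_equiv (tr (N := N + 1) (m := m)).symm]
  refine Finset.expect_congr rfl fun Z _ => ?_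
  rw [if_pos rfl, one_mul]
  rfl

end

end Pool.Agent.Run7.h284.DL
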