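import Pool.Agent.Run7.h284.DL.Num2
import Pool.Agent.Run7.h284.DL.Main2

/-!
# The theorem for polynomial size and constant depth
-/

namespace Pool.Agent.Run7.h284.DL

open Finset DomAC0 H568R2 Pool.Agent.H994R2.JL DNFPrediction Filter
open scoped BigOperators

lemma topLE_mono {m N R d d' W q : ℕ} {P : NodePredictor m N R} (h : P.TopLE d W q)
    (hd : d ≤ d') : P.TopLE d' W q := by
  obtain ⟨g, f, hg, hf⟩ := h
  refine ⟨g, f, fun k => ?_, hf⟩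
  rcases hg k with ⟨w, θ, h1, h2⟩ | ⟨w, φ, h1, h2, h3⟩
  · exact Or.inl ⟨w, θ, fun v hv => (h1 v hv).trans hd, h2⟩
  · exact Or.inr ⟨w, φ, fun v hv => (h1 v hv).trans hd, h2, h3⟩

theorem constant_depth_aux (c d D κ K t k1 k0 : ℕ) (hD : D = 4 * (d + 1))
    (hκ : κ = D * (3 * c + 1) + 1) (hK : K = KA c κ (d + 1)) (ht : t = 2 * K)
    (hk1 : k1 = D * (2 * c ^ 2 + c + 1) + 1) (hk0 : k0 = 2 ^ t * k1) (A : ℝ)
    (hA : A = 2 ^ (D * (c + 1)) * ((D * (c + 2) + 1).factorial : ℝ) +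
      (2 * (1 + (((t : ℝ) + 11) * (t + 2) ^ 2 + 1 + (2 * 2 ^ (t + 1) + 1)))) ^ c *
        (2 * (t + 1)) * 2 ^ (D * (2 * c ^ 2 + c + 1)) +
      (t + 1) * (d + 1) * 2 * (4 ^ K * 3) ^ κ * 2 ^ (D * (3 * c + 1))) :
    ∃ S : ℕ, ∀ᶠ m : ℕ in atTop, ∃ μ : DNF m → ℝ,
    (∀ F, 0 ≤ μ F) ∧ ∑ F, μ F = 1 ∧
    (∀ F, μ F ≠ 0 → F.card ≤ S ∧ ∀ t ∈ F, t.card ≤ S) ∧
    (∀ (N R : ℕ) (P : NodePredictor m N R), P.nodes ≤ m ^ c → P.ReadsLE c →
      P.TopLE d (m ^ c) c → |∑ F, μ F * P.success F.eval - 1 / 2| ≤ 1 / (m : ℝ) ^ c) ∧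
    (∀ (N R : ℕ) (P : MajorityPredictor m N R), (∀ g, (P.gate g).nodes ≤ m ^ c) →
      (∀ g, (P.gate g).ReadsLE c) → (∀ g, (P.gate g).TopLE d (m ^ c) c) → P.total ≤ m ^ c →
      ∑ F, μ F * P.success F.eval ≤ 1 - 1 / (3 * P.total + 3)) := by
  classical
  have hk0pos : 1 ≤ k0 := by
    rw [hk0, hk1]
    exact Nat.mul_pos (by positivity) (Nat.succ_pos _)
  have ht' : t = 2 * KA c κ (d + 1) := by rw [ht, hK]
  obtain ⟨n1, hn1⟩ := exists_nat_gt (12 * A)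
  set T0 := max 3 (max ((t + 1) * k0) n1) with hT0
  refine ⟨2 ^ ((t + 1) * k0), ?_⟩
  filter_upwards [eventually_ge_atTop (T0 ^ D), eventually_ge_atTop 1] with m hmT hm1
  obtain ⟨τ, hτ1, hτ2⟩ := exists_root D m (by omega)
  have hτT : T0 ≤ τ := by
    have h1 : T0 ^ D < (τ + 1) ^ D := lt_of_le_of_lt hmT hτ2
    have h2 := lt_of_pow_lt_pow_left₀ D (Nat.zero_le _) h1
    omega
  have hτ3 : 3 ≤ τ := le_trans (le_max_left _ _) hτT
  have hτk : (t + 1) * k0 ≤ τ := le_trans (le_trans (le_max_left _ _) (le_max_right _ _)) hτT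
  have hτn : n1 ≤ τ := le_trans (le_trans (le_max_right _ _) (le_max_right _ _)) hτT
  have hτpos : 1 ≤ τ := by omega
  have hτ0 : (0 : ℝ) < τ := by exact_mod_cast hτpos
  have hm0 : (0 : ℝ) < m := by exact_mod_cast hm1
  have hmr : (1 : ℝ) ≤ m := by exact_mod_cast hm1
  set n0 := τ ^ (d + 1) with hn0
  set w0 := τ ^ (2 * (d + 1)) with hw0
  have hn0pos : 1 ≤ n0 := Nat.one_le_pow _ _ hτpos
  have hw0pos : 0 < w0 := Nat.one_le_pow _ _ hτpos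
  -- the columns
  have hcard : Fintype.card (CIdx t k0 n0 w0) ≤ Fintype.card (Fin m) := by
    simp only [Fintype.card_prod, Fintype.card_fin]
    calc (t + 1) * (k0 * (n0 * w0)) = ((t + 1) * k0) * (n0 * w0) := by ring
      _ ≤ τ * (n0 * w0) := Nat.mul_le_mul_right _ hτk
      _ = τ ^ (3 * (d + 1) + 1) := by rw [hn0, hw0]; ring
      _ ≤ τ ^ D := Nat.pow_le_pow_right hτpos (by omega)
      _ ≤ m := hτ1
  obtain ⟨e⟩ := Function.Embedding.nonempty_of_card_le hcard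
  let v0 : Fin w0 := ⟨0, hw0pos⟩
  set q0 : ℝ := 1 / (τ : ℝ) with hq0
  have hq00 : 0 ≤ q0 := by positivity
  have hq01 : q0 ≤ 1 / 3 := by
    rw [hq0]
    apply one_div_le_one_div_of_le (by norm_num)
    exact_mod_cast hτ3
  set p := q0 ^ (d + 1) with hp
  have hp0 : 0 ≤ p := pow_nonneg hq00 _
  have hp1 : p ≤ 1 := pow_le_one₀ hq00 (by linarith)
  set Δ : ℝ := 1 / (12 * (m : ℝ) ^ (c + 1)) with hΔ
  have hΔ0 : 0 ≤ Δ := by positivity
  -- the total error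
  have hDel : ∀ s j : ℕ, j + s ≤ m ^ c →
      Del t ((m ^ c + 1) * (m ^ c + 4)) (m ^ c) c k0 n0 w0 p
        (((d + 1 : ℕ) : ℝ) * ((s * (j + s + 1) : ℕ) : ℝ) * (4 ^ K * (3 * q0)) ^ κ) ≤ Δ := by
    intro s j hsj
    have h1 := term1 (c := c) d k0 t hτpos hτk hD hτ2
    have h2 := term2 (c := c) d t K s j hm1 hτpos hτ2 hsj
    have h3 := term3 (c := c) d t hm1 hτpos hτ2
    rw [← hκ] at h2
    rw [← hk1, ← hk0] at h3
    rw [hΔ, le_div_iff₀ (by positivity)]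
    unfold Del
    have h4 : (12 : ℝ) * A ≤ τ := by
      have : (n1 : ℝ) ≤ τ := by exact_mod_cast hτn
      linarith
    have h5 : ((((t + 1) * k0 * n0 : ℕ) : ℝ) * (1 - p) ^ w0 +
        del t ((m ^ c + 1) * (m ^ c + 4)) (m ^ c) c (1 / ((n0 ^ k0 : ℕ) : ℝ)) +
        (t + 1) * (((d + 1 : ℕ) : ℝ) * ((s * (j + s + 1) : ℕ) : ℝ) *
          (4 ^ K * (3 * q0)) ^ κ)) * (m : ℝ) ^ (c + 1) * τ ≤ A := by
      rw [hA]
      have e1 : ((((t + 1) * k0 * n0 : ℕ) : ℝ) * (1 - p) ^ w0 +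
        del t ((m ^ c + 1) * (m ^ c + 4)) (m ^ c) c (1 / ((n0 ^ k0 : ℕ) : ℝ)) +
        (t + 1) * (((d + 1 : ℕ) : ℝ) * ((s * (j + s + 1) : ℕ) : ℝ) *
          (4 ^ K * (3 * q0)) ^ κ)) * (m : ℝ) ^ (c + 1) * τ =
        (((t + 1) * k0 * n0 : ℕ) : ℝ) * (1 - p) ^ w0 * (m : ℝ) ^ (c + 1) * τ +
        del t ((m ^ c + 1) * (m ^ c + 4)) (m ^ c) c (1 / ((n0 ^ k0 : ℕ) : ℝ)) *
          (m : ℝ) ^ (c + 1) * τ +
        (t + 1) * (((d + 1 : ℕ) : ℝ) * ((s * (j + s + 1) : ℕ) : ℝ) *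
          (4 ^ K * (3 * q0)) ^ κ) * (m : ℝ) ^ (c + 1) * τ := by ring
      rw [e1]
      exact add_le_add (add_le_add h1 h3) h2
    set X : ℝ := ((((t + 1) * k0 * n0 : ℕ) : ℝ) * (1 - p) ^ w0 +
        del t ((m ^ c + 1) * (m ^ c + 4)) (m ^ c) c (1 / ((n0 ^ k0 : ℕ) : ℝ)) +
        (t + 1) * (((d + 1 : ℕ) : ℝ) * ((s * (j + s + 1) : ℕ) : ℝ) *
          (4 ^ K * (3 * q0)) ^ κ)) with hX
    have h6 : X * (m : ℝ) ^ (c + 1) * τ * 12 ≤ 1 * τ := by linarith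
    have h7 : X * (12 * (m : ℝ) ^ (c + 1)) * τ ≤ 1 * τ := by
      calc X * (12 * (m : ℝ) ^ (c + 1)) * τ = X * (m : ℝ) ^ (c + 1) * τ * 12 := by ring
        _ ≤ 1 * τ := h6
    exact le_of_mul_le_mul_right h7 hτ0
  have hlab : ∀ ω : Om m t k0 n0, labr e v0 ω = (parDNF (hset (hidR e v0 ω.1) ω.2)).eval := by
    intro ω
    funext x
    rw [parDNF_eval]
    rfl
  have hcor : ∀ (N R : ℕ) (P : NodePredictor m N R), P.nodes ≤ m ^ c → P.ReadsLE c →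
      P.TopLE d (m ^ c) c → ∀ u, |∑ ω : Om m t k0 n0, mu p ω * cor P.guess (labr e v0 ω) u| ≤
        Δ := by
    intro N R P hnodes hreads htop u
    have h1 := cor_bound P hreads (by omega : 1 ≤ κ) (topLE_mono htop (Nat.le_succ d))
      (B := (m ^ c + 1) * (m ^ c + 4)) (Nat.mul_le_mul (by omega) (by omega)) ht' e v0 hk0pos
      hn0pos hq00 hq01 (η := (((d + 1 : ℕ) : ℝ) *
        ((P.circuit.size * (P.leaves + P.circuit.size + 1) : ℕ) : ℝ) *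
        (4 ^ K * (3 * q0)) ^ κ)) (le_of_eq (by rw [hK])) u
    exact h1.trans (hDel _ _ hnodes)
  have hcor0 : ∀ N : ℕ, |∑ ω : Om m t k0 n0, mu p ω * cor0 N (labr e v0 ω)| ≤ Δ := by
    intro N
    have h1 := cor0_bound N (a0 := c) (κ := κ) (d := d + 1) (by omega) (m ^ c) c
      ((m ^ c + 1) * (m ^ c + 4)) ht' e v0 hk0pos hn0pos hp0 hp1
      (η := (((d + 1 : ℕ) : ℝ) * ((0 * (0 + 0 + 1) : ℕ) : ℝ) * (4 ^ K * (3 * q0)) ^ κ))
      (by positivity)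
    exact h1.trans (hDel 0 0 (by positivity))
  have hμ0 : ∀ ω : Om m t k0 n0, 0 ≤ mu p ω := mu_nonneg hp0 hp1
  have hμ1 : ∑ ω : Om m t k0 n0, mu p ω = 1 := mu_one p hn0pos
  refine ⟨push (mu p) (fun ω : Om m t k0 n0 => parDNF (hset (hidR e v0 ω.1) ω.2)),
    push_nonneg hμ0 _, (push_one _ _).trans hμ1, ?_, ?_, ?_⟩
  · intro F hF
    obtain ⟨ω, rfl⟩ := push_ne hF
    have hc : (hset (hidR e v0 ω.1) ω.2).card ≤ (t + 1) * k0 :=
      hset_card_le _ k0 (hidR_card e v0 ω.1) ω.2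
    refine ⟨(parDNF_card _).trans (Nat.pow_le_pow_right (by norm_num) hc), fun T hT => ?_⟩
    exact (parDNF_width _ T hT).trans (hc.trans Nat.lt_two_pow_self.le)
  · intro N R P hnodes hreads htop
    rw [push_sum]
    have h1 := avg_one (mu p) hμ1 (labr e v0) hΔ0 P.guess (hcor N R P hnodes hreads htop)
      (hcor0 N)
    have h2 : ∑ ω : Om m t k0 n0, mu p ω * P.success (parDNF (hset (hidR e v0 ω.1) ω.2)).eval =
        ∑ ω, mu p ω * succ P.guess (labr e v0 ω) := by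
      refine Finset.sum_congr rfl fun ω _ => ?_
      rw [hlab ω]
      rfl
    rw [h2]
    refine h1.trans ?_
    rw [hΔ]
    have h3 : (m : ℝ) ^ c ≤ (m : ℝ) ^ (c + 1) := pow_le_pow_right₀ hmr (Nat.le_succ c)
    have h4 : (0 : ℝ) < (m : ℝ) ^ c := by positivity
    rw [mul_one_div, div_le_div_iff₀ (by positivity) h4]
    linarith
  · intro N R P hnodes hreads htop htot
    rw [push_sum]
    have h1 := avg_two (N := N) (R := R) (mu p) hμ0 hμ1 (labr e v0) hΔ0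
      (fun g => (P.gate g).guess) P.weight P.bias
      (fun g _ => hcor N R (P.gate g) (hnodes g) (hreads g) (htop g)) (hcor0 N)
    have h2 : ∑ ω : Om m t k0 n0, mu p ω * P.success (parDNF (hset (hidR e v0 ω.1) ω.2)).eval =
        ∑ ω, mu p ω * succ (fun X y u => decide (0 ≤ P.bias + ∑ g,
          if (P.gate g).guess X y u = true then P.weight g else 0)) (labr e v0 ω) := by
      refine Finset.sum_congr rfl fun ω _ => ?_
      rw [hlab ω]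
      rfl
    rw [h2]
    refine h1.trans ?_
    have h3 : ((P.bias.natAbs + ∑ g, (P.weight g).natAbs : ℕ) : ℝ) = (P.total : ℝ) := rfl
    rw [h3]
    have hW0 : (0 : ℝ) ≤ P.total := Nat.cast_nonneg _
    have hW1 : (P.total : ℝ) ≤ (m : ℝ) ^ c := by exact_mod_cast htot
    have h4 : (m : ℝ) ^ c ≤ (m : ℝ) ^ (c + 1) := pow_le_pow_right₀ hmr (Nat.le_succ c)
    have h5 : (1 : ℝ) ≤ (m : ℝ) ^ (c + 1) := one_le_pow₀ hmr
    have h6 : Δ ≤ 1 / (6 * ((P.total : ℝ) + 1)) := by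
      rw [hΔ]
      apply one_div_le_one_div_of_le (by positivity)
      linarith
    have h7 : 1 / (2 * (P.total : ℝ) + 2) - 1 / (6 * ((P.total : ℝ) + 1)) =
        1 / (3 * P.total + 3) := by
      have : (P.total : ℝ) + 1 ≠ 0 := by positivity
      have e1 : 2 * (P.total : ℝ) + 2 = 2 * (P.total + 1) := by ring
      have e2 : 3 * (P.total : ℝ) + 3 = 3 * (P.total + 1) := by ring
      rw [e1, e2]
      field_simp
      norm_num
    linarith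

theorem constant_depth (c d : ℕ) : ∃ S : ℕ, ∀ᶠ m : ℕ in atTop, ∃ μ : DNF m → ℝ,
    (∀ F, 0 ≤ μ F) ∧ ∑ F, μ F = 1 ∧
    (∀ F, μ F ≠ 0 → F.card ≤ S ∧ ∀ t ∈ F, t.card ≤ S) ∧
    (∀ (N R : ℕ) (P : NodePredictor m N R), P.nodes ≤ m ^ c → P.ReadsLE c →
      P.TopLE d (m ^ c) c → |∑ F, μ F * P.success F.eval - 1 / 2| ≤ 1 / (m : ℝ) ^ c) ∧
    (∀ (N R : ℕ) (P : MajorityPredictor m N R), (∀ g, (P.gate g).nodes ≤ m ^ c) →
      (∀ g, (P.gate g).ReadsLE c) → (∀ g, (P.gate g).TopLE d (m ^ c) c) → P.total ≤ m ^ c →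
      ∑ F, μ F * P.success F.eval ≤ 1 - 1 / (3 * P.total + 3)) := by
  exact constant_depth_aux c d _ _ _ _ _ _ rfl rfl rfl rfl rfl rfl _ rfl

end Pool.Agent.Run7.h284.DL
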