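import Mathlib

/-!
# Discrepancy of hidden parities in the number-on-the-forehead model

The columns of a random matrix over the field with two elements are divided into blocks, a hidden vector `s` is chosen
from a known random family in every block.  A product of functions of norm at most one, each of which knows the labels
`X s` and all blocks but one, has small correlation with the label of a fresh row.
-/

namespace Pool.Agent.Run7.h284.DL

open Finset
open scoped BigOperators ComplexConjugate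

section averages

variable {α β : Type*} [Fintype α] [Fintype β] {M : Type*} [AddCommMonoid M] [Module ℚ≥0 M]

lemma exp_prod (f : α × β → M) : 𝔼 p, f p = 𝔼 a, 𝔼 b, f (a, b) := by
  rw [← Finset.univ_product_univ, Finset.expect_product]

lemma exp_comm (f : α → β → M) : 𝔼 a, 𝔼 b, f a b = 𝔼 b, 𝔼 a, f a b := Finset.expect_comm _ _ _

lemma exp_equiv (e : α ≃ β) (f : β → M) : 𝔼 a, f (e a) = 𝔼 b, f b :=
  Fintype.expect_equiv e _ _ (fun _ => rfl)

lemma exp_shift [AddGroup α] (c : α) (f : α → M) : 𝔼 a, f (a + c) = 𝔼 a, f a :=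
  exp_equiv (Equiv.addRight c) f

lemma expR_le_one (f : α → ℝ) (hf : ∀ a, f a ≤ 1) : 𝔼 a, f a ≤ 1 := by
  rcases isEmpty_or_nonempty α with h | h
  · simp
  · exact Finset.expect_le Finset.univ_nonempty (fun x _ => hf x)

lemma norm_exp_le (f : α → ℂ) : ‖𝔼 a, f a‖ ≤ 𝔼 a, ‖f a‖ := RCLike.norm_expect_le (K := ℂ)

lemma norm_exp_le_of (f : α → ℂ) (c : ℝ) (hc : 0 ≤ c) (hf : ∀ a, ‖f a‖ ≤ c) : ‖𝔼 a, f a‖ ≤ c := by
  refine (norm_exp_le f).trans ?_
  rcases isEmpty_or_nonempty α with h | h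
  · simpa using hc
  · exact Finset.expect_le Finset.univ_nonempty (fun x _ => hf x)

lemma norm_sq_exp_le (f : α → ℂ) : ‖𝔼 a, f a‖ ^ 2 ≤ 𝔼 a, ‖f a‖ ^ 2 := by
  have h1 := norm_exp_le f
  have h2 := Finset.expect_mul_sq_le_sq_mul_sq (univ : Finset α) (fun a => ‖f a‖) (fun _ => (1 : ℝ))
  simp only [mul_one, one_pow] at h2
  have h3 : 𝔼 _a : α, (1 : ℝ) ≤ 1 := expR_le_one _ (fun _ => le_refl _)
  have h4 : 0 ≤ 𝔼 a, ‖f a‖ ^ 2 := Finset.expect_nonneg (fun _ _ => by positivity)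
  calc ‖𝔼 a, f a‖ ^ 2 ≤ (𝔼 a, ‖f a‖) ^ 2 := pow_le_pow_left₀ (norm_nonneg _) h1 2
    _ ≤ (𝔼 a, ‖f a‖ ^ 2) * 𝔼 _a : α, (1 : ℝ) := h2
    _ ≤ (𝔼 a, ‖f a‖ ^ 2) * 1 := mul_le_mul_of_nonneg_left h3 h4
    _ = _ := mul_one _

lemma exp_cons {n : ℕ} (f : (Fin (n + 1) → α) → M) :
    𝔼 D, f D = 𝔼 a, 𝔼 D', f (Fin.cons a D') := by
  rw [← exp_prod (fun p : α × (Fin n → α) => f (Fin.cons p.1 p.2))]
  exact (exp_equiv (Fin.consEquiv (fun _ => α)) f).symm

/-- families of tuples -/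
def consFam {E : Type*} {n : ℕ} : (E → α) × (E → Fin n → α) ≃ (E → Fin (n + 1) → α) where
  toFun p := fun e => Fin.cons (p.1 e) (p.2 e)
  invFun s := (fun e => s e 0, fun e i => s e i.succ)
  left_inv p := by
    ext <;> simp
  right_inv s := by
    funext e i
    refine Fin.cases ?_ (fun j => ?_) i <;> simp

lemma exp_cons_fam {E : Type*} [Fintype E] [DecidableEq E] {n : ℕ} (f : (E → Fin (n + 1) → α) → M) :
    𝔼 s, f s = 𝔼 s0 : E → α, 𝔼 s' : E → Fin n → α, f (fun e => Fin.cons (s0 e) (s' e)) := by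
  rw [← exp_prod (fun p : (E → α) × (E → Fin n → α) => f (fun e => Fin.cons (p.1 e) (p.2 e)))]
  exact (exp_equiv consFam f).symm

/-- two families are one family over the doubled index set -/
def doubleFam {E : Type*} : (E → α) × (E → α) ≃ (E × Bool → α) where
  toFun p := fun q => bif q.2 then p.2 q.1 else p.1 q.1
  invFun s := (fun e => s (e, false), fun e => s (e, true))
  left_inv p := by ext <;> simp
  right_inv s := by
    funext ⟨e, b⟩
    cases b <;> simp

lemma exp_double {E : Type*} [Fintype E] [DecidableEq E] (f : (E → α) → (E → α) → M) :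
    𝔼 s0, 𝔼 s1, f s0 s1 =
      𝔼 s : E × Bool → α, f (fun e => s (e, false)) (fun e => s (e, true)) := by
  rw [← exp_prod (fun p : (E → α) × (E → α) => f p.1 p.2),
    ← exp_equiv (doubleFam (α := α) (E := E))]
  rfl

end averages

/-- the sign character of the field with two elements -/
noncomputable def chi (a : ZMod 2) : ℂ := if a = 0 then 1 else -1

lemma chi_add (a b : ZMod 2) : chi (a + b) = chi a * chi b := by
  revert a b
  unfold chi
  have h : ∀ a : ZMod 2, a = 0 ∨ a = 1 := by decide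
  intro a b
  have h10 : (1 : ZMod 2) ≠ 0 := by decide
  have h11 : (1 : ZMod 2) + 1 = 0 := by decide
  rcases h a with rfl | rfl <;> rcases h b with rfl | rfl <;> simp [h11]

lemma chi_zero : chi 0 = 1 := by simp [chi]

lemma chi_norm (a : ZMod 2) : ‖chi a‖ = 1 := by
  unfold chi; split_ifs <;> simp

lemma chi_conj (a : ZMod 2) : conj (chi a) = chi a := by
  unfold chi; split_ifs <;> simp

/-- the data of a block: `N` rows and one further row -/
abbrev Blk (N : ℕ) (V : Type) := (Fin N → V → ZMod 2) × (V → ZMod 2)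

section nof

variable {N : ℕ} {V ι : Type} [Fintype V] [DecidableEq V] [Fintype ι]

/-- the labels of the rows -/
def lab {T : ℕ} {E : Type} (h : Fin T → ι → V → ZMod 2) (s : E → Fin T → ι)
    (D : Fin T → Blk N V) : E → Fin N → ZMod 2 :=
  fun e r => ∑ i, (D i).1 r ⬝ᵥ h i (s e i)

/-- the sum of the labels of the further row -/
def tgt {T : ℕ} {E : Type} [Fintype E] (h : Fin T → ι → V → ZMod 2) (s : E → Fin T → ι)
    (D : Fin T → Blk N V) : ZMod 2 :=
  ∑ e, ∑ i, (D i).2 ⬝ᵥ h i (s e i)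

/-- `f` does not depend on block `i` -/
def Free {T : ℕ} {α β : Type*} (i : Fin T) (f : (Fin T → α) → β) : Prop :=
  ∀ D D', (∀ j, j ≠ i → D j = D' j) → f D = f D'

/-- the bound -/
noncomputable def nb (ν : ℝ) : ℕ → ℕ → ℝ
  | 0, e => 2 ^ e * ν
  | T + 1, e => 2 ^ e * ν + Real.sqrt (nb ν T (2 * e))

lemma nb_nonneg {ν : ℝ} (hν : 0 ≤ ν) (T e : ℕ) : 0 ≤ nb ν T e := by
  cases T with
  | zero => unfold nb; positivity
  | succ T => unfold nb; positivity

/-- the family `h` is spread out: no vector has probability more than `ν` -/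
def Spread (ν : ℝ) (h : ι → V → ZMod 2) : Prop :=
  ∀ v : V → ZMod 2, 𝔼 a : ι, (if h a = v then (1 : ℝ) else 0) ≤ ν

/-- the dual family of a linearly independent family -/
lemma exists_dual {E : Type} [Fintype E] [DecidableEq E] (k : E → V → ZMod 2)
    (hk : LinearIndependent (ZMod 2) k) :
    ∃ u : E → V → ZMod 2, ∀ e e', u e ⬝ᵥ k e' = if e = e' then 1 else 0 := by
  set f : (E → ZMod 2) →ₗ[ZMod 2] (V → ZMod 2) := Fintype.linearCombination (ZMod 2) k with hf
  have hinj : Function.Injective f := hk.fintypeLinearCombination_injective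
  obtain ⟨g, hg⟩ := f.exists_leftInverse_of_injective (LinearMap.ker_eq_bot.2 hinj)
  have hgk : ∀ e', g (k e') = Pi.single e' 1 := by
    intro e'
    have h1 : f (Pi.single e' 1) = k e' := by
      rw [hf, Fintype.linearCombination_apply_single, one_smul]
    rw [← h1]
    exact LinearMap.congr_fun hg _
  refine ⟨fun e v => g (Pi.single v 1) e, fun e e' => ?_⟩
  have h2 : k e' = ∑ v, k e' v • (Pi.single v 1 : V → ZMod 2) := by
    rw [← pi_eq_sum_univ' (k e')]
  have h3 : g (k e') e = ∑ v, k e' v * g (Pi.single v 1) e := by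
    conv_lhs => rw [h2]
    rw [map_sum, Finset.sum_apply]
    refine Finset.sum_congr rfl fun v _ => ?_
    rw [map_smul]
    rfl
  rw [hgk e', Pi.single_apply] at h3
  rw [h3]
  unfold dotProduct
  exact Finset.sum_congr rfl fun v _ => mul_comm _ _

/-- Fixing the values of the products of the rows of a random matrix with independent vectors. -/
lemma transform {E : Type} [Fintype E] [DecidableEq E] (k u : E → V → ZMod 2)
    (hu : ∀ e e', u e ⬝ᵥ k e' = if e = e' then 1 else 0)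
    (F : (Fin N → V → ZMod 2) → (E → Fin N → ZMod 2) → ℂ) :
    𝔼 A : Fin N → V → ZMod 2, F A (fun e r => A r ⬝ᵥ k e) =
      𝔼 z : E → Fin N → ZMod 2, 𝔼 A : Fin N → V → ZMod 2,
        F (A + fun r v => ∑ e, (z e r - A r ⬝ᵥ k e) * u e v) z := by
  have hdot : ∀ (A : Fin N → V → ZMod 2) (c : E → Fin N → ZMod 2) (r : Fin N) (e : E),
      (A + fun r v => ∑ e, c e r * u e v) r ⬝ᵥ k e = A r ⬝ᵥ k e + c e r := by
    intro A c r e
    rw [Pi.add_apply, add_dotProduct]
    congr 1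
    have : (fun v => ∑ e, c e r * u e v) = ∑ e', c e' r • u e' := by
      funext v
      rw [Finset.sum_apply]
      rfl
    rw [this, sum_dotProduct]
    simp only [smul_dotProduct, hu, smul_eq_mul, mul_ite, mul_one, mul_zero]
    simp
  symm
  rw [exp_comm]
  have h1 : ∀ A : Fin N → V → ZMod 2,
      𝔼 z : E → Fin N → ZMod 2, F (A + fun r v => ∑ e, (z e r - A r ⬝ᵥ k e) * u e v) z =
      𝔼 c : E → Fin N → ZMod 2, F (A + fun r v => ∑ e, c e r * u e v)
        (fun e r => (A + fun r v => ∑ e, c e r * u e v) r ⬝ᵥ k e) := by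
    intro A
    rw [← exp_shift (fun e r => A r ⬝ᵥ k e)]
    refine Finset.expect_congr rfl fun c _ => ?_
    congr 1
    · congr 1
      funext r v
      refine Finset.sum_congr rfl fun e _ => ?_
      rw [Pi.add_apply, Pi.add_apply, add_sub_cancel_right]
    · funext e r
      rw [hdot, add_comm]
      rfl
  rw [Finset.expect_congr rfl (fun A _ => h1 A), exp_comm]
  have h2 : ∀ c : E → Fin N → ZMod 2,
      𝔼 A : Fin N → V → ZMod 2, F (A + fun r v => ∑ e, c e r * u e v)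
        (fun e r => (A + fun r v => ∑ e, c e r * u e v) r ⬝ᵥ k e) =
      𝔼 A : Fin N → V → ZMod 2, F A (fun e r => A r ⬝ᵥ k e) := by
    intro c
    exact exp_shift (fun r v => ∑ e, c e r * u e v) (fun A => F A (fun e r => A r ⬝ᵥ k e))
  rw [Finset.expect_congr rfl (fun c _ => h2 c), Fintype.expect_const]

omit [DecidableEq V] in
/-- random families of spread vectors are linearly independent with high probability -/
lemma prob_dep [Nonempty ι] {E : Type} [Fintype E] [DecidableEq E] {ν : ℝ} (hν : 0 ≤ ν)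
    (h : ι → V → ZMod 2) (hh : Spread ν h) :
    𝔼 s : E → ι, (if (∃ g : E → ZMod 2, g ≠ 0 ∧ ∑ e, g e • h (s e) = 0) then (1 : ℝ) else 0) ≤
      2 ^ Fintype.card E * ν := by
  classical
  have h1 : ∀ s : E → ι,
      (if (∃ g : E → ZMod 2, g ≠ 0 ∧ ∑ e, g e • h (s e) = 0) then (1 : ℝ) else 0) ≤
      ∑ g ∈ (univ : Finset (E → ZMod 2)).erase 0,
        (if ∑ e, g e • h (s e) = 0 then (1 : ℝ) else 0) := by
    intro s
    split_ifs with h2
    · obtain ⟨g, hg, hs⟩ := h2
      have : (if ∑ e, g e • h (s e) = 0 then (1 : ℝ) else 0) ≤ ∑ g ∈ (univ : Finset (E → ZMod 2)).erase 0,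
        (if ∑ e, g e • h (s e) = 0 then (1 : ℝ) else 0) :=
        Finset.single_le_sum (f := fun g : E → ZMod 2 =>
          (if ∑ e, g e • h (s e) = 0 then (1 : ℝ) else 0))
          (fun g _ => by positivity) (Finset.mem_erase.2 ⟨hg, Finset.mem_univ g⟩)
      rwa [if_pos hs] at this
    · exact Finset.sum_nonneg fun g _ => by positivity
  refine (Finset.expect_le_expect (fun s _ => h1 s)).trans ?_
  rw [Finset.expect_sum_comm]
  have h3 : ∀ g ∈ (univ : Finset (E → ZMod 2)).erase 0,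
      𝔼 s : E → ι, (if ∑ e, g e • h (s e) = 0 then (1 : ℝ) else 0) ≤ ν := by
    intro g hg
    have hg0 : g ≠ 0 := (Finset.mem_erase.1 hg).1
    obtain ⟨e0, he0⟩ : ∃ e0, g e0 ≠ 0 := by
      by_contra hcon
      push Not at hcon
      exact hg0 (funext hcon)
    have he1 : g e0 = 1 := by
      have : ∀ a : ZMod 2, a ≠ 0 → a = 1 := by decide
      exact this _ he0
    -- split off the coordinate e0
    have h4 : 𝔼 s : E → ι, (if ∑ e, g e • h (s e) = 0 then (1 : ℝ) else 0) =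
        𝔼 p : ι × ({e : E // e ≠ e0} → ι), (if h p.1 = -∑ e : {e : E // e ≠ e0}, g e • h (p.2 e)
          then (1 : ℝ) else 0) := by
      refine Fintype.expect_equiv (Equiv.funSplitAt e0 ι) _ _ (fun s => ?_)
      have : ∑ e, g e • h (s e) = h (s e0) + ∑ e : {e : E // e ≠ e0}, g e • h (s e) := by
        rw [Fintype.sum_eq_add_sum_subtype_ne _ e0, he1, one_smul]
      rw [this, Equiv.funSplitAt_apply]
      simp only [add_eq_zero_iff_eq_neg]
    rw [h4, ← Finset.univ_product_univ, Finset.expect_product, Finset.expect_comm]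
    refine Finset.expect_le Finset.univ_nonempty (fun s' _ => ?_)
    have h5 := hh (-∑ e : {e : E // e ≠ e0}, g e • h (s' e))
    simp only
    convert h5
  refine (Finset.sum_le_card_nsmul _ _ _ h3).trans ?_
  rw [nsmul_eq_mul]
  refine mul_le_mul_of_nonneg_right ?_ hν
  have : ((univ : Finset (E → ZMod 2)).erase 0).card ≤ 2 ^ Fintype.card E := by
    refine (Finset.card_erase_le).trans ?_
    rw [Finset.card_univ, Fintype.card_fun, ZMod.card]
  exact_mod_cast this

/-- the characters average to zero -/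
lemma exp_chi (w : V → ZMod 2) (hw : w ≠ 0) : 𝔼 x : V → ZMod 2, chi (x ⬝ᵥ w) = 0 := by
  obtain ⟨v, hv⟩ : ∃ v, w v ≠ 0 := by
    by_contra hcon
    push Not at hcon
    exact hw (funext hcon)
  have h1 : w v = 1 := by
    have : ∀ a : ZMod 2, a ≠ 0 → a = 1 := by decide
    exact this _ hv
  have h2 := exp_shift (Pi.single v (1 : ZMod 2)) (fun x : V → ZMod 2 => chi (x ⬝ᵥ w))
  simp only [add_dotProduct, single_dotProduct, h1, mul_one, chi_add] at h2
  have h3 : chi 1 = -1 := by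
    unfold chi
    simp
  rw [h3] at h2
  simp only [mul_neg, mul_one, Finset.expect_neg_distrib] at h2
  have h4 : (2 : ℂ) * 𝔼 x : V → ZMod 2, chi (x ⬝ᵥ w) = 0 := by
    linear_combination -h2
  simpa using h4

lemma prod_norm_le_one {T : ℕ} (f : Fin T → ℂ) (hf : ∀ i, ‖f i‖ ≤ 1) : ‖∏ i, f i‖ ≤ 1 := by
  rw [norm_prod]
  exact Finset.prod_le_one (fun i _ => norm_nonneg _) (fun i _ => hf i)

omit [DecidableEq V] [Fintype ι] in
lemma lab_cons {T : ℕ} {E : Type} (h : Fin (T + 1) → ι → V → ZMod 2) (s0 : E → ι)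
    (s' : E → Fin T → ι) (a : Blk N V) (D' : Fin T → Blk N V) :
    lab h (fun e => Fin.cons (s0 e) (s' e)) (Fin.cons a D') =
      (fun e r => a.1 r ⬝ᵥ h 0 (s0 e)) + lab (fun i => h i.succ) s' D' := by
  funext e r
  unfold lab
  rw [Fin.sum_univ_succ]
  simp only [Fin.cons_zero, Fin.cons_succ, Pi.add_apply]

omit [DecidableEq V] [Fintype ι] in
lemma tgt_cons {T : ℕ} {E : Type} [Fintype E] (h : Fin (T + 1) → ι → V → ZMod 2) (s0 : E → ι)
    (s' : E → Fin T → ι) (a : Blk N V) (D' : Fin T → Blk N V) :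
    tgt h (fun e => Fin.cons (s0 e) (s' e)) (Fin.cons a D') =
      (∑ e, a.2 ⬝ᵥ h 0 (s0 e)) + tgt (fun i => h i.succ) s' D' := by
  unfold tgt
  rw [← Finset.sum_add_distrib]
  refine Finset.sum_congr rfl fun e _ => ?_
  rw [Fin.sum_univ_succ]
  simp only [Fin.cons_zero, Fin.cons_succ]

lemma nof_base [Nonempty ι] {ν : ℝ} (hν : 0 ≤ ν) (h : Fin 1 → ι → V → ZMod 2)
    (hh : ∀ i, Spread ν (h i)) (E : Type) [Fintype E] [DecidableEq E] [Nonempty E]
    (φ : Fin 1 → (E → Fin N → ZMod 2) → (Fin 1 → Blk N V) → ℂ)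
    (hφ : ∀ i z D, ‖φ i z D‖ ≤ 1) (hF : ∀ i z, Free i (φ i z)) :
    ‖𝔼 s : E → Fin 1 → ι, 𝔼 D : Fin 1 → Blk N V, (∏ i, φ i (lab h s D) D) * chi (tgt h s D)‖ ≤
      nb ν 0 (Fintype.card E) := by
  rw [exp_cons_fam]
  have h1 : ∀ s0 : E → ι, ‖𝔼 s' : E → Fin 0 → ι, 𝔼 D : Fin 1 → Blk N V,
      (∏ i, φ i (lab h (fun e => Fin.cons (s0 e) (s' e)) D) D) *
        chi (tgt h (fun e => Fin.cons (s0 e) (s' e)) D)‖ ≤
      (if (∃ g : E → ZMod 2, g ≠ 0 ∧ ∑ e, g e • h 0 (s0 e) = 0) then (1 : ℝ) else 0) := by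
    intro s0
    split_ifs with hdep
    · refine norm_exp_le_of _ 1 zero_le_one fun s' => norm_exp_le_of _ 1 zero_le_one fun D => ?_
      rw [norm_mul, chi_norm, mul_one]
      exact prod_norm_le_one _ (fun i => hφ i _ _)
    · rw [norm_le_zero_iff]
      refine Finset.expect_eq_zero fun s' _ => ?_
      rw [exp_cons, exp_comm]
      refine Finset.expect_eq_zero fun D' _ => ?_
      rw [exp_prod]
      refine Finset.expect_eq_zero fun X _ => ?_
      have hw : (∑ e, h 0 (s0 e)) ≠ 0 := by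
        intro h0
        refine hdep ⟨fun _ => 1, ?_, ?_⟩
        · intro h2
          obtain ⟨e⟩ := ‹Nonempty E›
          exact one_ne_zero (congrFun h2 e)
        · simpa using h0
      have h3 : ∀ x : V → ZMod 2,
          (∏ i, φ i (lab h (fun e => Fin.cons (s0 e) (s' e)) (Fin.cons (X, x) D'))
            (Fin.cons (X, x) D' : Fin 1 → Blk N V)) *
            chi (tgt h (fun e => Fin.cons (s0 e) (s' e)) (Fin.cons (X, x) D')) =
          φ 0 ((fun e r => X r ⬝ᵥ h 0 (s0 e)) + lab (fun i => h i.succ) s' D')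
            (Fin.cons (X, 0) D' : Fin 1 → Blk N V) * chi (x ⬝ᵥ ∑ e, h 0 (s0 e)) := by
        intro x
        rw [lab_cons, tgt_cons, Fin.prod_univ_one]
        have h4 : tgt (fun i => h i.succ) s' D' = 0 := by
          unfold tgt
          simp
        rw [h4, add_zero, dotProduct_sum]
        congr 1
        apply hF
        intro j hj
        exact absurd (Subsingleton.elim j 0) hj
      rw [Finset.expect_congr rfl (fun x _ => h3 x), ← Finset.mul_expect, exp_chi _ hw, mul_zero]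
  refine (norm_exp_le _).trans ((Finset.expect_le_expect (fun s0 _ => h1 s0)).trans ?_)
  exact prob_dep hν (h 0) (hh 0)

lemma exp_conj {α : Type*} [Fintype α] (f : α → ℂ) : conj (𝔼 a, f a) = 𝔼 a, conj (f a) := by
  rw [Fintype.expect_eq_sum_div_card, Fintype.expect_eq_sum_div_card, map_div₀, map_sum,
    map_natCast]

lemma reorder {S0 S' D X0 Z A : Type*} [Fintype S0] [Fintype S'] [Fintype D] [Fintype X0]
    [Fintype Z] [Fintype A] (Q : S0 → S' → D → X0 → Z → A → ℂ) :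
    𝔼 s0, 𝔼 s', 𝔼 d, 𝔼 x0, 𝔼 z, 𝔼 a, Q s0 s' d x0 z a =
      𝔼 z, 𝔼 d, 𝔼 p : S0 × X0 × A, 𝔼 s', Q p.1 s' d p.2.1 z p.2.2 := by
  have h1 : 𝔼 s0, 𝔼 s', 𝔼 d, 𝔼 x0, 𝔼 z, 𝔼 a, Q s0 s' d x0 z a =
      𝔼 p : S0 × S' × D × X0 × Z × A, Q p.1 p.2.1 p.2.2.1 p.2.2.2.1 p.2.2.2.2.1 p.2.2.2.2.2 := by
    simp only [exp_prod]
  have h2 : 𝔼 z, 𝔼 d, 𝔼 p : S0 × X0 × A, 𝔼 s', Q p.1 s' d p.2.1 z p.2.2 =
      𝔼 p : Z × D × (S0 × X0 × A) × S',
        Q p.2.2.1.1 p.2.2.2 p.2.1 p.2.2.1.2.1 p.1 p.2.2.1.2.2 := by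
    simp only [exp_prod]
  rw [h1, h2]
  exact Fintype.expect_equiv
    ⟨fun p => (p.2.2.2.2.1, p.2.2.1, (p.1, p.2.2.2.1, p.2.2.2.2.2), p.2.1),
      fun p => (p.2.2.1.1, p.2.2.2, p.2.1, p.2.2.1.2.1, p.1, p.2.2.1.2.2),
      fun _ => rfl, fun _ => rfl⟩ _ _ (fun _ => rfl)

lemma reorder2 {Z D P S : Type*} [Fintype D] [Fintype Z] [Fintype P] [Fintype S]
    (Q : Z → D → P → S → P → S → ℂ) :
    𝔼 z, 𝔼 d, 𝔼 p0, 𝔼 s0, 𝔼 p1, 𝔼 s1, Q z d p0 s0 p1 s1 =
      𝔼 z, 𝔼 p0, 𝔼 p1, 𝔼 s0, 𝔼 s1, 𝔼 d, Q z d p0 s0 p1 s1 := by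
  refine Finset.expect_congr rfl fun z _ => ?_
  have h1 : 𝔼 d, 𝔼 p0, 𝔼 s0, 𝔼 p1, 𝔼 s1, Q z d p0 s0 p1 s1 =
      𝔼 p : D × P × S × P × S, Q z p.1 p.2.1 p.2.2.1 p.2.2.2.1 p.2.2.2.2 := by
    simp only [exp_prod]
  have h2 : 𝔼 p0, 𝔼 p1, 𝔼 s0, 𝔼 s1, 𝔼 d, Q z d p0 s0 p1 s1 =
      𝔼 p : P × P × S × S × D, Q z p.2.2.2.2 p.1 p.2.2.1 p.2.1 p.2.2.2.1 := by
    simp only [exp_prod]
  rw [h1, h2]
  exact Fintype.expect_equiv
    ⟨fun p => (p.2.1, p.2.2.2.1, p.2.2.1, p.2.2.2.2, p.1),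
      fun p => (p.2.2.2.2, p.1, p.2.2.1, p.2.1, p.2.2.2.1),
      fun _ => rfl, fun _ => rfl⟩ _ _ (fun _ => rfl)

/-- the matrix with prescribed labels -/
def psi {E : Type} [Fintype E] (k u : E → V → ZMod 2) (A : Fin N → V → ZMod 2)
    (c : E → Fin N → ZMod 2) : Fin N → V → ZMod 2 :=
  A + fun r v => ∑ e, (c e r - A r ⬝ᵥ k e) * u e v

/-- dual families -/
def IsDual {E : Type} (u k : E → V → ZMod 2) : Prop :=
  (∀ e, u e ⬝ᵥ k e = 1) ∧ ∀ e e', e ≠ e' → u e ⬝ᵥ k e' = 0

open Classical in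
/-- the dual family, or anything -/
noncomputable def dualFam {E : Type} [Fintype E] (k : E → V → ZMod 2) : E → V → ZMod 2 :=
  if h : ∃ u : E → V → ZMod 2, IsDual u k then h.choose else fun _ _ => 0

lemma dualFam_spec {E : Type} [Fintype E] [DecidableEq E] (k : E → V → ZMod 2)
    (hk : ¬ ∃ g : E → ZMod 2, g ≠ 0 ∧ ∑ e, g e • k e = 0) :
    ∀ e e', dualFam k e ⬝ᵥ k e' = if e = e' then 1 else 0 := by
  classical
  have hli : LinearIndependent (ZMod 2) k := by
    rw [Fintype.linearIndependent_iff]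
    intro g hg
    by_contra hcon
    push Not at hcon
    obtain ⟨e, he⟩ := hcon
    exact hk ⟨g, fun h0 => he (congrFun h0 e), hg⟩
  obtain ⟨u, hu⟩ := exists_dual k hli
  have h' : ∃ u : E → V → ZMod 2, IsDual u k :=
    ⟨u, fun e => by rw [hu, if_pos rfl], fun e e' h => by rw [hu, if_neg h]⟩
  have h2 : dualFam k = h'.choose := by
    unfold dualFam
    rw [dif_pos h']
  have h3 := h'.choose_spec
  rw [← h2] at h3
  intro e e'
  split_ifs with he
  · rw [he]; exact h3.1 e'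
  · exact h3.2 e e' he

section step

variable {T : ℕ} {E : Type} [Fintype E] [DecidableEq E]

/-- parameters -/
abbrev Par (N : ℕ) (V ι E : Type) := (E → ι) × (V → ZMod 2) × (Fin N → V → ZMod 2)

open Classical in
/-- zero for dependent families, one for independent families -/
noncomputable def dep (k : E → V → ZMod 2) : ℂ :=
  if (∃ g : E → ZMod 2, g ≠ 0 ∧ ∑ e, g e • k e = 0) then 0 else 1

/-- the new block -/
noncomputable def nblk (h0 : ι → V → ZMod 2) (p : Par N V ι E) (c : E → Fin N → ZMod 2) :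
    Blk N V :=
  (psi (fun e => h0 (p.1 e)) (dualFam (fun e => h0 (p.1 e))) p.2.2 c, p.2.1)

/-- the functions of the other blocks, with the labels `z` and the partial labels `w` -/
noncomputable def HH (h : Fin (T + 2) → ι → V → ZMod 2)
    (φ : Fin (T + 2) → (E → Fin N → ZMod 2) → (Fin (T + 2) → Blk N V) → ℂ)
    (p : Par N V ι E) (z w : E → Fin N → ZMod 2) (D' : Fin (T + 1) → Blk N V) : ℂ :=
  dep (fun e => h 0 (p.1 e)) * chi (∑ e, p.2.1 ⬝ᵥ h 0 (p.1 e)) *
    ∏ i : Fin (T + 1), φ i.succ z (Fin.cons (nblk (h 0) p (z - w)) D')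

lemma good_part (h : Fin (T + 2) → ι → V → ZMod 2)
    (φ : Fin (T + 2) → (E → Fin N → ZMod 2) → (Fin (T + 2) → Blk N V) → ℂ)
    (hF : ∀ i z, Free i (φ i z)) :
    𝔼 s0 : E → ι, dep (fun e => h 0 (s0 e)) *
      𝔼 s' : E → Fin (T + 1) → ι, 𝔼 D : Fin (T + 2) → Blk N V,
        (∏ i, φ i (lab h (fun e => Fin.cons (s0 e) (s' e)) D) D) *
          chi (tgt h (fun e => Fin.cons (s0 e) (s' e)) D) =
    𝔼 z : E → Fin N → ZMod 2, 𝔼 D' : Fin (T + 1) → Blk N V, φ 0 z (Fin.cons 0 D') *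
      𝔼 p : Par N V ι E, 𝔼 s' : E → Fin (T + 1) → ι,
        HH h φ p z (lab (fun i => h i.succ) s' D') D' * chi (tgt (fun i => h i.succ) s' D') := by
  have h1 : ∀ s0 : E → ι, dep (fun e => h 0 (s0 e)) *
      𝔼 s' : E → Fin (T + 1) → ι, 𝔼 D : Fin (T + 2) → Blk N V,
        (∏ i, φ i (lab h (fun e => Fin.cons (s0 e) (s' e)) D) D) *
          chi (tgt h (fun e => Fin.cons (s0 e) (s' e)) D) =
      𝔼 s' : E → Fin (T + 1) → ι, 𝔼 D' : Fin (T + 1) → Blk N V, 𝔼 x0 : V → ZMod 2,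
        𝔼 z : E → Fin N → ZMod 2, 𝔼 A : Fin N → V → ZMod 2,
          φ 0 z (Fin.cons 0 D') * (HH h φ (s0, x0, A) z (lab (fun i => h i.succ) s' D') D' *
            chi (tgt (fun i => h i.succ) s' D')) := by
    intro s0
    by_cases hdep : ∃ g : E → ZMod 2, g ≠ 0 ∧ ∑ e, g e • h 0 (s0 e) = 0
    · have h2 : dep (fun e => h 0 (s0 e)) = 0 := by
        unfold dep
        rw [if_pos hdep]
      have h3 : ∀ (x0 : V → ZMod 2) (z w : E → Fin N → ZMod 2) (A : Fin N → V → ZMod 2)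
          (D' : Fin (T + 1) → Blk N V), HH h φ (s0, x0, A) z w D' = 0 := by
        intro x0 z w A D'
        unfold HH
        simp only [h2, zero_mul]
      simp only [h2, h3, zero_mul, mul_zero, Finset.expect_const_zero]
    · have h2 : dep (fun e => h 0 (s0 e)) = 1 := by
        unfold dep
        rw [if_neg hdep]
      rw [h2, one_mul]
      refine Finset.expect_congr rfl fun s' _ => ?_
      rw [exp_cons, exp_comm]
      refine Finset.expect_congr rfl fun D' _ => ?_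
      rw [exp_prod, exp_comm]
      refine Finset.expect_congr rfl fun x0 _ => ?_
      set w := lab (fun i => h i.succ) s' D' with hw
      set k : E → V → ZMod 2 := fun e => h 0 (s0 e) with hk
      set F : (Fin N → V → ZMod 2) → (E → Fin N → ZMod 2) → ℂ := fun X c =>
        φ 0 (c + w) (Fin.cons 0 D') * ((chi (∑ e, x0 ⬝ᵥ k e) *
          ∏ i : Fin (T + 1), φ i.succ (c + w) (Fin.cons (X, x0) D')) *
            chi (tgt (fun i => h i.succ) s' D')) with hFd
      have h4 : ∀ X : Fin N → V → ZMod 2,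
          (∏ i, φ i (lab h (fun e => Fin.cons (s0 e) (s' e)) (Fin.cons (X, x0) D'))
            (Fin.cons (X, x0) D')) *
            chi (tgt h (fun e => Fin.cons (s0 e) (s' e)) (Fin.cons (X, x0) D')) =
          F X (fun e r => X r ⬝ᵥ k e) := by
        intro X
        rw [lab_cons, tgt_cons, chi_add, Fin.prod_univ_succ, hFd]
        simp only
        have h5 : φ 0 ((fun e r => X r ⬝ᵥ h 0 (s0 e)) + lab (fun i => h i.succ) s' D')
            (Fin.cons (X, x0) D') =
            φ 0 ((fun e r => X r ⬝ᵥ k e) + w) (Fin.cons 0 D') := by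
          apply hF
          intro j hj
          obtain ⟨j', rfl⟩ := Fin.exists_succ_eq.2 hj
          rw [Fin.cons_succ, Fin.cons_succ]
        rw [h5, ← hw]
        ring
      rw [Finset.expect_congr rfl (fun X _ => h4 X),
        transform k (dualFam k) (dualFam_spec k hdep) F]
      rw [← exp_shift (-w)]
      refine Finset.expect_congr rfl fun z _ => Finset.expect_congr rfl fun A _ => ?_
      rw [hFd]
      simp only [neg_add_cancel_right]
      unfold HH nblk psi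
      rw [h2, one_mul, ← sub_eq_add_neg]
  rw [Finset.expect_congr rfl (fun s0 _ => h1 s0), reorder]
  refine Finset.expect_congr rfl fun z _ => Finset.expect_congr rfl fun D' _ => ?_
  rw [Finset.mul_expect]
  refine Finset.expect_congr rfl fun p _ => ?_
  rw [Finset.mul_expect]

/-- the functions of the doubled problem -/
noncomputable def dfun (h : Fin (T + 2) → ι → V → ZMod 2)
    (φ : Fin (T + 2) → (E → Fin N → ZMod 2) → (Fin (T + 2) → Blk N V) → ℂ)
    (z : E → Fin N → ZMod 2) (p0 p1 : Par N V ι E) :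
    Fin (T + 1) → (E × Bool → Fin N → ZMod 2) → (Fin (T + 1) → Blk N V) → ℂ :=
  fun i w D' => φ i.succ z (Fin.cons (nblk (h 0) p0 (z - fun e => w (e, false))) D') *
    conj (φ i.succ z (Fin.cons (nblk (h 0) p1 (z - fun e => w (e, true))) D'))

omit [DecidableEq V] in
lemma dep_norm (k : E → V → ZMod 2) : ‖dep k‖ ≤ 1 := by
  unfold dep; split_ifs <;> simp

omit [Fintype ι] in
lemma double_eq (h : Fin (T + 2) → ι → V → ZMod 2)
    (φ : Fin (T + 2) → (E → Fin N → ZMod 2) → (Fin (T + 2) → Blk N V) → ℂ)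
    (z : E → Fin N → ZMod 2) (p0 p1 : Par N V ι E) (s : E × Bool → Fin (T + 1) → ι)
    (D' : Fin (T + 1) → Blk N V) :
    (HH h φ p0 z (lab (fun i => h i.succ) (fun e => s (e, false)) D') D' *
        chi (tgt (fun i => h i.succ) (fun e => s (e, false)) D')) *
      conj (HH h φ p1 z (lab (fun i => h i.succ) (fun e => s (e, true)) D') D' *
        chi (tgt (fun i => h i.succ) (fun e => s (e, true)) D')) =
    ((dep (fun e => h 0 (p0.1 e)) * chi (∑ e, p0.2.1 ⬝ᵥ h 0 (p0.1 e))) *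
      conj (dep (fun e => h 0 (p1.1 e)) * chi (∑ e, p1.2.1 ⬝ᵥ h 0 (p1.1 e)))) *
    ((∏ i, dfun h φ z p0 p1 i (lab (fun i => h i.succ) s D') D') *
      chi (tgt (fun i => h i.succ) s D')) := by
  have h1 : tgt (fun i => h i.succ) s D' =
      tgt (fun i => h i.succ) (fun e => s (e, false)) D' +
        tgt (fun i => h i.succ) (fun e => s (e, true)) D' := by
    unfold tgt
    rw [Fintype.sum_prod_type, ← Finset.sum_add_distrib]
    refine Finset.sum_congr rfl fun e _ => ?_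
    rw [Fintype.sum_bool, add_comm]
  have h2 : ∀ b : Bool, (fun e => lab (fun i => h i.succ) s D' (e, b)) =
      lab (fun i => h i.succ) (fun e => s (e, b)) D' := fun b => rfl
  rw [h1, chi_add]
  unfold HH dfun
  simp only [h2, Finset.prod_mul_distrib, map_mul, map_prod, chi_conj]
  ring

lemma cs_part (h : Fin (T + 2) → ι → V → ZMod 2)
    (φ : Fin (T + 2) → (E → Fin N → ZMod 2) → (Fin (T + 2) → Blk N V) → ℂ)
    (hφ : ∀ i z D, ‖φ i z D‖ ≤ 1) (hF : ∀ i z, Free i (φ i z)) (B : ℝ)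
    (hB : ∀ φ' : Fin (T + 1) → (E × Bool → Fin N → ZMod 2) → (Fin (T + 1) → Blk N V) → ℂ,
      (∀ i z D, ‖φ' i z D‖ ≤ 1) → (∀ i z, Free i (φ' i z)) →
      ‖𝔼 s : E × Bool → Fin (T + 1) → ι, 𝔼 D : Fin (T + 1) → Blk N V,
        (∏ i, φ' i (lab (fun i => h i.succ) s D) D) * chi (tgt (fun i => h i.succ) s D)‖ ≤ B) :
    ‖𝔼 z : E → Fin N → ZMod 2, 𝔼 D' : Fin (T + 1) → Blk N V, φ 0 z (Fin.cons 0 D') *
      𝔼 p : Par N V ι E, 𝔼 s' : E → Fin (T + 1) → ι,
        HH h φ p z (lab (fun i => h i.succ) s' D') D' * chi (tgt (fun i => h i.succ) s' D')‖ ≤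
      Real.sqrt B := by
  have hB0 : 0 ≤ B := le_trans (norm_nonneg _)
    (hB (fun _ _ _ => 0) (fun _ _ _ => by simp) (fun _ _ _ _ _ => rfl))
  set g : (E → Fin N → ZMod 2) → (Fin (T + 1) → Blk N V) → ℂ := fun z D' =>
    𝔼 p : Par N V ι E, 𝔼 s' : E → Fin (T + 1) → ι,
        HH h φ p z (lab (fun i => h i.succ) s' D') D' * chi (tgt (fun i => h i.succ) s' D') with hg
  apply Real.le_sqrt_of_sq_le
  -- Cauchy-Schwarz
  have h1 : ‖𝔼 z : E → Fin N → ZMod 2, 𝔼 D' : Fin (T + 1) → Blk N V,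
      φ 0 z (Fin.cons 0 D') * g z D'‖ ^ 2 ≤
      𝔼 q : (E → Fin N → ZMod 2) × (Fin (T + 1) → Blk N V), ‖g q.1 q.2‖ ^ 2 := by
    rw [← exp_prod (fun q : (E → Fin N → ZMod 2) × (Fin (T + 1) → Blk N V) =>
      φ 0 q.1 (Fin.cons 0 q.2) * g q.1 q.2)]
    refine (norm_sq_exp_le _).trans (Finset.expect_le_expect fun q _ => ?_)
    rw [norm_mul]
    refine pow_le_pow_left₀ (by positivity) ?_ 2
    exact mul_le_of_le_one_left (norm_nonneg _) (hφ _ _ _)
  refine h1.trans ?_
  have h2 : ((𝔼 q : (E → Fin N → ZMod 2) × (Fin (T + 1) → Blk N V), ‖g q.1 q.2‖ ^ 2 : ℝ) : ℂ) =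
      𝔼 z : E → Fin N → ZMod 2, 𝔼 p0 : Par N V ι E, 𝔼 p1 : Par N V ι E,
        ((dep (fun e => h 0 (p0.1 e)) * chi (∑ e, p0.2.1 ⬝ᵥ h 0 (p0.1 e))) *
          conj (dep (fun e => h 0 (p1.1 e)) * chi (∑ e, p1.2.1 ⬝ᵥ h 0 (p1.1 e)))) *
        𝔼 s : E × Bool → Fin (T + 1) → ι, 𝔼 D' : Fin (T + 1) → Blk N V,
          ((∏ i, dfun h φ z p0 p1 i (lab (fun i => h i.succ) s D') D') *
            chi (tgt (fun i => h i.succ) s D')) := by
    have h3 : ((𝔼 q : (E → Fin N → ZMod 2) × (Fin (T + 1) → Blk N V),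
        ‖g q.1 q.2‖ ^ 2 : ℝ) : ℂ) =
        𝔼 z : E → Fin N → ZMod 2, 𝔼 D' : Fin (T + 1) → Blk N V, g z D' * conj (g z D') := by
      rw [← exp_prod (fun q : (E → Fin N → ZMod 2) × (Fin (T + 1) → Blk N V) =>
        g q.1 q.2 * conj (g q.1 q.2))]
      rw [Fintype.expect_eq_sum_div_card, Fintype.expect_eq_sum_div_card]
      push_cast
      congr 1
      refine Finset.sum_congr rfl fun q _ => ?_
      rw [Complex.mul_conj, Complex.normSq_eq_norm_sq]
      push_cast
      rfl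
    rw [h3]
    have h4 : ∀ (z : E → Fin N → ZMod 2) (D' : Fin (T + 1) → Blk N V),
        g z D' * conj (g z D') =
        𝔼 p0 : Par N V ι E, 𝔼 s0 : E → Fin (T + 1) → ι, 𝔼 p1 : Par N V ι E,
          𝔼 s1 : E → Fin (T + 1) → ι,
          (HH h φ p0 z (lab (fun i => h i.succ) s0 D') D' * chi (tgt (fun i => h i.succ) s0 D')) *
          conj (HH h φ p1 z (lab (fun i => h i.succ) s1 D') D' *
            chi (tgt (fun i => h i.succ) s1 D')) := by
      intro z D'
      rw [hg]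
      simp only [exp_conj]
      rw [Finset.expect_mul]
      refine Finset.expect_congr rfl fun p0 _ => ?_
      rw [Finset.expect_mul]
      refine Finset.expect_congr rfl fun s0 _ => ?_
      rw [Finset.mul_expect]
      refine Finset.expect_congr rfl fun p1 _ => ?_
      rw [Finset.mul_expect]
    rw [Finset.expect_congr rfl (fun z _ => Finset.expect_congr rfl (fun D' _ => h4 z D')),
      reorder2]
    refine Finset.expect_congr rfl fun z _ => Finset.expect_congr rfl fun p0 _ =>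
      Finset.expect_congr rfl fun p1 _ => ?_
    rw [exp_double, Finset.mul_expect]
    refine Finset.expect_congr rfl fun s _ => ?_
    rw [Finset.mul_expect]
    refine Finset.expect_congr rfl fun D' _ => ?_
    exact double_eq h φ z p0 p1 s D'
  have h5 : (𝔼 q : (E → Fin N → ZMod 2) × (Fin (T + 1) → Blk N V), ‖g q.1 q.2‖ ^ 2 : ℝ) ≤
      ‖((𝔼 q : (E → Fin N → ZMod 2) × (Fin (T + 1) → Blk N V), ‖g q.1 q.2‖ ^ 2 : ℝ) : ℂ)‖ := by
    rw [Complex.norm_real]
    exact le_abs_self _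
  refine h5.trans ?_
  rw [h2]
  refine norm_exp_le_of _ B hB0 fun z => norm_exp_le_of _ B hB0 fun p0 =>
    norm_exp_le_of _ B hB0 fun p1 => ?_
  rw [norm_mul]
  have h6 : ‖(dep (fun e => h 0 (p0.1 e)) * chi (∑ e, p0.2.1 ⬝ᵥ h 0 (p0.1 e))) *
          conj (dep (fun e => h 0 (p1.1 e)) * chi (∑ e, p1.2.1 ⬝ᵥ h 0 (p1.1 e)))‖ ≤ 1 := by
    rw [norm_mul, RCLike.norm_conj, norm_mul, norm_mul, chi_norm, chi_norm, mul_one, mul_one]
    exact mul_le_one₀ (dep_norm _) (norm_nonneg _) (dep_norm _)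
  refine (mul_le_of_le_one_left (norm_nonneg _) h6).trans (hB _ ?_ ?_)
  · intro i w D
    unfold dfun
    rw [norm_mul, RCLike.norm_conj]
    exact mul_le_one₀ (hφ _ _ _) (norm_nonneg _) (hφ _ _ _)
  · intro i w D D2 hD
    unfold dfun
    have h7 : ∀ b : Blk N V, φ i.succ z (Fin.cons b D) = φ i.succ z (Fin.cons b D2) := by
      intro b
      apply hF
      intro j hj
      refine Fin.cases ?_ (fun j' => ?_) j (motive := fun j => j ≠ i.succ →
        (Fin.cons b D : Fin (T + 2) → Blk N V) j = (Fin.cons b D2 : Fin (T + 2) → Blk N V) j) hj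
      · intro _; rfl
      · intro hj'
        rw [Fin.cons_succ, Fin.cons_succ]
        exact hD j' (fun h0 => hj' (by rw [h0]))
    rw [h7, h7]

end step

/-- **Discrepancy of hidden parities** (number on the forehead). -/
theorem nof_main [Nonempty ι] {ν : ℝ} (hν : 0 ≤ ν) : ∀ (T : ℕ) (h : Fin (T + 1) → ι → V → ZMod 2)
    (_ : ∀ i, Spread ν (h i)) (E : Type) [Fintype E] [DecidableEq E] [Nonempty E]
    (φ : Fin (T + 1) → (E → Fin N → ZMod 2) → (Fin (T + 1) → Blk N V) → ℂ)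
    (_ : ∀ i z D, ‖φ i z D‖ ≤ 1) (_ : ∀ i z, Free i (φ i z)),
    ‖𝔼 s : E → Fin (T + 1) → ι, 𝔼 D : Fin (T + 1) → Blk N V,
      (∏ i, φ i (lab h s D) D) * chi (tgt h s D)‖ ≤ nb ν T (Fintype.card E) := by
  intro T
  induction T with
  | zero =>
    intro h hh E _ _ _ φ hφ hF
    exact nof_base hν h hh E φ hφ hF
  | succ T ih =>
    intro h hh E _ _ _ φ hφ hF
    classical
    rw [exp_cons_fam]
    set K : (E → ι) → ℂ := fun s0 => 𝔼 s' : E → Fin (T + 1) → ι, 𝔼 D : Fin (T + 2) → Blk N V,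
        (∏ i, φ i (lab h (fun e => Fin.cons (s0 e) (s' e)) D) D) *
          chi (tgt h (fun e => Fin.cons (s0 e) (s' e)) D) with hK
    have hK1 : ∀ s0, ‖K s0‖ ≤ 1 := by
      intro s0
      refine norm_exp_le_of _ 1 zero_le_one fun s' => norm_exp_le_of _ 1 zero_le_one fun D => ?_
      rw [norm_mul, chi_norm, mul_one]
      exact prod_norm_le_one _ (fun i => hφ i _ _)
    have hsplit : 𝔼 s0, K s0 = 𝔼 s0, (1 - dep (fun e => h 0 (s0 e))) * K s0 +
        𝔼 s0, dep (fun e => h 0 (s0 e)) * K s0 := by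
      rw [← Finset.expect_add_distrib]
      refine Finset.expect_congr rfl fun s0 _ => ?_
      ring
    show ‖𝔼 s0, K s0‖ ≤ _
    rw [hsplit]
    refine (norm_add_le _ _).trans ?_
    show _ ≤ 2 ^ Fintype.card E * ν + Real.sqrt (nb ν T (2 * Fintype.card E))
    refine add_le_add ?_ ?_
    · refine (norm_exp_le _).trans (le_trans ?_ (prob_dep hν (h 0) (hh 0)))
      refine Finset.expect_le_expect fun s0 _ => ?_
      rw [norm_mul]
      unfold dep
      split_ifs
      · rw [sub_zero, norm_one, one_mul]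
        exact hK1 s0
      · simp
    · rw [hK, good_part h φ hF]
      refine cs_part h φ hφ hF _ ?_
      intro φ' hφ' hF'
      have h1 := ih (fun i => h i.succ) (fun i => hh i.succ) (E × Bool) φ' hφ' hF'
      rwa [Fintype.card_prod, Fintype.card_bool, mul_comm] at h1

end nof

end Pool.Agent.Run7.h284.DL
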