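import Pool.Agent.Run7.h284.DL.Fam

/-!
# Numbers
-/

namespace Pool.Agent.Run7.h284.DL

open Finset
open scoped BigOperators

lemma log_small (m : ℕ) (hm : 20736 ≤ m) :
    Real.logb 2 m * (Real.sqrt m + 1) ≤ m := by
  have hmR : (20736 : ℝ) ≤ m := by exact_mod_cast hm
  have hm0 : (0 : ℝ) < m := by linarith
  set q : ℝ := Real.sqrt (Real.sqrt m) with hq
  have hq2 : q ^ 2 = Real.sqrt m := Real.sq_sqrt (Real.sqrt_nonneg _)
  have hq4 : q ^ 4 = (m : ℝ) := by
    calc q ^ 4 = (q ^ 2) ^ 2 := by ring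
      _ = (m : ℝ) := by rw [hq2, Real.sq_sqrt hm0.le]
  have hq12 : 12 ≤ q := by
    rw [hq]
    apply Real.le_sqrt_of_sq_le
    apply Real.le_sqrt_of_sq_le
    calc ((12 : ℝ) ^ 2) ^ 2 = 20736 := by norm_num
      _ ≤ m := hmR
  have hq0 : 0 < q := by linarith
  have hlog : Real.logb 2 m ≤ 6 * q := by
    have h1 : Real.log m = 4 * Real.log q := by
      rw [← hq4, Real.log_pow]; push_cast; ring
    have h2 : Real.log q ≤ q - 1 := Real.log_le_sub_one_of_pos hq0
    have h3 : (0.69 : ℝ) < Real.log 2 := by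
      have := Real.log_two_gt_d9
      linarith
    unfold Real.logb
    rw [div_le_iff₀ (by linarith), h1]
    nlinarith
  calc Real.logb 2 m * (Real.sqrt m + 1) ≤ (6 * q) * (q ^ 2 + q ^ 2) := by
        rw [← hq2]
        apply mul_le_mul hlog _ (by positivity) (by positivity)
        nlinarith
    _ = 12 * q ^ 3 := by ring
    _ ≤ q * q ^ 3 := mul_le_mul_of_nonneg_right hq12 (by positivity)
    _ = (m : ℝ) := by rw [← hq4]; ring

lemma numbers (m t : ℕ) (hm : 20736 ≤ m) (ht : 2 * ((t : ℝ) + 1) ≤ Real.logb 2 m) :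
    ∃ n k : ℕ, k ≤ n ∧ (t + 1) * n ≤ m ∧ 2 ^ ((t + 1) * k) ≤ m ∧
      (((t + 1) * k : ℕ) : ℝ) ≤ Real.logb 2 m ∧
      1 / (n.choose k : ℝ) ≤ (2 : ℝ) ^ (-(Real.logb 2 m ^ 2 / (4 * (t + 1)))) := by
  set l := Real.logb 2 m with hl
  have hmR : (20736 : ℝ) ≤ m := by exact_mod_cast hm
  have hm0 : (0 : ℝ) < m := by linarith
  have ht0 : (0 : ℝ) < (t : ℝ) + 1 := by positivity
  have hl0 : 0 < l := by linarith
  have h2l : (2 : ℝ) ^ l = m := Real.rpow_logb (by norm_num) (by norm_num) hm0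
  set k := ⌊l / (t + 1)⌋₊ with hk
  set n := m / (t + 1) with hn
  have hk1 : (k : ℝ) ≤ l / (t + 1) := Nat.floor_le (by positivity)
  have hk2 : l / (t + 1) < k + 1 := Nat.lt_floor_add_one _
  have hlt : 2 ≤ l / (t + 1) := by rw [le_div_iff₀ ht0]; linarith
  have hk3 : l / (2 * (t + 1)) ≤ k := by
    have : l / (2 * (t + 1)) = (l / (t + 1)) / 2 := by
      rw [div_div, mul_comm (2 : ℝ)]
    rw [this]
    linarith
  have hkpos : 1 ≤ k := by
    have : (1 : ℝ) < (k : ℝ) + 1 := by linarith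
    have h : (0 : ℝ) < k := by linarith
    exact_mod_cast h
  have hkt : ((t : ℝ) + 1) * k ≤ l := by
    rw [le_div_iff₀ ht0] at hk1
    linarith
  have hn1 : (m : ℝ) / (t + 1) < n + 1 := by
    rw [div_lt_iff₀ ht0]
    have h1 : m < (n + 1) * (t + 1) := by
      have e1 := Nat.div_add_mod m (t + 1)
      have e2 : m % (t + 1) < t + 1 := Nat.mod_lt m (Nat.succ_pos t)
      rw [← hn] at e1
      calc m = (t + 1) * n + m % (t + 1) := e1.symm
        _ < (t + 1) * n + (t + 1) := by omega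
        _ = (n + 1) * (t + 1) := by ring
    exact_mod_cast h1
  have hmain : Real.sqrt m * k ≤ n + 1 - k := by
    have h1 := log_small m hm
    rw [← hl] at h1
    have h2 : Real.sqrt m * k ≤ Real.sqrt m * (l / (t + 1)) :=
      mul_le_mul_of_nonneg_left hk1 (Real.sqrt_nonneg _)
    have h3 : Real.sqrt m * (l / (t + 1)) + l / (t + 1) ≤ m / (t + 1) := by
      rw [← mul_div_assoc, ← add_div]
      apply div_le_div_of_nonneg_right _ ht0.le
      linarith
    linarith
  have hkn : k ≤ n := by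
    have h1 : 1 ≤ Real.sqrt m := by
      rw [Real.one_le_sqrt]; linarith
    have h2 : (1 : ℝ) ≤ k := by exact_mod_cast hkpos
    have h3 : (1 : ℝ) ≤ n + 1 - k := le_trans (by nlinarith) hmain
    have : (k : ℝ) ≤ n := by linarith
    exact_mod_cast this
  refine ⟨n, k, hkn, Nat.mul_div_le m (t + 1), ?_, ?_, ?_⟩
  · have h1 : ((2 : ℝ) ^ ((t + 1) * k)) ≤ m := by
      rw [← h2l, ← Real.rpow_natCast]
      apply Real.rpow_le_rpow_of_exponent_le (by norm_num)
      push_cast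
      exact hkt
    exact_mod_cast h1
  · push_cast
    exact hkt
  · have hchoose : Real.sqrt m ^ k ≤ (n.choose k : ℝ) := by
      have h1 := Nat.pow_le_choose k n (α := ℝ)
      have h2 : ((k.factorial : ℕ) : ℝ) ≤ (k : ℝ) ^ k := by
        exact_mod_cast Nat.factorial_le_pow k
      have hkR : (0 : ℝ) < k := by exact_mod_cast hkpos
      have h3 : (Real.sqrt m * k) ^ k ≤ (((n + 1 - k : ℕ) : ℝ)) ^ k := by
        apply pow_le_pow_left₀ (by positivity)
        rw [Nat.cast_sub (by omega)]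
        push_cast
        exact hmain
      have h4 : Real.sqrt m ^ k * (k : ℝ) ^ k ≤ (n.choose k : ℝ) * (k : ℝ) ^ k := by
        calc Real.sqrt m ^ k * (k : ℝ) ^ k = (Real.sqrt m * k) ^ k := by rw [mul_pow]
          _ ≤ (((n + 1 - k : ℕ) : ℝ)) ^ k := h3
          _ ≤ (k.factorial : ℝ) * n.choose k := by
              rw [div_le_iff₀ (by positivity)] at h1
              rw [mul_comm]
              exact_mod_cast h1
          _ ≤ (k : ℝ) ^ k * n.choose k := mul_le_mul_of_nonneg_right h2 (Nat.cast_nonneg _)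
          _ = _ := mul_comm _ _
      exact le_of_mul_le_mul_right h4 (by positivity)
    have hpow : (2 : ℝ) ^ (l ^ 2 / (4 * (t + 1))) ≤ Real.sqrt m ^ k := by
      have h1 : Real.sqrt m = (2 : ℝ) ^ (l / 2) := by
        rw [Real.sqrt_eq_rpow, ← h2l, ← Real.rpow_mul (by norm_num)]
        congr 1
        ring
      rw [h1, ← Real.rpow_mul_natCast (by norm_num)]
      apply Real.rpow_le_rpow_of_exponent_le (by norm_num)
      have h2 : l ^ 2 / (4 * (t + 1)) = l / 2 * (l / (2 * (t + 1))) := by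
        field_simp
        ring
      rw [h2]
      exact mul_le_mul_of_nonneg_left hk3 (by positivity)
    rw [Real.rpow_neg (by norm_num), ← one_div]
    exact one_div_le_one_div_of_le (by positivity) (hpow.trans hchoose)

open DNFPrediction Pool.Agent.H994R2.JL in
/-- the explicit theorem -/
theorem explicit (m t : ℕ) (hm : 20736 ≤ m) (ht : 2 * ((t : ℝ) + 1) ≤ Real.logb 2 m) :
    ∃ (r : ℕ) (F : Fin (r + 1) → DNF m),
      (∀ i, (F i).card ≤ m ∧ ∀ c ∈ F i, (c.card : ℝ) ≤ Real.logb 2 m) ∧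
      (∀ (N R B : ℕ) (P : ThresholdPredictor m N R), P.ReadsLE t → P.BitsLE B →
        |(∑ i, P.success (F i).eval) / (r + 1) - 1 / 2| ≤ 3 * (B + 1) * (t + 2) ^ 3 *
          (2 : ℝ) ^ (-(Real.logb 2 m ^ 2 / ((t + 1) * 2 ^ (t + 2))))) ∧
      (∀ (N R B : ℕ) (P : DepthTwoPredictor m N R), (∀ g, (P.gate g).ReadsLE t) →
        (∀ g, (P.gate g).BitsLE B) →
        (∑ i, P.success (F i).eval) / (r + 1) ≤ 1 - 1 / (2 * P.total + 2) +
          2 * (B + 1) * (t + 2) ^ 3 *
          (2 : ℝ) ^ (-(Real.logb 2 m ^ 2 / ((t + 1) * 2 ^ (t + 2))))) := by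
  classical
  obtain ⟨n, k, hkn, hnm, hterms, hlits, hch⟩ := numbers m t hm ht
  set l := Real.logb 2 m with hl
  have : Fact (k ≤ n) := ⟨hkn⟩
  set x : ℝ := (2 : ℝ) ^ (-(l ^ 2 / ((t + 1) * 2 ^ (t + 2)))) with hx
  have hx0 : 0 ≤ x := by positivity
  have hx1 : x ≤ 1 := by
    rw [hx]
    apply Real.rpow_le_one_of_one_le_of_nonpos (by norm_num)
    rw [neg_nonpos]
    positivity
  set ν : ℝ := x ^ (2 ^ t) with hν
  have hν0 : 0 ≤ ν := by positivity
  have hνeq : ν = (2 : ℝ) ^ (-(l ^ 2 / (4 * (t + 1)))) := by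
    rw [hν, hx, ← Real.rpow_mul_natCast (by norm_num)]
    congr 1
    push_cast
    rw [pow_add]
    field_simp
    ring
  have hnb := nb_le (ν := ν) t 1 x hx0 hx1 rfl
  have hnb0 := nb_nonneg hν0 t 1
  have hsp : ∀ i (A : Finset (Fin m)),
      𝔼 a : Idx n k, (if hidf hnm i a = A then (1 : ℝ) else 0) ≤ ν := by
    intro i A
    refine (hidf_spread hnm i A).trans ?_
    rw [hνeq]
    exact hch
  -- the index set
  let e := Fintype.equivFin (Fin (t + 1) → Idx n k)
  obtain ⟨r, hr⟩ : ∃ r, Fintype.card (Fin (t + 1) → Idx n k) = r + 1 :=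
    Nat.exists_eq_succ_of_ne_zero Fintype.card_ne_zero
  let e' : (Fin (t + 1) → Idx n k) ≃ Fin (r + 1) := e.trans (finCongr hr)
  have hT : (0 : ℝ) ≤ t := Nat.cast_nonneg t
  refine ⟨r, fun i => parDNF (hset (hidf hnm) (e'.symm i)), ?_, ?_, ?_⟩
  · intro i
    refine ⟨(parDNF_card _).trans ?_, fun c hc => ?_⟩
    · rw [hset_card]; exact hterms
    · have h1 := parDNF_width _ c hc
      rw [hset_card] at h1
      refine le_trans ?_ hlits
      exact_mod_cast h1
  · intro N R B P hP hB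
    have h1 := one_gate hν0 (blkOf n t) (hidf hnm) (hidf_blk hnm) hsp P hP B hB
    have h2 : (∑ i, P.success (parDNF (hset (hidf hnm) (e'.symm i))).eval) / ((r : ℝ) + 1) =
        𝔼 s : Fin (t + 1) → Idx n k, P.success (parT (hset (hidf hnm) s)) := by
      rw [Fintype.expect_eq_sum_div_card, hr]
      push_cast
      congr 1
      rw [← e'.sum_comp]
      refine Finset.sum_congr rfl fun s _ => ?_
      rw [Equiv.symm_apply_apply, funext (parDNF_eval _)]
    rw [h2]
    refine h1.trans ?_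
    have h3 : ((B : ℝ) * (t + 2) ^ 2 + 1) * nb ν t 1 ≤ ((B : ℝ) * (t + 2) ^ 2 + 1) *
        (2 ^ 1 * (t + 1) * x) := mul_le_mul_of_nonneg_left hnb (by positivity)
    have h4 : ((B : ℝ) * (t + 2) ^ 2 + 1) * (2 ^ 1 * (t + 1) * x) ≤
        2 * (B + 1) * (t + 2) ^ 3 * x := by
      have h5 : ((B : ℝ) * (t + 2) ^ 2 + 1) * (t + 1) ≤ (B + 1) * (t + 2) ^ 3 := by
        have : ((B : ℝ) * (t + 2) ^ 2 + 1) ≤ (B + 1) * (t + 2) ^ 2 := by nlinarith
        calc ((B : ℝ) * (t + 2) ^ 2 + 1) * (t + 1) ≤ (B + 1) * (t + 2) ^ 2 * (t + 2) := by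
              apply mul_le_mul this (by linarith) (by positivity) (by positivity)
          _ = _ := by ring
      calc ((B : ℝ) * (t + 2) ^ 2 + 1) * (2 ^ 1 * (t + 1) * x) =
            (((B : ℝ) * (t + 2) ^ 2 + 1) * (t + 1)) * (2 * x) := by ring
        _ ≤ ((B + 1) * (t + 2) ^ 3) * (2 * x) := mul_le_mul_of_nonneg_right h5 (by positivity)
        _ = _ := by ring
    linarith
  · intro N R B P hP hB
    have h1 := two_gates hν0 (blkOf n t) (hidf hnm) (hidf_blk hnm) hsp P hP B hB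
    have h2 : (∑ i, P.success (parDNF (hset (hidf hnm) (e'.symm i))).eval) / ((r : ℝ) + 1) =
        𝔼 s : Fin (t + 1) → Idx n k, P.success (parT (hset (hidf hnm) s)) := by
      rw [Fintype.expect_eq_sum_div_card, hr]
      push_cast
      congr 1
      rw [← e'.sum_comp]
      refine Finset.sum_congr rfl fun s _ => ?_
      rw [Equiv.symm_apply_apply, funext (parDNF_eval _)]
    rw [h2]
    refine h1.trans ?_
    have h3 : ((B : ℝ) * (t + 2) ^ 2 + 1) * nb ν t 1 ≤ ((B : ℝ) * (t + 2) ^ 2 + 1) *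
        (2 ^ 1 * (t + 1) * x) := mul_le_mul_of_nonneg_left hnb (by positivity)
    have h4 : ((B : ℝ) * (t + 2) ^ 2 + 1) * (2 ^ 1 * (t + 1) * x) ≤
        2 * (B + 1) * (t + 2) ^ 3 * x := by
      have h5 : ((B : ℝ) * (t + 2) ^ 2 + 1) * (t + 1) ≤ (B + 1) * (t + 2) ^ 3 := by
        have : ((B : ℝ) * (t + 2) ^ 2 + 1) ≤ (B + 1) * (t + 2) ^ 2 := by nlinarith
        calc ((B : ℝ) * (t + 2) ^ 2 + 1) * (t + 1) ≤ (B + 1) * (t + 2) ^ 2 * (t + 2) := by
              apply mul_le_mul this (by linarith) (by positivity) (by positivity)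
          _ = _ := by ring
      calc ((B : ℝ) * (t + 2) ^ 2 + 1) * (2 ^ 1 * (t + 1) * x) =
            (((B : ℝ) * (t + 2) ^ 2 + 1) * (t + 1)) * (2 * x) := by ring
        _ ≤ ((B + 1) * (t + 2) ^ 3) * (2 * x) := mul_le_mul_of_nonneg_right h5 (by positivity)
        _ = _ := by ring
    linarith

end Pool.Agent.Run7.h284.DL
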