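import Pool.Agent.Run7.h284.DL.Cells

/-!
# Numbers
-/

namespace Pool.Agent.Run7.h284.DL

open Finset DomAC0 H568R2 Pool.Agent.H994R2.JL
open scoped BigOperators

lemma exists_root (D m : ℕ) (hD : 1 ≤ D) : ∃ τ : ℕ, τ ^ D ≤ m ∧ m < (τ + 1) ^ D := by
  have hex : ∃ k, m < (k + 1) ^ D := ⟨m, by
    calc m < m + 1 := Nat.lt_succ_self m
      _ ≤ (m + 1) ^ D := Nat.le_self_pow (by omega) _⟩
  classical
  refine ⟨Nat.find hex, ?_, Nat.find_spec hex⟩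
  rcases Nat.eq_zero_or_pos (Nat.find hex) with h | h
  · rw [h, Nat.zero_pow (by omega)]
    exact Nat.zero_le _
  · obtain ⟨k, hk⟩ : ∃ k, Nat.find hex = k + 1 := ⟨Nat.find hex - 1, by omega⟩
    have := Nat.find_min hex (m := k) (by omega)
    rw [hk]
    omega

section

variable {c D m τ : ℕ}

lemma m_le (hτ : 1 ≤ τ) (h : m < (τ + 1) ^ D) (n : ℕ) :
    (m : ℝ) ^ n ≤ 2 ^ (D * n) * (τ : ℝ) ^ (D * n) := by
  have h1 : (m : ℝ) ≤ (2 * τ) ^ D := by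
    have h2 : (m : ℝ) ≤ ((τ : ℝ) + 1) ^ D := by
      have : (m : ℝ) < (((τ + 1) ^ D : ℕ) : ℝ) := by exact_mod_cast h
      push_cast at this
      exact this.le
    refine h2.trans ?_
    have h3 : (1 : ℝ) ≤ τ := by exact_mod_cast hτ
    exact pow_le_pow_left₀ (by linarith) (by linarith) D
  calc (m : ℝ) ^ n ≤ ((2 * τ) ^ D) ^ n := pow_le_pow_left₀ (Nat.cast_nonneg m) h1 n
    _ = 2 ^ (D * n) * (τ : ℝ) ^ (D * n) := by rw [← pow_mul, mul_pow]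

lemma term1 (d k0 t : ℕ) (hτ : 1 ≤ τ) (hk : (t + 1) * k0 ≤ τ) (hD : D = 4 * (d + 1))
    (h : m < (τ + 1) ^ D) :
    (((t + 1) * k0 * τ ^ (d + 1) : ℕ) : ℝ) * (1 - (1 / (τ : ℝ)) ^ (d + 1)) ^ (τ ^ (2 * (d + 1))) *
      (m : ℝ) ^ (c + 1) * τ ≤ 2 ^ (D * (c + 1)) * ((D * (c + 2) + 1).factorial : ℝ) := by
  have hτ1 : (1 : ℝ) ≤ τ := by exact_mod_cast hτ
  have hτ0 : (0 : ℝ) < τ := by linarith
  set p : ℝ := (1 / (τ : ℝ)) ^ (d + 1) with hp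
  set n := D * (c + 2) + 1 with hn
  have hp0 : 0 ≤ p := by positivity
  have hp1 : p ≤ 1 := by
    rw [hp]
    apply pow_le_one₀ (by positivity)
    rw [div_le_one hτ0]
    exact hτ1
  have h1 : (1 - p) ^ (τ ^ (2 * (d + 1))) ≤ (n.factorial : ℝ) / (τ : ℝ) ^ n := by
    have h2 : (1 - p) ^ (τ ^ (2 * (d + 1))) ≤ Real.exp (-(p * (τ ^ (2 * (d + 1)) : ℕ))) := by
      have h3 : 1 - p ≤ Real.exp (-p) := Real.one_sub_le_exp_neg p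
      refine (pow_le_pow_left₀ (by linarith) h3 _).trans (le_of_eq ?_)
      rw [← Real.exp_nat_mul]
      congr 1
      ring
    have h4 : (τ : ℝ) ≤ p * (τ ^ (2 * (d + 1)) : ℕ) := by
      have h5 : p * (τ ^ (2 * (d + 1)) : ℕ) = (τ : ℝ) ^ (d + 1) := by
        rw [hp]
        push_cast
        rw [two_mul, pow_add (τ : ℝ) (d + 1) (d + 1), ← mul_assoc, ← mul_pow, one_div,
          inv_mul_cancel₀ hτ0.ne', one_pow, one_mul]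
      rw [h5]
      calc (τ : ℝ) = (τ : ℝ) ^ 1 := (pow_one _).symm
        _ ≤ (τ : ℝ) ^ (d + 1) := pow_le_pow_right₀ hτ1 (by omega)
    have h6 : Real.exp (-(p * (τ ^ (2 * (d + 1)) : ℕ))) ≤ Real.exp (-(τ : ℝ)) :=
      Real.exp_le_exp.2 (by linarith)
    have h7 := Real.pow_div_factorial_le_exp (τ : ℝ) hτ0.le n
    refine h2.trans (h6.trans ?_)
    rw [Real.exp_neg, inv_le_comm₀ (Real.exp_pos _) (by positivity), inv_div]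
    exact h7
  have h8 : (((t + 1) * k0 * τ ^ (d + 1) : ℕ) : ℝ) ≤ (τ : ℝ) ^ D := by
    have : (t + 1) * k0 * τ ^ (d + 1) ≤ τ ^ D := by
      calc (t + 1) * k0 * τ ^ (d + 1) ≤ τ * τ ^ (d + 1) := Nat.mul_le_mul_right _ hk
        _ = τ ^ (d + 2) := by ring
        _ ≤ τ ^ D := Nat.pow_le_pow_right hτ (by omega)
    exact_mod_cast this
  have h9 := m_le hτ h (c + 1)
  have h1' : 0 ≤ (1 - p) ^ (τ ^ (2 * (d + 1))) := pow_nonneg (by linarith) _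
  calc (((t + 1) * k0 * τ ^ (d + 1) : ℕ) : ℝ) * (1 - p) ^ (τ ^ (2 * (d + 1))) *
      (m : ℝ) ^ (c + 1) * τ
      ≤ (τ : ℝ) ^ D * ((n.factorial : ℝ) / (τ : ℝ) ^ n) *
        (2 ^ (D * (c + 1)) * (τ : ℝ) ^ (D * (c + 1))) * τ := by
        gcongr
    _ = 2 ^ (D * (c + 1)) * (n.factorial : ℝ) * ((τ : ℝ) ^ (D + D * (c + 1) + 1) /
        (τ : ℝ) ^ n) := by
        rw [pow_add, pow_add]
        ring
    _ = 2 ^ (D * (c + 1)) * (n.factorial : ℝ) := by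
        have : D + D * (c + 1) + 1 = n := by rw [hn]; ring
        rw [this, div_self (by positivity), mul_one]

lemma term2 (d t K s j : ℕ) (hm : 1 ≤ m) (hτ : 1 ≤ τ) (h : m < (τ + 1) ^ D)
    (hs : j + s ≤ m ^ c) :
    (t + 1 : ℝ) * (((d + 1 : ℕ) : ℝ) * ((s * (j + s + 1) : ℕ) : ℝ) *
      (4 ^ K * (3 * (1 / (τ : ℝ)))) ^ (D * (3 * c + 1) + 1)) * (m : ℝ) ^ (c + 1) * τ ≤
      (t + 1) * (d + 1) * 2 * (4 ^ K * 3) ^ (D * (3 * c + 1) + 1) * 2 ^ (D * (3 * c + 1)) := by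
  have hτ1 : (1 : ℝ) ≤ τ := by exact_mod_cast hτ
  have hτ0 : (0 : ℝ) < τ := by linarith
  have h1 : ((s * (j + s + 1) : ℕ) : ℝ) ≤ 2 * (m : ℝ) ^ (2 * c) := by
    have h2 : s * (j + s + 1) ≤ m ^ c * (2 * m ^ c) := by
      have h3 : 1 ≤ m ^ c := Nat.one_le_pow _ _ hm
      apply Nat.mul_le_mul <;> omega
    have h4 : ((s * (j + s + 1) : ℕ) : ℝ) ≤ ((m ^ c * (2 * m ^ c) : ℕ) : ℝ) := by exact_mod_cast h2
    refine h4.trans (le_of_eq ?_)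
    push_cast
    ring
  have h9 := m_le hτ h (3 * c + 1)
  set κ := D * (3 * c + 1) + 1 with hκ
  have h5 : (4 ^ K * (3 * (1 / (τ : ℝ)))) ^ κ = (4 ^ K * 3) ^ κ * (1 / (τ : ℝ) ^ κ) := by
    rw [← mul_assoc, mul_pow, div_pow, one_pow]
  rw [h5]
  calc (t + 1 : ℝ) * (((d + 1 : ℕ) : ℝ) * ((s * (j + s + 1) : ℕ) : ℝ) *
      ((4 ^ K * 3) ^ κ * (1 / (τ : ℝ) ^ κ))) * (m : ℝ) ^ (c + 1) * τ
      ≤ (t + 1 : ℝ) * (((d + 1 : ℕ) : ℝ) * (2 * (m : ℝ) ^ (2 * c)) *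
      ((4 ^ K * 3) ^ κ * (1 / (τ : ℝ) ^ κ))) * (m : ℝ) ^ (c + 1) * τ := by
        gcongr
    _ = (t + 1 : ℝ) * (d + 1) * 2 * (4 ^ K * 3) ^ κ * ((m : ℝ) ^ (3 * c + 1) *
        (τ / (τ : ℝ) ^ κ)) := by
        push_cast
        have : (m : ℝ) ^ (3 * c + 1) = (m : ℝ) ^ (2 * c) * (m : ℝ) ^ (c + 1) := by
          rw [← pow_add]; congr 1; ring
        rw [this]
        ring
    _ ≤ (t + 1 : ℝ) * (d + 1) * 2 * (4 ^ K * 3) ^ κ * ((2 ^ (D * (3 * c + 1)) *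
        (τ : ℝ) ^ (D * (3 * c + 1))) * (τ / (τ : ℝ) ^ κ)) := by
        gcongr
    _ = (t + 1) * (d + 1) * 2 * (4 ^ K * 3) ^ κ * 2 ^ (D * (3 * c + 1)) := by
        have : (τ : ℝ) ^ (D * (3 * c + 1)) * (τ / (τ : ℝ) ^ κ) = 1 := by
          rw [hκ, pow_succ, ← mul_div_assoc, div_self (by positivity)]
        rw [mul_assoc (2 ^ (D * (3 * c + 1)) : ℝ), this, mul_one]

lemma term3 (d t : ℕ) (hm : 1 ≤ m) (hτ : 1 ≤ τ) (h : m < (τ + 1) ^ D) :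
    del t ((m ^ c + 1) * (m ^ c + 4)) (m ^ c) c
      (1 / (((τ ^ (d + 1)) ^ (2 ^ t * (D * (2 * c ^ 2 + c + 1) + 1)) : ℕ) : ℝ)) *
      (m : ℝ) ^ (c + 1) * τ ≤
    (2 * (1 + (((t : ℝ) + 11) * (t + 2) ^ 2 + 1 + (2 * 2 ^ (t + 1) + 1)))) ^ c * (2 * (t + 1)) *
      2 ^ (D * (2 * c ^ 2 + c + 1)) := by
  have hτ1 : (1 : ℝ) ≤ τ := by exact_mod_cast hτ
  have hτ0 : (0 : ℝ) < τ := by linarith
  have hm1 : (1 : ℝ) ≤ m := by exact_mod_cast hm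
  set k1 := D * (2 * c ^ 2 + c + 1) + 1 with hk1
  set x : ℝ := 1 / (τ : ℝ) ^ ((d + 1) * k1) with hx
  have hx0 : 0 ≤ x := by positivity
  have hx1 : x ≤ 1 := by
    rw [hx, div_le_one (by positivity)]
    exact one_le_pow₀ hτ1
  have hnb : nb (1 / (((τ ^ (d + 1)) ^ (2 ^ t * k1) : ℕ) : ℝ)) t 1 ≤ 2 ^ 1 * (t + 1) * x := by
    apply nb_le t 1 x hx0 hx1
    rw [hx, div_pow, one_pow]
    push_cast
    rw [← pow_mul, ← pow_mul]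
    congr 2
    ring
  have hxk : x ≤ 1 / (τ : ℝ) ^ k1 := by
    rw [hx]
    apply one_div_le_one_div_of_le (by positivity)
    apply pow_le_pow_right₀ hτ1
    nlinarith
  have hb : (2 * (1 + (((t + 1 + ((m ^ c + 1) * (m ^ c + 4)) : ℕ) : ℝ) * (t + 2) ^ 2 + 1 +
    (2 * ((2 ^ (t + 1) * m ^ c : ℕ) : ℝ) + 1)))) ≤
      (2 * (1 + (((t : ℝ) + 11) * (t + 2) ^ 2 + 1 + (2 * 2 ^ (t + 1) + 1)))) *
        (m : ℝ) ^ (2 * c) := by
    set y : ℝ := (m : ℝ) ^ c with hy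
    have hy1 : 1 ≤ y := one_le_pow₀ hm1
    have hy2 : (m : ℝ) ^ (2 * c) = y ^ 2 := by rw [hy, ← pow_mul]; congr 1; ring
    rw [hy2]
    push_cast
    rw [← hy]
    have hyy : y ≤ y ^ 2 := by nlinarith
    have hy3 : 1 ≤ y ^ 2 := by nlinarith
    have e1 : (t : ℝ) + 1 + (y + 1) * (y + 4) ≤ ((t : ℝ) + 11) * y ^ 2 := by
      have : (0 : ℝ) ≤ t := Nat.cast_nonneg t
      nlinarith
    have e2 : 2 * (2 ^ (t + 1) * y) ≤ 2 * 2 ^ (t + 1) * y ^ 2 := by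
      have : (0 : ℝ) < 2 ^ (t + 1) := by positivity
      nlinarith
    have e3 : ((t : ℝ) + 1 + (y + 1) * (y + 4)) * (t + 2) ^ 2 ≤
        ((t : ℝ) + 11) * y ^ 2 * (t + 2) ^ 2 := mul_le_mul_of_nonneg_right e1 (by positivity)
    nlinarith
  have h9 := m_le hτ h (2 * c ^ 2 + c + 1)
  set Cb : ℝ := (2 * (1 + (((t : ℝ) + 11) * (t + 2) ^ 2 + 1 + (2 * 2 ^ (t + 1) + 1)))) with hCb
  have hCb0 : 0 ≤ Cb := by positivity
  unfold del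
  calc _ ≤ (Cb * (m : ℝ) ^ (2 * c)) ^ c * (2 ^ 1 * (t + 1) * (1 / (τ : ℝ) ^ k1)) *
        (m : ℝ) ^ (c + 1) * τ := by
        have hnn := nb_nonneg (ν := 1 / (((τ ^ (d + 1)) ^ (2 ^ t * k1) : ℕ) : ℝ))
          (by positivity) t 1
        have h10 : nb (1 / (((τ ^ (d + 1)) ^ (2 ^ t * k1) : ℕ) : ℝ)) t 1 ≤
            2 ^ 1 * (t + 1) * (1 / (τ : ℝ) ^ k1) :=
          hnb.trans (mul_le_mul_of_nonneg_left hxk (by positivity))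
        gcongr
    _ = Cb ^ c * (2 * (t + 1)) * ((m : ℝ) ^ (2 * c ^ 2 + c + 1) * (τ / (τ : ℝ) ^ k1)) := by
        rw [mul_pow, ← pow_mul]
        have : (m : ℝ) ^ (2 * c ^ 2 + c + 1) = (m : ℝ) ^ (2 * c * c) * (m : ℝ) ^ (c + 1) := by
          rw [← pow_add]; congr 1; ring
        rw [this]
        ring
    _ ≤ Cb ^ c * (2 * (t + 1)) * ((2 ^ (D * (2 * c ^ 2 + c + 1)) *
        (τ : ℝ) ^ (D * (2 * c ^ 2 + c + 1))) * (τ / (τ : ℝ) ^ k1)) := by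
        gcongr
    _ = Cb ^ c * (2 * (t + 1)) * 2 ^ (D * (2 * c ^ 2 + c + 1)) := by
        have : (τ : ℝ) ^ (D * (2 * c ^ 2 + c + 1)) * (τ / (τ : ℝ) ^ k1) = 1 := by
          rw [hk1, pow_succ (τ : ℝ) (D * (2 * c ^ 2 + c + 1)), ← mul_div_assoc,
            div_self (by positivity)]
        rw [mul_assoc (2 ^ (D * (2 * c ^ 2 + c + 1)) : ℝ), this, mul_one]

end

end Pool.Agent.Run7.h284.DL
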