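import Pool.Agent.Run7.h284.DL.Core

/-!
# Boolean functions of few threshold gates and symmetric gates
-/

namespace Pool.Agent.Run7.h284.DL

open Finset
open scoped BigOperators ComplexConjugate
open Pool.Agent.H994R2.JL (parT)

section rep

variable {Ω Z B : Type*} [Fintype Ω] {T : ℕ} (zz : Ω → Z) (dd : Ω → Fin T → B)

/-- product functions have small correlation with `μ` -/
def Hyp (μ : Ω → ℂ) (ε : ℝ) : Prop :=
  ∀ φ : Fin T → Z → (Fin T → B) → ℂ, (∀ i z D, ‖φ i z D‖ ≤ 1) → (∀ i z, Free i (φ i z)) →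
    ‖𝔼 ω, (∏ i, φ i (zz ω) (dd ω)) * μ ω‖ ≤ ε

/-- the correlation of `g` is at most `c` times that of product functions -/
def Rep (c : ℝ) (g : Ω → ℂ) : Prop :=
  ∀ (μ : Ω → ℂ) (ε : ℝ), 0 ≤ ε → Hyp zz dd μ ε → ‖𝔼 ω, g ω * μ ω‖ ≤ c * ε

variable {zz dd}

lemma Hyp.mul {μ : Ω → ℂ} {ε : ℝ} (h : Hyp zz dd μ ε) (φ : Fin T → Z → (Fin T → B) → ℂ)
    (h1 : ∀ i z D, ‖φ i z D‖ ≤ 1) (h2 : ∀ i z, Free i (φ i z)) :
    Hyp zz dd (fun ω => (∏ i, φ i (zz ω) (dd ω)) * μ ω) ε := by
  intro φ' h1' h2'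
  have h3 := h (fun i z D => φ' i z D * φ i z D) (by
    intro i z D
    rw [norm_mul]
    exact mul_le_one₀ (h1' i z D) (norm_nonneg _) (h1 i z D)) (by
    intro i z D D' hD
    simp only
    rw [h2' i z D D' hD, h2 i z D D' hD])
  simp only [Finset.prod_mul_distrib] at h3
  simpa only [mul_assoc] using h3

lemma Rep.mul {c c' : ℝ} {g g' : Ω → ℂ} (hc' : 0 ≤ c') (h : Rep zz dd c g)
    (h' : Rep zz dd c' g') : Rep zz dd (c * c') (fun ω => g ω * g' ω) := by
  intro μ ε hε hμ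
  have h1 : Hyp zz dd (fun ω => g' ω * μ ω) (c' * ε) := by
    intro φ h2 h3
    have h4 := h' _ ε hε (hμ.mul φ h2 h3)
    refine le_trans (le_of_eq ?_) h4
    congr 1
    refine Finset.expect_congr rfl fun ω _ => ?_
    ring
  have h5 := h _ (c' * ε) (mul_nonneg hc' hε) h1
  refine le_trans (le_of_eq ?_) (h5.trans (le_of_eq ?_))
  · congr 1
    refine Finset.expect_congr rfl fun ω _ => ?_
    ring
  · ring

lemma Rep.one : Rep zz dd 1 (fun _ => 1) := by
  intro μ ε hε hμ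
  have := hμ (fun _ _ _ => 1) (fun _ _ _ => by simp) (fun _ _ _ _ _ => rfl)
  simpa using this

lemma Rep.add {c c' : ℝ} {g g' : Ω → ℂ} (h : Rep zz dd c g) (h' : Rep zz dd c' g') :
    Rep zz dd (c + c') (fun ω => g ω + g' ω) := by
  intro μ ε hε hμ
  have h1 := h μ ε hε hμ
  have h2 := h' μ ε hε hμ
  simp only [add_mul, Finset.expect_add_distrib]
  exact (norm_add_le _ _).trans (add_le_add h1 h2)

lemma Rep.neg {c : ℝ} {g : Ω → ℂ} (h : Rep zz dd c g) : Rep zz dd c (fun ω => -g ω) := by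
  intro μ ε hε hμ
  have h1 := h μ ε hε hμ
  simp only [neg_mul, Finset.expect_neg_distrib, norm_neg]
  exact h1

lemma Rep.zero : Rep zz dd 0 (fun _ => 0) := by
  intro μ ε hε hμ
  simp

lemma Rep.sum {α : Type*} (s : Finset α) {c : α → ℝ} {g : α → Ω → ℂ}
    (h : ∀ a ∈ s, Rep zz dd (c a) (g a)) : Rep zz dd (∑ a ∈ s, c a) (fun ω => ∑ a ∈ s, g a ω) := by
  classical
  induction s using Finset.induction_on with
  | empty => simpa using Rep.zero
  | insert a s ha ih =>
    simp only [Finset.sum_insert ha]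
    exact (h a (Finset.mem_insert_self a s)).add
      (ih (fun b hb => h b (Finset.mem_insert_of_mem hb)))

lemma Rep.prod {q : ℕ} {c : ℝ} (hc : 0 ≤ c) (g : Fin q → Ω → ℂ)
    (h : ∀ k, Rep zz dd c (g k)) : Rep zz dd (c ^ q) (fun ω => ∏ k, g k ω) := by
  induction q with
  | zero => simpa using Rep.one
  | succ q ih =>
    simp only [Fin.prod_univ_succ, pow_succ']
    exact (h 0).mul (pow_nonneg hc q) (ih (fun k => g k.succ) (fun k => h k.succ))

lemma Rep.mono {c c' : ℝ} {g : Ω → ℂ} (h : Rep zz dd c g) (hc : c ≤ c') : Rep zz dd c' g := by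
  intro μ ε hε hμ
  exact (h μ ε hε hμ).trans (mul_le_mul_of_nonneg_right hc hε)

lemma Rep.smul {c : ℝ} {g : Ω → ℂ} (h : Rep zz dd c g) (x : ℂ) (hx : ‖x‖ ≤ 1) :
    Rep zz dd c (fun ω => x * g ω) := by
  intro μ ε hε hμ
  have h1 := h μ ε hε hμ
  simp only [mul_assoc, ← Finset.mul_expect]
  rw [norm_mul]
  exact (mul_le_of_le_one_left (norm_nonneg _) hx).trans h1

/-- Boolean functions of gates -/
lemma Rep.bool {q : ℕ} {c : ℝ} (hc : 0 ≤ c) (g : Fin q → Ω → Bool)
    (h : ∀ k, Rep zz dd c (fun ω => if g k ω then (1 : ℂ) else 0)) (f : (Fin q → Bool) → Bool) :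
    Rep zz dd ((2 * (1 + c)) ^ q) (fun ω => if f (fun k => g k ω) then (1 : ℂ) else 0) := by
  have h1 : ∀ (k : Fin q) (b : Bool),
      Rep zz dd (1 + c) (fun ω => if g k ω = b then (1 : ℂ) else 0) := by
    intro k b
    cases b with
    | true => exact (h k).mono (by linarith)
    | false =>
      have h2 := Rep.one.add (h k).neg
      have h3 : (fun ω => if g k ω = false then (1 : ℂ) else 0) =
          fun ω => 1 + -(if g k ω then (1 : ℂ) else 0) := by
        funext ω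
        cases g k ω <;> simp
      rw [h3]
      exact h2
  have h4 : ∀ a : Fin q → Bool, Rep zz dd ((1 + c) ^ q) (fun ω =>
      (if f a then (1 : ℂ) else 0) * ∏ k, (if g k ω = a k then (1 : ℂ) else 0)) := by
    intro a
    refine (Rep.prod (by linarith) _ (fun k => h1 k (a k))).smul _ ?_
    split_ifs <;> simp
  have h5 := Rep.sum (univ : Finset (Fin q → Bool)) (fun a _ => h4 a)
  have h6 : (fun ω => if f (fun k => g k ω) then (1 : ℂ) else 0) = fun ω =>
      ∑ a : Fin q → Bool, (if f a then (1 : ℂ) else 0) *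
        ∏ k, (if g k ω = a k then (1 : ℂ) else 0) := by
    funext ω
    rw [Finset.sum_eq_single_of_mem (fun k => g k ω) (Finset.mem_univ _)]
    · simp
    · intro a _ ha
      have : ∃ k, g k ω ≠ a k := by
        by_contra hcon
        push Not at hcon
        exact ha (funext fun k => (hcon k).symm)
      obtain ⟨k, hk⟩ := this
      rw [Finset.prod_eq_zero (Finset.mem_univ k) (if_neg hk), mul_zero]
  rw [h6]
  refine h5.mono (le_of_eq ?_)
  rw [Finset.sum_const, Finset.card_univ, Fintype.card_fun, Fintype.card_fin, Fintype.card_bool,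
    nsmul_eq_mul]
  push_cast
  rw [mul_pow]

lemma Rep.thr (S : Fin T → Z → (Fin T → B) → ℤ) (hS : ∀ i z, Free i (S i z)) (L : ℕ)
    (hL : ∀ i ω, |S i (zz ω) (dd ω)| < 2 ^ L) :
    Rep zz dd (L * (T + 1) ^ 2 + 1)
      (fun ω => if 0 ≤ ∑ i, S i (zz ω) (dd ω) then (1 : ℂ) else 0) := by
  intro μ ε hε hμ
  exact thr_bound zz dd μ ε hε hμ S hS L hL

lemma Rep.sym (S : Fin T → Z → (Fin T → B) → ℤ) (hS : ∀ i z, Free i (S i z)) (W : ℕ)
    (hW : ∀ ω, |∑ i, S i (zz ω) (dd ω)| ≤ W) (φ : ℤ → Bool) :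
    Rep zz dd (2 * W + 1)
      (fun ω => if φ (∑ i, S i (zz ω) (dd ω)) then (1 : ℂ) else 0) := by
  have h1 : ∀ b ∈ Finset.Icc (-(W : ℤ)) W, Rep zz dd 1 (fun ω => (if φ b then (1 : ℂ) else 0) *
      (if ∑ i, S i (zz ω) (dd ω) = b then (1 : ℂ) else 0)) := by
    intro b hb
    rw [Finset.mem_Icc] at hb
    refine Rep.smul ?_ _ (by split_ifs <;> simp)
    intro μ ε hε hμ
    have h2 := two_eq zz dd μ ε hε hμ S S hS hS b b (2 * W + 1) (by
      intro ω
      have h3 := hW ω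
      have h4 := abs_sub (∑ i, S i (zz ω) (dd ω)) b
      have h5 : |b| ≤ W := abs_le.2 hb
      push_cast
      omega) (by
      intro ω
      have h3 := hW ω
      have h4 := abs_sub (∑ i, S i (zz ω) (dd ω)) b
      have h5 : |b| ≤ W := abs_le.2 hb
      push_cast
      omega)
    simp only [and_self] at h2
    rw [one_mul]
    exact h2
  have h2 := Rep.sum _ h1
  have h3 : (fun ω => if φ (∑ i, S i (zz ω) (dd ω)) then (1 : ℂ) else 0) = fun ω =>
      ∑ b ∈ Finset.Icc (-(W : ℤ)) W, (if φ b then (1 : ℂ) else 0) *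
        (if ∑ i, S i (zz ω) (dd ω) = b then (1 : ℂ) else 0) := by
    funext ω
    rw [Finset.sum_eq_single_of_mem (∑ i, S i (zz ω) (dd ω))
      (Finset.mem_Icc.2 (abs_le.1 (hW ω)))]
    · simp
    · intro b _ hb
      rw [if_neg (show ¬ (∑ i, S i (zz ω) (dd ω) = b) from fun h => hb h.symm), mul_zero]
  rw [h3]
  refine h2.mono (le_of_eq ?_)
  rw [Finset.sum_const, nsmul_eq_mul, mul_one, Int.card_Icc]
  have : ((W : ℤ) + 1 - -(W : ℤ)).toNat = 2 * W + 1 := by omega
  rw [this]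
  push_cast
  rfl

end rep

section core

variable {m N t : ℕ}

/-- Gates: thresholds at zero with small parts, or arbitrary functions of small sums. -/
def GateOK (t L W : ℕ) (blk : Fin m → Fin (t + 1))
    (S : Fin (t + 1) → (Fin N → Bool) → (Fin (N + 1) → Fin m → Bool) → ℤ) (ψ : ℤ → Bool) : Prop :=
  (∀ i y X X', (∀ r j, blk j ≠ i → X r j = X' r j) → S i y X = S i y X') ∧
  (((∀ x, ψ x = decide (0 ≤ x)) ∧ ∀ i y X, |S i y X| < 2 ^ L) ∨ ∀ y X, |∑ i, S i y X| ≤ W)

theorem coreG {ι : Type} [Fintype ι] [Nonempty ι] {ν : ℝ} (hν : 0 ≤ ν) (blk : Fin m → Fin (t + 1))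
    (hid : Fin (t + 1) → ι → Finset (Fin m)) (hb : ∀ i a, ∀ j ∈ hid i a, blk j = i)
    (hsp : ∀ i (A : Finset (Fin m)), 𝔼 a, (if hid i a = A then (1 : ℝ) else 0) ≤ ν)
    {q : ℕ} (L W : ℕ)
    (S : Fin q → Fin (t + 1) → (Fin N → Bool) → (Fin (N + 1) → Fin m → Bool) → ℤ)
    (ψ : Fin q → ℤ → Bool) (hS : ∀ k, GateOK t L W blk (S k) (ψ k)) (f : (Fin q → Bool) → Bool) :
    ‖𝔼 s : Fin (t + 1) → ι, 𝔼 X : Fin (N + 1) → Fin m → Bool,
      (if f (fun k => ψ k (∑ i, S k i (fun r => parT (hset hid s) (X r.castSucc)) X))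
        then (1 : ℂ) else 0) * sg (parT (hset hid s) (X (Fin.last N)))‖ ≤
      (2 * (1 + (L * (t + 2) ^ 2 + 1 + (2 * W + 1)))) ^ q * nb ν t 1 := by
  set h : Fin (t + 1) → ι → Fin m → ZMod 2 := fun i a => indv (hid i a) with hh
  have hspread : ∀ i, Spread ν (h i) := by
    intro i v
    by_cases hv : ∃ A : Finset (Fin m), indv A = v
    · obtain ⟨A, rfl⟩ := hv
      refine le_trans (Finset.expect_le_expect fun a _ => ?_) (hsp i A)
      by_cases hA : hid i a = A
      · rw [if_pos hA]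
        split_ifs <;> norm_num
      · rw [if_neg hA, if_neg (fun h2 => hA (indv_inj h2))]
    · refine le_trans (le_of_eq ?_) hν
      refine Finset.expect_eq_zero fun a _ => ?_
      rw [if_neg]
      intro h2
      exact hv ⟨_, h2⟩
  let Ω := (Unit → Fin (t + 1) → ι) × (Fin (t + 1) → Blk N (Fin m))
  have hlab : ∀ (s : Unit → Fin (t + 1) → ι) (D : Fin (t + 1) → Blk N (Fin m)) (r : Fin N),
      lab h s D () r = tz (parT (hset hid (s ())) (exs blk D r.castSucc)) := by
    intro s D r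
    rw [tz_parT, sum_hset blk hid hb]
    unfold lab
    refine Finset.sum_congr rfl fun i _ => ?_
    rw [hh]
    simp only
    rw [dot_indv]
    refine Finset.sum_congr rfl fun j hj => ?_
    rw [exs_castSucc, hb i _ j hj]
  have htgt : ∀ (s : Unit → Fin (t + 1) → ι) (D : Fin (t + 1) → Blk N (Fin m)),
      tgt h s D = tz (parT (hset hid (s ())) (exs blk D (Fin.last N))) := by
    intro s D
    rw [tz_parT, sum_hset blk hid hb]
    unfold tgt
    rw [Fintype.sum_unique]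
    refine Finset.sum_congr rfl fun i _ => ?_
    rw [hh]
    simp only
    rw [dot_indv]
    refine Finset.sum_congr rfl fun j hj => ?_
    rw [exs_last, hb i _ j hj]
  set zz : Ω → (Unit → Fin N → ZMod 2) := fun ω => lab h ω.1 ω.2 with hzz
  set dd : Ω → Fin (t + 1) → Blk N (Fin m) := fun ω => ω.2 with hdd
  have hHyp : Hyp zz dd (fun ω => chi (tgt h ω.1 ω.2)) (nb ν t 1) := by
    intro φ hφ hF
    have h1 := nof_main (N := N) hν t h hspread Unit φ hφ hF
    rw [Fintype.card_unit] at h1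
    rwa [← exp_prod (fun ω : Ω => (∏ i, φ i (lab h ω.1 ω.2) ω.2) * chi (tgt h ω.1 ω.2))] at h1
  have hfree : ∀ k i (z : Unit → Fin N → ZMod 2),
      Free i (fun D : Fin (t + 1) → Blk N (Fin m) =>
        S k i (fun r => tz.symm (z () r)) (exs blk D)) := by
    intro k i z D D' hD
    apply (hS k).1
    intro r j hj
    unfold exs bigEquiv
    simp only [Equiv.coe_fn_mk]
    rw [hD _ hj]
  have hc : (0 : ℝ) ≤ L * (t + 2) ^ 2 + 1 + (2 * W + 1) := by positivity
  have hgate : ∀ k, Rep zz dd (L * (t + 2) ^ 2 + 1 + (2 * W + 1)) (fun ω =>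
      if ψ k (∑ i, S k i (fun r => tz.symm (zz ω () r)) (exs blk (dd ω))) then (1 : ℂ) else 0) := by
    intro k
    rcases (hS k).2 with ⟨h1, h2⟩ | h1
    · have h3 := Rep.thr (zz := zz) (dd := dd)
        (fun i z D => S k i (fun r => tz.symm (z () r)) (exs blk D)) (hfree k) L
        (fun i ω => h2 _ _ _)
      have h4 : (fun ω => if ψ k (∑ i, S k i (fun r => tz.symm (zz ω () r)) (exs blk (dd ω)))
          then (1 : ℂ) else 0) = fun ω =>
          if 0 ≤ ∑ i, S k i (fun r => tz.symm (zz ω () r)) (exs blk (dd ω))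
          then (1 : ℂ) else 0 := by
        funext ω
        rw [h1]
        simp only [decide_eq_true_eq]
      rw [h4]
      refine h3.mono ?_
      push_cast
      have : (0 : ℝ) ≤ 2 * W + 1 := by positivity
      have e : ((t : ℝ) + 1 + 1) = t + 2 := by ring
      rw [e]
      linarith
    · have h3 := Rep.sym (zz := zz) (dd := dd)
        (fun i z D => S k i (fun r => tz.symm (z () r)) (exs blk D)) (hfree k) W
        (fun ω => h1 _ _) (ψ k)
      refine h3.mono ?_
      have : (0 : ℝ) ≤ L * (t + 2) ^ 2 + 1 := by positivity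
      linarith
  have hall := Rep.bool hc _ hgate f
  have hmain := hall _ _ (nb_nonneg hν _ _) hHyp
  have hconv : 𝔼 ω : Ω, (if f (fun k => ψ k (∑ i, S k i (fun r => tz.symm (zz ω () r))
      (exs blk (dd ω)))) then (1 : ℂ) else 0) * chi (tgt h ω.1 ω.2) =
      𝔼 s : Fin (t + 1) → ι, 𝔼 X : Fin (N + 1) → Fin m → Bool,
      (if f (fun k => ψ k (∑ i, S k i (fun r => parT (hset hid s) (X r.castSucc)) X))
        then (1 : ℂ) else 0) * sg (parT (hset hid s) (X (Fin.last N))) := by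
    rw [exp_prod]
    rw [← exp_equiv (Equiv.funUnique Unit (Fin (t + 1) → ι))]
    refine Finset.expect_congr rfl fun s _ => ?_
    rw [← exp_exs blk]
    refine Finset.expect_congr rfl fun D _ => ?_
    simp only [hzz, hdd, hlab, htgt, Equiv.symm_apply_apply, chi_tz]
    rfl
  rw [hconv] at hmain
  exact hmain

theorem coreGR {ι : Type} [Fintype ι] [Nonempty ι] {ν : ℝ} (hν : 0 ≤ ν)
    (blk : Fin m → Fin (t + 1))
    (hid : Fin (t + 1) → ι → Finset (Fin m)) (hb : ∀ i a, ∀ j ∈ hid i a, blk j = i)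
    (hsp : ∀ i (A : Finset (Fin m)), 𝔼 a, (if hid i a = A then (1 : ℝ) else 0) ≤ ν)
    {q : ℕ} (L W : ℕ)
    (S : Fin q → Fin (t + 1) → (Fin N → Bool) → (Fin (N + 1) → Fin m → Bool) → ℤ)
    (ψ : Fin q → ℤ → Bool) (hS : ∀ k, GateOK t L W blk (S k) (ψ k)) (f : (Fin q → Bool) → Bool) :
    |𝔼 s : Fin (t + 1) → ι, 𝔼 X : Fin (N + 1) → Fin m → Bool,
      (if f (fun k => ψ k (∑ i, S k i (fun r => parT (hset hid s) (X r.castSucc)) X))
        then (1 : ℝ) else 0) * sgr (parT (hset hid s) (X (Fin.last N)))| ≤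
      (2 * (1 + (L * (t + 2) ^ 2 + 1 + (2 * W + 1)))) ^ q * nb ν t 1 := by
  have h := coreG hν blk hid hb hsp L W S ψ hS f
  rw [← Real.norm_eq_abs, ← Complex.norm_real]
  refine le_trans (le_of_eq ?_) h
  congr 1
  rw [Complex.ofReal_expect]
  refine Finset.expect_congr rfl fun s _ => ?_
  rw [Complex.ofReal_expect]
  refine Finset.expect_congr rfl fun X _ => ?_
  unfold sgr sg
  push_cast
  congr 1
  · split_ifs <;> simp
  · split_ifs <;> simp

end core

end Pool.Agent.Run7.h284.DL
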