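import Pool.Agent.Run7.h284.DL.Blocks
import Pool.Agent.Run7.h284.DL.Fam
import Pool.Agent.H994R2.JL.UN

/-!
# Threshold gates on top of constant-depth circuits under a fixed restriction
-/

namespace Pool.Agent.Run7.h284.DL

open Finset DomAC0 H568R2 Pool.Agent.H994R2.JL
open scoped BigOperators

section lab

variable {n m : ℕ}

/-- the labels given by the parity of the columns in `U` -/
def labU (U : Finset (Fin m)) (Z : Mat n m) : Col n := fun r => parT U (fun j => Z j r)

lemma labU_congr {U : Finset (Fin m)} {Z Z' : Mat n m} (h : ∀ j ∈ U, Z j = Z' j) :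
    labU U Z = labU U Z' := by
  funext r
  apply tz.injective
  unfold labU
  rw [tz_parT, tz_parT]
  exact Finset.sum_congr rfl fun j hj => by rw [h j hj]

lemma labU_mixb {U : Finset (Fin m)} (V W : Mat n m) (b : Fin m → Bool)
    (h : ∀ j ∈ U, b j = true) : labU U (mixb V W b) = labU U W := by
  apply labU_congr
  intro j hj
  unfold mixb
  rw [h j hj, if_pos rfl]

lemma tz_xor (a b : Bool) : tz (xor a b) = tz a + tz b := by
  cases a <;> cases b <;> decide

lemma labU_toggle {U : Finset (Fin m)} {j0 : Fin m} (hj : j0 ∈ U) (W : Mat n m) (c : Col n) :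
    labU U (Function.update W j0 (un_x (W j0) c)) = un_x (labU U W) c := by
  funext r
  apply tz.injective
  unfold labU un_x
  rw [tz_xor, tz_parT, tz_parT, ← Finset.add_sum_erase U _ hj,
    ← Finset.add_sum_erase U (fun j => tz (W j r)) hj]
  have h1 : ∑ x ∈ U.erase j0, tz (Function.update W j0 (fun i => xor (W j0 i) (c i)) x r) =
      ∑ x ∈ U.erase j0, tz (W x r) := by
    refine Finset.sum_congr rfl fun x hx => ?_
    rw [Function.update_of_ne (Finset.ne_of_mem_erase hx)]
  rw [h1, Function.update_self, tz_xor]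
  ring

lemma exp_mixb (b : Fin m → Bool) (f : Mat n m → ℝ) :
    𝔼 V : Mat n m, 𝔼 W : Mat n m, f (mixb V W b) = 𝔼 Z : Mat n m, f Z := by
  have h1 : 𝔼 V : Mat n m, 𝔼 W : Mat n m, f (mixb V W b) =
      𝔼 s : Fin m × Bool → Col n, f (s ∘ fun j => (j, b j)) := by
    have h2 := exp_double (α := Col n) (E := Fin m) (fun V W => f (mixb V W b))
    rw [show (𝔼 V : Mat n m, 𝔼 W : Mat n m, f (mixb V W b)) =
      𝔼 s0 : Fin m → Col n, 𝔼 s1 : Fin m → Col n, f (mixb s0 s1 b) from rfl, h2]
    refine Finset.expect_congr rfl fun s _ => ?_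
    congr 1
    funext j
    unfold mixb
    simp only [Function.comp]
    cases b j <;> rfl
  rw [h1]
  exact marg (fun j : Fin m => ((j, b j) : Fin m × Bool))
    (fun j j' h => congrArg Prod.fst h) f

/-- the equivalence that toggles a column -/
def togE (j0 : Fin m) (c : Col n) : Mat n m ≃ Mat n m :=
  (show Function.Involutive (fun W : Mat n m => Function.update W j0 (un_x (W j0) c)) by
    intro W
    simp [un_x_invol]).toPerm

/-- labels are independent of the matrix without a hidden column -/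
lemma decouple {U : Finset (Fin m)} {j0 : Fin m} (hj : j0 ∈ U) (Ψ : Mat n m → Col n → ℝ)
    (hΨ : ∀ W y c, Ψ (Function.update W j0 c) y = Ψ W y) :
    𝔼 W : Mat n m, Ψ W (labU U W) = 𝔼 W : Mat n m, 𝔼 y : Col n, Ψ W y := by
  have h1 : ∀ c : Col n, 𝔼 W : Mat n m, Ψ W (labU U W) =
      𝔼 W : Mat n m, Ψ W (un_x (labU U W) c) := by
    intro c
    rw [← exp_equiv (togE j0 c)]
    refine Finset.expect_congr rfl fun W _ => ?_
    show Ψ (Function.update W j0 (un_x (W j0) c))
      (labU U (Function.update W j0 (un_x (W j0) c))) = _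
    rw [hΨ, labU_toggle hj]
  have h2 : 𝔼 W : Mat n m, Ψ W (labU U W) =
      𝔼 c : Col n, 𝔼 W : Mat n m, Ψ W (un_x (labU U W) c) := by
    rw [← Finset.expect_congr rfl (fun c _ => h1 c), Fintype.expect_const]
  rw [h2, exp_comm]
  refine Finset.expect_congr rfl fun W _ => ?_
  have hinv : Function.Involutive (fun c : Col n => un_x (labU U W) c) := by
    intro c
    show un_x (labU U W) (un_x (labU U W) c) = c
    rw [un_x_comm (labU U W) (un_x (labU U W) c), un_x_comm (labU U W) c, un_x_invol]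
  exact exp_equiv hinv.toPerm (fun y => Ψ W y)

end lab

section gate

variable {N m t : ℕ} {J : Type} [Fintype J]

/-- the weighted sum of the nodes -/
noncomputable def nval (C : Circuit J) (lf : J → Mat (N + 1) m → Col (N + 1) → Bool)
    (w : J ⊕ Fin C.size → ℤ) (Z : Mat (N + 1) m) (y : Col (N + 1)) : ℤ :=
  ∑ v, if C.nodeVal (fun e => lf e Z y) v = true then w v else 0

lemma nval_abs (C : Circuit J) (lf : J → Mat (N + 1) m → Col (N + 1) → Bool)
    (w : J ⊕ Fin C.size → ℤ) (Z : Mat (N + 1) m) (y : Col (N + 1)) :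
    |nval C lf w Z y| ≤ ∑ v, |w v| := by
  unfold nval
  refine (Finset.abs_sum_le_sum_abs _ _).trans (Finset.sum_le_sum fun v _ => ?_)
  split_ifs
  · exact le_refl _
  · simp

/-- a block that is switched off -/
noncomputable def miss (γ : Fin (t + 1) → Bool) : Fin (t + 1) :=
  open Classical in if h : ∃ i, γ i = false then h.choose else 0

lemma miss_spec {γ : Fin (t + 1) → Bool} (h : γ ≠ fun _ => true) : γ (miss γ) = false := by
  classical
  have h1 : ∃ i, γ i = false := by
    by_contra hcon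
    push Not at hcon
    apply h
    funext i
    have := hcon i
    simpa using this
  unfold miss
  rw [dif_pos h1]
  exact h1.choose_spec

/-- the part of the weighted sum that belongs to a block -/
noncomputable def Spart (C : Circuit J) (lf : J → Mat (N + 1) m → Col (N + 1) → Bool)
    (w : J ⊕ Fin C.size → ℤ) (θ : ℤ) (blk : Fin m → Fin (t + 1)) (ρ : Restr (Fin m))
    (i : Fin (t + 1)) (V W : Mat (N + 1) m) (y : Col (N + 1)) : ℤ :=
  (if i = 0 then -θ else 0) +
    ∑ γ ∈ (univ.erase (fun _ : Fin (t + 1) => true)).filter (fun γ => miss γ = i),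
      (-(sgn (fun _ : Fin (t + 1) => true) * sgn γ)) * nval C lf w (mixb V W (selb blk ρ γ)) y

lemma Spart_sum (C : Circuit J) (lf : J → Mat (N + 1) m → Col (N + 1) → Bool)
    (w : J ⊕ Fin C.size → ℤ) (θ : ℤ) (blk : Fin m → Fin (t + 1)) (ρ : Restr (Fin m))
    (V W : Mat (N + 1) m) (y : Col (N + 1))
    (hfree : ∀ v, w v ≠ 0 → ∃ i0 : Fin (t + 1), ∀ (γ : Fin (t + 1) → Bool) (b : Bool),
      C.nodeVal (sigB lf blk ρ V W y (Function.update γ i0 b)) v =
        C.nodeVal (sigB lf blk ρ V W y γ) v) :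
    ∑ i, Spart C lf w θ blk ρ i V W y =
      nval C lf w (mixb V W (selb blk ρ (fun _ => true))) y - θ := by
  unfold Spart
  rw [Finset.sum_add_distrib, Finset.sum_ite_eq' univ (0 : Fin (t + 1)),
    if_pos (Finset.mem_univ _), Finset.sum_fiberwise]
  have h1 : ∀ v, (if C.nodeVal (fun e => lf e (mixb V W (selb blk ρ (fun _ => true))) y) v = true
      then w v else 0) = ∑ γ ∈ univ.erase (fun _ : Fin (t + 1) => true),
        (-(sgn (fun _ : Fin (t + 1) => true) * sgn γ)) *
          (if C.nodeVal (fun e => lf e (mixb V W (selb blk ρ γ)) y) v = true then w v else 0) := by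
    intro v
    by_cases hw : w v = 0
    · simp [hw]
    · obtain ⟨i0, hi0⟩ := hfree v hw
      exact incl_excl (fun γ => if C.nodeVal (fun e => lf e (mixb V W (selb blk ρ γ)) y) v = true
        then w v else 0) i0 (by
          intro γ b
          have h2 := hi0 γ b
          unfold sigB sig at h2
          rw [h2])
  have h2 : nval C lf w (mixb V W (selb blk ρ (fun _ => true))) y =
      ∑ γ ∈ univ.erase (fun _ : Fin (t + 1) => true),
      (-(sgn (fun _ : Fin (t + 1) => true) * sgn γ)) * nval C lf w (mixb V W (selb blk ρ γ)) y := by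
    unfold nval
    rw [Finset.sum_congr rfl (fun v _ => h1 v), Finset.sum_comm]
    refine Finset.sum_congr rfl fun γ _ => ?_
    rw [Finset.mul_sum]
  rw [h2]
  ring

lemma Spart_abs (C : Circuit J) (lf : J → Mat (N + 1) m → Col (N + 1) → Bool)
    (w : J ⊕ Fin C.size → ℤ) (θ : ℤ) (blk : Fin m → Fin (t + 1)) (ρ : Restr (Fin m))
    (i : Fin (t + 1)) (V W : Mat (N + 1) m) (y : Col (N + 1)) (B : ℕ)
    (hB : |θ| + ∑ v, |w v| < 2 ^ B) :
    |Spart C lf w θ blk ρ i V W y| < 2 ^ (t + 1 + B) := by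
  unfold Spart
  have h1 : |∑ γ ∈ (univ.erase (fun _ : Fin (t + 1) => true)).filter (fun γ => miss γ = i),
      (-(sgn (fun _ : Fin (t + 1) => true) * sgn γ)) *
        nval C lf w (mixb V W (selb blk ρ γ)) y| ≤ 2 ^ (t + 1) * ∑ v, |w v| := by
    refine (Finset.abs_sum_le_sum_abs _ _).trans ?_
    have h2 : ∀ γ ∈ (univ.erase (fun _ : Fin (t + 1) => true)).filter (fun γ => miss γ = i),
        |(-(sgn (fun _ : Fin (t + 1) => true) * sgn γ)) *
          nval C lf w (mixb V W (selb blk ρ γ)) y| ≤ ∑ v, |w v| := by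
      intro γ _
      rw [abs_mul, abs_neg, abs_mul, sgn_abs, sgn_abs, one_mul, one_mul]
      exact nval_abs C lf w _ y
    refine (Finset.sum_le_card_nsmul _ _ _ h2).trans ?_
    rw [nsmul_eq_mul]
    apply mul_le_mul_of_nonneg_right _ (Finset.sum_nonneg fun _ _ => abs_nonneg _)
    have h3 : ((univ.erase (fun _ : Fin (t + 1) => true)).filter
        (fun γ => miss γ = i)).card ≤ 2 ^ (t + 1) := by
      refine (Finset.card_filter_le _ _).trans ((Finset.card_erase_le).trans ?_)
      rw [Finset.card_univ, Fintype.card_fun, Fintype.card_fin, Fintype.card_bool]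
    exact_mod_cast h3
  have h4 : |if i = 0 then -θ else 0| ≤ |θ| := by
    split_ifs <;> simp
  have h5 : (0 : ℤ) ≤ ∑ v, |w v| := Finset.sum_nonneg fun _ _ => abs_nonneg _
  have h6 : (1 : ℤ) ≤ 2 ^ (t + 1) := one_le_pow₀ (by norm_num)
  have h7 : |θ| ≤ 2 ^ (t + 1) * |θ| := le_mul_of_one_le_left (abs_nonneg _) h6
  refine lt_of_le_of_lt (abs_add_le _ _) ?_
  refine lt_of_le_of_lt (add_le_add (h4.trans h7) h1) ?_
  rw [← mul_add]
  calc (2 : ℤ) ^ (t + 1) * (|θ| + ∑ v, |w v|) < 2 ^ (t + 1) * 2 ^ B := mul_lt_mul_of_pos_left hB (by positivity)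
    _ = 2 ^ (t + 1 + B) := (pow_add _ _ _).symm

end gate

end Pool.Agent.Run7.h284.DL
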