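import Pool.Agent.Run7.h284.DL.Rho
import Pool.Agent.Run7.h284.DL.Rep

/-!
# The bound for a fixed restriction
-/

namespace Pool.Agent.Run7.h284.DL

open Finset DomAC0 H568R2 Pool.Agent.H994R2.JL
open scoped BigOperators

section

variable {N m t : ℕ} {J : Type} [Fintype J]

lemma nval_last (C : Circuit J) (lf : J → Mat (N + 1) m → Col (N + 1) → Bool)
    (hlast : ∀ j X y y', (∀ i : Fin N, y i.castSucc = y' i.castSucc) → lf j X y = lf j X y')
    (w : J ⊕ Fin C.size → ℤ) (Z : Mat (N + 1) m) (y y' : Col (N + 1))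
    (h : ∀ i : Fin N, y i.castSucc = y' i.castSucc) : nval C lf w Z y = nval C lf w Z y' := by
  unfold nval
  have : (fun e => lf e Z y) = fun e => lf e Z y' := by
    funext e
    exact hlast e Z y y' h
  rw [this]

lemma Spart_last (C : Circuit J) (lf : J → Mat (N + 1) m → Col (N + 1) → Bool)
    (hlast : ∀ j X y y', (∀ i : Fin N, y i.castSucc = y' i.castSucc) → lf j X y = lf j X y')
    (w : J ⊕ Fin C.size → ℤ) (θ : ℤ) (blk : Fin m → Fin (t + 1)) (ρ : Restr (Fin m))
    (i : Fin (t + 1)) (V W : Mat (N + 1) m) (y y' : Col (N + 1))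
    (h : ∀ i : Fin N, y i.castSucc = y' i.castSucc) :
    Spart C lf w θ blk ρ i V W y = Spart C lf w θ blk ρ i V W y' := by
  unfold Spart
  congr 1
  refine Finset.sum_congr rfl fun γ _ => ?_
  rw [nval_last C lf hlast w _ y y' h]

/-- the stars -/
def isStar (ρ : Restr (Fin m)) : Fin m → Bool := fun j => (ρ j).isNone

lemma Spart_free (C : Circuit J) (lf : J → Mat (N + 1) m → Col (N + 1) → Bool)
    (w : J ⊕ Fin C.size → ℤ) (θ : ℤ) (blk : Fin m → Fin (t + 1)) (ρ : Restr (Fin m))
    (i : Fin (t + 1)) (V W0 X X' : Mat (N + 1) m) (y : Col (N + 1))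
    (h : ∀ j, blk j ≠ i → X j = X' j) :
    Spart C lf w θ blk ρ i V (mixb W0 X (isStar ρ)) y =
      Spart C lf w θ blk ρ i V (mixb W0 X' (isStar ρ)) y := by
  unfold Spart
  congr 1
  refine Finset.sum_congr rfl fun γ hγ => ?_
  rw [Finset.mem_filter, Finset.mem_erase] at hγ
  have h1 := miss_spec hγ.1.1
  rw [hγ.2] at h1
  congr 2
  funext j
  unfold mixb
  by_cases hj : blk j = i
  · cases hρ : ρ j with
    | none =>
      have : selb blk ρ γ j = false := by
        show (ρ j).getD (γ (blk j)) = false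
        rw [hρ, hj]
        exact h1
      rw [this]
      rfl
    | some b =>
      have : isStar ρ j = false := by
        unfold isStar
        rw [hρ]
        rfl
      rw [this]
      rfl
  · rw [h j hj]

lemma ite_abs_le (p q : Prop) [Decidable p] [Decidable q] (σ : ℝ) (hσ : |σ| ≤ 1) :
    |(if p then (1 : ℝ) else 0) * σ - (if q then (1 : ℝ) else 0) * σ| ≤ 1 := by
  rw [← sub_mul, abs_mul]
  have : |(if p then (1 : ℝ) else 0) - (if q then (1 : ℝ) else 0)| ≤ 1 := by
    split_ifs <;> norm_num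
  exact mul_le_one₀ this (abs_nonneg _) hσ

lemma sgr_abs (b : Bool) : |sgr b| = 1 := by
  unfold sgr; split_ifs <;> simp

lemma Spart_sum_abs (C : Circuit J) (lf : J → Mat (N + 1) m → Col (N + 1) → Bool)
    (w : J ⊕ Fin C.size → ℤ) (θ : ℤ) (blk : Fin m → Fin (t + 1)) (ρ : Restr (Fin m))
    (V W : Mat (N + 1) m) (y : Col (N + 1)) (B : ℕ) (hB : |θ| + ∑ v, |w v| ≤ B) :
    |∑ i, Spart C lf w θ blk ρ i V W y| ≤ ((2 ^ (t + 1) * B : ℕ) : ℤ) := by
  unfold Spart
  rw [Finset.sum_add_distrib, Finset.sum_ite_eq' univ (0 : Fin (t + 1)),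
    if_pos (Finset.mem_univ _), Finset.sum_fiberwise]
  have h1 : |∑ γ ∈ univ.erase (fun _ : Fin (t + 1) => true),
      (-(sgn (fun _ : Fin (t + 1) => true) * sgn γ)) *
        nval C lf w (mixb V W (selb blk ρ γ)) y| ≤ 2 ^ (t + 1) * ∑ v, |w v| := by
    refine (Finset.abs_sum_le_sum_abs _ _).trans ?_
    have h2 : ∀ γ ∈ univ.erase (fun _ : Fin (t + 1) => true),
        |(-(sgn (fun _ : Fin (t + 1) => true) * sgn γ)) *
          nval C lf w (mixb V W (selb blk ρ γ)) y| ≤ ∑ v, |w v| := by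
      intro γ _
      rw [abs_mul, abs_neg, abs_mul, sgn_abs, sgn_abs, one_mul, one_mul]
      exact nval_abs C lf w _ y
    refine (Finset.sum_le_card_nsmul _ _ _ h2).trans ?_
    rw [nsmul_eq_mul]
    apply mul_le_mul_of_nonneg_right _ (Finset.sum_nonneg fun _ _ => abs_nonneg _)
    have h3 : (univ.erase (fun _ : Fin (t + 1) => true)).card ≤ 2 ^ (t + 1) := by
      refine (Finset.card_erase_le).trans ?_
      rw [Finset.card_univ, Fintype.card_fun, Fintype.card_fin, Fintype.card_bool]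
    exact_mod_cast h3
  have h6 : (1 : ℤ) ≤ 2 ^ (t + 1) := one_le_pow₀ (by norm_num)
  have h7 : |-θ| ≤ 2 ^ (t + 1) * |θ| := by
    rw [abs_neg]
    exact le_mul_of_one_le_left (abs_nonneg _) h6
  refine (abs_add_le _ _).trans ((add_le_add h7 h1).trans ?_)
  rw [← mul_add]
  push_cast
  exact mul_le_mul_of_nonneg_left hB (by positivity)

/-- The gates on top of the nodes: thresholds with less than `B` bits, or arbitrary functions of
weighted sums with total weight at most `W`. -/
def GatesOK {C : Circuit J} (d B W : ℕ) {q : ℕ} (w : Fin q → J ⊕ Fin C.size → ℤ) (θ : Fin q → ℤ)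
    (ψ : Fin q → ℤ → Bool) : Prop :=
  ∀ k, (∀ v, w k v ≠ 0 → C.nodeDepth v ≤ d) ∧
    (((∀ x, ψ k x = decide (0 ≤ x)) ∧ |θ k| + ∑ v, |w k v| < 2 ^ B) ∨
      |θ k| + ∑ v, |w k v| ≤ W)

/-- the bound -/
noncomputable def del (t B W q : ℕ) (ν : ℝ) : ℝ :=
  (2 * (1 + (((t + 1 + B : ℕ) : ℝ) * (t + 2) ^ 2 + 1 +
    (2 * ((2 ^ (t + 1) * W : ℕ) : ℝ) + 1)))) ^ q * nb ν t 1

lemma del_nonneg (t B W q : ℕ) {ν : ℝ} (hν : 0 ≤ ν) : 0 ≤ del t B W q ν := by
  unfold del
  have := nb_nonneg hν t 1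
  positivity

open Classical in
theorem rho_bound {ι : Type} [Fintype ι] [Nonempty ι] {ν : ℝ} (hν : 0 ≤ ν) (hME : StubME)
    (C : Circuit J) (lf : J → Mat (N + 1) m → Col (N + 1) → Bool) {a0 κ d : ℕ} (hκ : 1 ≤ κ)
    (hlf : ∀ j, Local a0 (lf j))
    (hlast : ∀ j X y y', (∀ i : Fin N, y i.castSucc = y' i.castSucc) → lf j X y = lf j X y')
    (ht : t = 2 * KA a0 κ d) (B Wt : ℕ) {q : ℕ} (w : Fin q → J ⊕ Fin C.size → ℤ) (θ : Fin q → ℤ)
    (ψ : Fin q → ℤ → Bool) (hgates : GatesOK d B Wt w θ ψ) (f : (Fin q → Bool) → Bool)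
    (blk : Fin m → Fin (t + 1)) (ρ : Restr (Fin m)) (hid : Fin (t + 1) → ι → Finset (Fin m))
    (hb : ∀ i a, ∀ j ∈ hid i a, blk j = i) (hρ : ∀ i a, ∀ j ∈ hid i a, ρ j = none)
    (hne : ∀ i a, (hid i a).Nonempty)
    (hsp : ∀ i (A : Finset (Fin m)), 𝔼 a, (if hid i a = A then (1 : ℝ) else 0) ≤ ν) :
    |𝔼 s : Fin (t + 1) → ι, 𝔼 Z : Mat (N + 1) m,
      (if f (fun k => ψ k (nval C lf (w k) Z (labU (hset hid s) Z) - θ k)) then (1 : ℝ) else 0) *
        sgr (labU (hset hid s) Z (Fin.last N))| ≤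
      del t B Wt q ν +
        (t + 1) * 𝔼 V : Mat (N + 1) m, 𝔼 W : Mat (N + 1) m, 𝔼 y : Col (N + 1),
          (if ¬ GoodA C (sig lf V W y) a0 κ d ρ then (1 : ℝ) else 0) := by
  set δ := del t B Wt q ν with hδ
  have hδ0 : 0 ≤ δ := del_nonneg t B Wt q hν
  have hU : ∀ (s : Fin (t + 1) → ι), ∀ j ∈ hset hid s, ρ j = none := by
    intro s j hj
    unfold hset at hj
    rw [Finset.mem_biUnion] at hj
    obtain ⟨i, _, hj⟩ := hj
    exact hρ i _ j hj
  -- pass to the two matrices
  have h1 : ∀ s : Fin (t + 1) → ι, 𝔼 Z : Mat (N + 1) m,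
      (if f (fun k => ψ k (nval C lf (w k) Z (labU (hset hid s) Z) - θ k)) then (1 : ℝ) else 0) *
        sgr (labU (hset hid s) Z (Fin.last N)) =
      𝔼 V : Mat (N + 1) m, 𝔼 W : Mat (N + 1) m,
        (if f (fun k => ψ k (nval C lf (w k) (mixb V W (selb blk ρ (fun _ => true)))
          (labU (hset hid s) W) - θ k)) then (1 : ℝ) else 0) *
          sgr (labU (hset hid s) W (Fin.last N)) := by
    intro s
    rw [← exp_mixb (selb blk ρ (fun _ => true))]
    refine Finset.expect_congr rfl fun V _ => Finset.expect_congr rfl fun W _ => ?_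
    rw [labU_mixb V W (selb blk ρ (fun _ => true)) (by
      intro j hj
      show (ρ j).getD true = true
      rw [hU s j hj]
      rfl)]
  simp only [h1]
  set g : (Fin (t + 1) → ι) → Mat (N + 1) m → Mat (N + 1) m → ℝ := fun s V W =>
    (if f (fun k => ψ k (nval C lf (w k) (mixb V W (selb blk ρ (fun _ => true)))
      (labU (hset hid s) W) - θ k)) then (1 : ℝ) else 0) *
      sgr (labU (hset hid s) W (Fin.last N)) with hg
  set P : (Fin (t + 1) → ι) → Mat (N + 1) m → Mat (N + 1) m → ℝ := fun s V W =>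
    (if f (fun k => ψ k (∑ i, Spart C lf (w k) (θ k) blk ρ i V W (labU (hset hid s) W)))
          then (1 : ℝ) else 0) * sgr (labU (hset hid s) W (Fin.last N)) with hP
  have hgP : ∀ s V W, |g s V W - P s V W| ≤ ∑ i : Fin (t + 1),
      (if BadB C lf blk (KA a0 κ d) d i V W (labU (hset hid s) W) ρ then (1 : ℝ) else 0) := by
    intro s V W
    by_cases hno : ∀ i, ¬ BadB C lf blk (KA a0 κ d) d i V W (labU (hset hid s) W) ρ
    · have h2 : ∀ k, ∑ i, Spart C lf (w k) (θ k) blk ρ i V W (labU (hset hid s) W) =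
          nval C lf (w k) (mixb V W (selb blk ρ (fun _ => true))) (labU (hset hid s) W) - θ k :=
        fun k => Spart_sum C lf (w k) (θ k) blk ρ V W (labU (hset hid s) W) (fun v hv =>
          node_free hME C lf hlf (KA_ge a0 κ hκ d) (by omega) blk V W (labU (hset hid s) W) ρ
            hno v ((hgates k).1 v hv))
      have h3 : g s V W = P s V W := by
        rw [hg, hP]
        simp only [h2]
      rw [h3, sub_self, abs_zero]
      exact Finset.sum_nonneg fun i _ => by split_ifs <;> norm_num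
    · push Not at hno
      obtain ⟨i, hi⟩ := hno
      refine (ite_abs_le _ _ _ (le_of_eq (sgr_abs _))).trans ?_
      have h2 := Finset.single_le_sum (f := fun i : Fin (t + 1) =>
        (if BadB C lf blk (KA a0 κ d) d i V W (labU (hset hid s) W) ρ then (1 : ℝ) else 0))
        (fun i _ => by split_ifs <;> norm_num) (Finset.mem_univ i)
      simp only [if_pos hi] at h2
      exact h2
  -- the bad events
  have hbad : 𝔼 s : Fin (t + 1) → ι, 𝔼 V : Mat (N + 1) m, 𝔼 W : Mat (N + 1) m,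
      |g s V W - P s V W| ≤ (t + 1) * 𝔼 V : Mat (N + 1) m, 𝔼 W : Mat (N + 1) m,
        𝔼 y : Col (N + 1), (if ¬ GoodA C (sig lf V W y) a0 κ d ρ then (1 : ℝ) else 0) := by
    refine (Finset.expect_le_expect fun s _ => Finset.expect_le_expect fun V _ =>
      Finset.expect_le_expect fun W _ => hgP s V W).trans ?_
    refine Finset.expect_le Finset.univ_nonempty fun s _ => ?_
    simp only [Finset.expect_sum_comm]
    have h2 : ∀ i ∈ (univ : Finset (Fin (t + 1))), 𝔼 V : Mat (N + 1) m, 𝔼 W : Mat (N + 1) m,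
        (if BadB C lf blk (KA a0 κ d) d i V W (labU (hset hid s) W) ρ then (1 : ℝ) else 0) ≤
        𝔼 V : Mat (N + 1) m, 𝔼 W : Mat (N + 1) m,
        𝔼 y : Col (N + 1), (if ¬ GoodA C (sig lf V W y) a0 κ d ρ then (1 : ℝ) else 0) := by
      intro i _
      refine Finset.expect_le_expect fun V _ => ?_
      obtain ⟨j0, hj0⟩ := hne i (s i)
      have hj0U : j0 ∈ hset hid s := by
        unfold hset
        rw [Finset.mem_biUnion]
        exact ⟨i, Finset.mem_univ _, hj0⟩
      rw [decouple hj0U (fun W y => if BadB C lf blk (KA a0 κ d) d i V W y ρ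
        then (1 : ℝ) else 0) (by
          intro W y c
          have h3 := badB_indep C lf blk (KA a0 κ d) d i V W y ρ j0 (hb i _ j0 hj0)
            (hρ i _ j0 hj0) c
          simp only [h3])]
      refine Finset.expect_le_expect fun W _ => Finset.expect_le_expect fun y _ => ?_
      by_cases hG : GoodA C (sig lf V W y) a0 κ d ρ
      · rw [if_neg (not_badB hG i), if_neg (not_not.2 hG)]
      · rw [if_pos hG]
        split_ifs <;> norm_num
    refine (Finset.sum_le_card_nsmul _ _ _ h2).trans (le_of_eq ?_)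
    rw [nsmul_eq_mul, Finset.card_univ, Fintype.card_fin]
    push_cast
    rfl
  -- the main term
  have hmain : |𝔼 s : Fin (t + 1) → ι, 𝔼 V : Mat (N + 1) m, 𝔼 W : Mat (N + 1) m, P s V W| ≤ δ := by
    rw [exp_comm]
    refine expR_abs_le _ δ hδ0 fun V => ?_
    have h2 : ∀ s : Fin (t + 1) → ι, 𝔼 W : Mat (N + 1) m, P s V W =
        𝔼 W0 : Mat (N + 1) m, 𝔼 X : Mat (N + 1) m, P s V (mixb W0 X (isStar ρ)) := fun s =>
      (exp_mixb (isStar ρ) (fun W => P s V W)).symm
    rw [Finset.expect_congr rfl (fun s _ => h2 s), exp_comm]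
    refine expR_abs_le _ δ hδ0 fun W0 => ?_
    have h3 := coreGR (N := N) hν blk hid hb hsp (t + 1 + B) (2 ^ (t + 1) * Wt)
      (fun k i y X => Spart C lf (w k) (θ k) blk ρ i V (mixb W0 (tr X) (isStar ρ))
        (Fin.snoc y false)) ψ (by
        intro k
        refine ⟨?_, ?_⟩
        · intro i y X X' hX
          apply Spart_free
          intro j hj
          funext r
          exact hX r j hj
        · rcases (hgates k).2 with ⟨h4, h5⟩ | h5
          · left
            exact ⟨h4, fun i y X => Spart_abs C lf (w k) (θ k) blk ρ i V _ _ B h5⟩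
          · right
            exact fun y X => Spart_sum_abs C lf (w k) (θ k) blk ρ V _ _ Wt h5) f
    refine le_trans (le_of_eq ?_) h3
    congr 1
    refine Finset.expect_congr rfl fun s _ => ?_
    rw [← exp_equiv (tr (N := N + 1) (m := m))]
    refine Finset.expect_congr rfl fun X _ => ?_
    have h4 : labU (hset hid s) (mixb W0 (tr X) (isStar ρ)) = fun r => parT (hset hid s) (X r) := by
      rw [labU_mixb W0 (tr X) (isStar ρ) (by
        intro j hj
        unfold isStar
        rw [hU s j hj]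
        rfl)]
      rfl
    rw [hP]
    simp only [h4]
    have h6 : ∀ k, ∑ i, Spart C lf (w k) (θ k) blk ρ i V (mixb W0 (tr X) (isStar ρ))
        (fun r => parT (hset hid s) (X r)) =
        ∑ i, Spart C lf (w k) (θ k) blk ρ i V (mixb W0 (tr X) (isStar ρ))
          (Fin.snoc (fun r : Fin N => parT (hset hid s) (X r.castSucc)) false) := by
      intro k
      refine Finset.sum_congr rfl fun i _ =>
        Spart_last C lf hlast (w k) (θ k) blk ρ i V _ _ _ ?_
      intro i'
      simp [Fin.snoc]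
    simp only [h6]
  have hsplit : 𝔼 s : Fin (t + 1) → ι, 𝔼 V : Mat (N + 1) m, 𝔼 W : Mat (N + 1) m, g s V W =
      𝔼 s : Fin (t + 1) → ι, 𝔼 V : Mat (N + 1) m, 𝔼 W : Mat (N + 1) m, P s V W +
      𝔼 s : Fin (t + 1) → ι, 𝔼 V : Mat (N + 1) m, 𝔼 W : Mat (N + 1) m, (g s V W - P s V W) := by
    simp only [Finset.expect_sub_distrib]
    ring
  rw [hsplit]
  refine (abs_add_le _ _).trans (add_le_add hmain (le_trans ?_ hbad))
  refine (Finset.abs_expect_le _ _).trans (Finset.expect_le_expect fun s _ => ?_)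
  refine (Finset.abs_expect_le _ _).trans (Finset.expect_le_expect fun V _ => ?_)
  exact Finset.abs_expect_le _ _

end

end Pool.Agent.Run7.h284.DL
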