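import Pool.Agent.Run7.h284.DL.Nof

/-!
# Threshold gates of functions of all blocks but one
-/

namespace Pool.Agent.Run7.h284.DL

open Finset
open scoped BigOperators ComplexConjugate

lemma ind_eq (M : ℕ) [NeZero M] (x : ℤ) (hx : |x| < M) :
    (if x = 0 then (1 : ℂ) else 0) = 𝔼 r : ZMod M, (ZMod.stdAddChar (r * (x : ZMod M)) : ℂ) := by
  rw [Fintype.expect_eq_sum_div_card, AddChar.sum_mulShift _ (ZMod.isPrimitive_stdAddChar M)]
  have hM : ((Fintype.card (ZMod M) : ℕ) : ℂ) ≠ 0 := by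
    exact_mod_cast Fintype.card_ne_zero
  have h1 : ((x : ZMod M) = 0) ↔ x = 0 := by
    rw [ZMod.intCast_zmod_eq_zero_iff_dvd]
    constructor
    · intro h
      exact Int.eq_zero_of_abs_lt_dvd h hx
    · rintro rfl
      exact dvd_zero _
  by_cases h : x = 0
  · rw [if_pos h, if_pos (h1.2 h), div_self hM]
  · rw [if_neg h, if_neg (fun h2 => h (h1.1 h2)), Nat.cast_zero, zero_div]

lemma char_norm (M : ℕ) [NeZero M] (x : ZMod M) : ‖(ZMod.stdAddChar x : ℂ)‖ = 1 :=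
  AddChar.norm_apply _ _

lemma char_sum (M : ℕ) [NeZero M] {T : ℕ} (r : ZMod M) (P : Fin T → ℤ) (a : ℤ) :
    (ZMod.stdAddChar (r * ((∑ i, P i - a : ℤ) : ZMod M)) : ℂ) =
      ZMod.stdAddChar (-(r * (a : ZMod M))) *
        ∏ i, (ZMod.stdAddChar (r * (P i : ZMod M)) : ℂ) := by
  have h1 : ∀ s : Finset (Fin T), (ZMod.stdAddChar (∑ i ∈ s, r * (P i : ZMod M)) : ℂ) =
      ∏ i ∈ s, (ZMod.stdAddChar (r * (P i : ZMod M)) : ℂ) := by
    intro s
    classical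
    induction s using Finset.induction_on with
    | empty => simp
    | insert i s hi ih =>
      rw [Finset.sum_insert hi, Finset.prod_insert hi, AddChar.map_add_eq_mul, ih]
  rw [← h1, ← AddChar.map_add_eq_mul]
  congr 1
  push_cast
  rw [mul_sub, Finset.mul_sum]
  ring

/-- the integer identity -/
lemma tele (T L : ℕ) (P : ℕ → ℤ) (h1 : ∀ l, 2 * P (l + 1) ≤ P l)
    (h2 : ∀ l, P l ≤ 2 * P (l + 1) + T) (h3 : P L ≤ 0) :
    (if 0 ≤ P 0 then (1 : ℂ) else 0) = (if P 0 = 0 then (1 : ℂ) else 0) +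
      ∑ l ∈ range L, ∑ a ∈ range (T + 1), ∑ b ∈ range T,
        (if P (l + 1) = -(a : ℤ) ∧ P l = (b : ℤ) + 1 then (1 : ℂ) else 0) := by
  have h4 : ∀ l, ∑ a ∈ range (T + 1), ∑ b ∈ range T,
      (if P (l + 1) = -(a : ℤ) ∧ P l = (b : ℤ) + 1 then (1 : ℂ) else 0) =
      (if 1 ≤ P l then (1 : ℂ) else 0) - (if 1 ≤ P (l + 1) then (1 : ℂ) else 0) := by
    intro l
    have e1 := h1 l
    have e2 := h2 l
    by_cases c1 : 1 ≤ P (l + 1)
    · rw [if_pos c1, if_pos (by omega), sub_self]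
      refine Finset.sum_eq_zero fun a _ => Finset.sum_eq_zero fun b _ => ?_
      rw [if_neg]
      rintro ⟨h5, _⟩
      omega
    · rw [if_neg c1, sub_zero]
      by_cases c2 : 1 ≤ P l
      · rw [if_pos c2]
        obtain ⟨a, ha⟩ : ∃ a : ℕ, P (l + 1) = -(a : ℤ) := ⟨(-(P (l + 1))).toNat, by omega⟩
        obtain ⟨b, hb⟩ : ∃ b : ℕ, P l = (b : ℤ) + 1 := ⟨(P l - 1).toNat, by omega⟩
        rw [Finset.sum_eq_single_of_mem a (Finset.mem_range.2 (by omega))]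
        · rw [Finset.sum_eq_single_of_mem b (Finset.mem_range.2 (by omega))]
          · rw [if_pos ⟨ha, hb⟩]
          · intro b' _ hb'
            rw [if_neg]
            rintro ⟨_, h6⟩
            apply hb'
            have : (b' : ℤ) = b := by omega
            exact_mod_cast this
        · intro a' _ ha'
          refine Finset.sum_eq_zero fun b _ => ?_
          rw [if_neg]
          rintro ⟨h6, _⟩
          apply ha'
          have : (a' : ℤ) = a := by omega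
          exact_mod_cast this
      · rw [if_neg c2]
        refine Finset.sum_eq_zero fun a _ => Finset.sum_eq_zero fun b _ => ?_
        rw [if_neg]
        rintro ⟨_, h6⟩
        omega
  rw [Finset.sum_congr rfl (fun l _ => h4 l),
    Finset.sum_range_sub' (fun l => if 1 ≤ P l then (1 : ℂ) else 0)]
  rw [if_neg (show ¬ 1 ≤ P L by omega), sub_zero]
  by_cases c : 0 ≤ P 0
  · rw [if_pos c]
    by_cases c3 : P 0 = 0
    · rw [if_pos c3, if_neg (by omega), add_zero]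
    · rw [if_neg c3, if_pos (by omega), zero_add]
  · rw [if_neg c, if_neg (by omega), if_neg (by omega), add_zero]

section thr

variable {Ω Z B : Type*} [Fintype Ω] {T : ℕ}

/-- two linear equations -/
lemma two_eq (zz : Ω → Z) (dd : Ω → Fin T → B) (μ : Ω → ℂ) (ε : ℝ) (hε : 0 ≤ ε)
    (H : ∀ φ : Fin T → Z → (Fin T → B) → ℂ, (∀ i z D, ‖φ i z D‖ ≤ 1) →
      (∀ i z, Free i (φ i z)) → ‖𝔼 ω, (∏ i, φ i (zz ω) (dd ω)) * μ ω‖ ≤ ε)
    (P Q : Fin T → Z → (Fin T → B) → ℤ) (hP : ∀ i z, Free i (P i z)) (hQ : ∀ i z, Free i (Q i z))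
    (a b : ℤ) (M : ℕ) (hPM : ∀ ω, |∑ i, P i (zz ω) (dd ω) - a| < M)
    (hQM : ∀ ω, |∑ i, Q i (zz ω) (dd ω) - b| < M) :
    ‖𝔼 ω, (if ∑ i, P i (zz ω) (dd ω) = a ∧ ∑ i, Q i (zz ω) (dd ω) = b then (1 : ℂ) else 0) *
      μ ω‖ ≤ ε := by
  rcases isEmpty_or_nonempty Ω with hΩ | hΩ
  · simpa using hε
  have hM : NeZero M := ⟨by
    rintro rfl
    have := hPM hΩ.some
    have h2 := abs_nonneg (∑ i, P i (zz hΩ.some) (dd hΩ.some) - a)
    simp only [Nat.cast_zero] at this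
    omega⟩
  have h1 : ∀ ω, (if ∑ i, P i (zz ω) (dd ω) = a ∧ ∑ i, Q i (zz ω) (dd ω) = b then (1 : ℂ) else 0) *
      μ ω = 𝔼 r : ZMod M, 𝔼 r' : ZMod M,
        (ZMod.stdAddChar (-(r * (a : ZMod M))) * ZMod.stdAddChar (-(r' * (b : ZMod M)))) *
        ((∏ i, (ZMod.stdAddChar (r * (P i (zz ω) (dd ω) : ZMod M)) : ℂ) *
          ZMod.stdAddChar (r' * (Q i (zz ω) (dd ω) : ZMod M))) * μ ω) := by
    intro ω
    have h2 : (if ∑ i, P i (zz ω) (dd ω) = a ∧ ∑ i, Q i (zz ω) (dd ω) = b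
        then (1 : ℂ) else 0) =
        (if ∑ i, P i (zz ω) (dd ω) - a = 0 then (1 : ℂ) else 0) *
          (if ∑ i, Q i (zz ω) (dd ω) - b = 0 then (1 : ℂ) else 0) := by
      simp only [sub_eq_zero]
      by_cases c1 : ∑ i, P i (zz ω) (dd ω) = a <;> by_cases c2 : ∑ i, Q i (zz ω) (dd ω) = b <;>
        simp [c1, c2]
    rw [h2, ind_eq M _ (hPM ω), ind_eq M _ (hQM ω), Fintype.expect_mul_expect, Finset.expect_mul]
    refine Finset.expect_congr rfl fun r _ => ?_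
    rw [Finset.expect_mul]
    refine Finset.expect_congr rfl fun r' _ => ?_
    rw [char_sum, char_sum, Finset.prod_mul_distrib]
    ring
  rw [Finset.expect_congr rfl (fun ω _ => h1 ω), exp_comm]
  refine norm_exp_le_of _ ε hε fun r => ?_
  rw [exp_comm]
  refine norm_exp_le_of _ ε hε fun r' => ?_
  rw [← Finset.mul_expect, norm_mul, norm_mul, char_norm, char_norm, one_mul, one_mul]
  refine H (fun i z D => (ZMod.stdAddChar (r * (P i z D : ZMod M)) : ℂ) *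
          ZMod.stdAddChar (r' * (Q i z D : ZMod M))) ?_ ?_
  · intro i z D
    rw [norm_mul, char_norm, char_norm, one_mul]
  · intro i z D D' hD
    simp only
    rw [hP i z D D' hD, hQ i z D D' hD]

/-- **threshold gates** -/
theorem thr_bound (zz : Ω → Z) (dd : Ω → Fin T → B) (μ : Ω → ℂ) (ε : ℝ) (hε : 0 ≤ ε)
    (H : ∀ φ : Fin T → Z → (Fin T → B) → ℂ, (∀ i z D, ‖φ i z D‖ ≤ 1) →
      (∀ i z, Free i (φ i z)) → ‖𝔼 ω, (∏ i, φ i (zz ω) (dd ω)) * μ ω‖ ≤ ε)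
    (S : Fin T → Z → (Fin T → B) → ℤ) (hS : ∀ i z, Free i (S i z)) (L : ℕ)
    (hL : ∀ i ω, |S i (zz ω) (dd ω)| < 2 ^ L) :
    ‖𝔼 ω, (if 0 ≤ ∑ i, S i (zz ω) (dd ω) then (1 : ℂ) else 0) * μ ω‖ ≤
      (L * (T + 1) ^ 2 + 1) * ε := by
  set P : ℕ → Fin T → Z → (Fin T → B) → ℤ := fun l i z D => S i z D / 2 ^ l with hP
  have hPF : ∀ l i z, Free i (P l i z) := by
    intro l i z D D' hD
    show S i z D / 2 ^ l = S i z D' / 2 ^ l
    rw [hS i z D D' hD]
  have hstep : ∀ (l : ℕ) (x : ℤ), 2 * (x / 2 ^ (l + 1)) ≤ x / 2 ^ l ∧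
      x / 2 ^ l ≤ 2 * (x / 2 ^ (l + 1)) + 1 := by
    intro l x
    have : x / 2 ^ (l + 1) = (x / 2 ^ l) / 2 := by
      rw [pow_succ, Int.ediv_ediv_of_nonneg (by positivity)]
    rw [this]
    omega
  have h1 : ∀ (ω : Ω) (l : ℕ), 2 * ∑ i, P (l + 1) i (zz ω) (dd ω) ≤ ∑ i, P l i (zz ω) (dd ω) := by
    intro ω l
    rw [Finset.mul_sum]
    exact Finset.sum_le_sum fun i _ => (hstep l _).1
  have h2 : ∀ (ω : Ω) (l : ℕ), ∑ i, P l i (zz ω) (dd ω) ≤
      2 * ∑ i, P (l + 1) i (zz ω) (dd ω) + T := by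
    intro ω l
    have : ∑ i, P l i (zz ω) (dd ω) ≤ ∑ i : Fin T, (2 * P (l + 1) i (zz ω) (dd ω) + 1) :=
      Finset.sum_le_sum fun i _ => (hstep l _).2
    refine this.trans (le_of_eq ?_)
    rw [Finset.sum_add_distrib, Finset.mul_sum]
    simp
  have h3 : ∀ ω : Ω, ∑ i, P L i (zz ω) (dd ω) ≤ 0 := by
    intro ω
    refine Finset.sum_nonpos fun i _ => ?_
    have h4 := (abs_lt.1 (hL i ω)).2
    have : S i (zz ω) (dd ω) / 2 ^ L < 1 := by
      rw [Int.ediv_lt_iff_lt_mul (by positivity), one_mul]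
      exact h4
    show S i (zz ω) (dd ω) / 2 ^ L ≤ 0
    omega
  have hid : ∀ ω : Ω, (if 0 ≤ ∑ i, S i (zz ω) (dd ω) then (1 : ℂ) else 0) * μ ω =
      (if ∑ i, P 0 i (zz ω) (dd ω) = 0 ∧ ∑ i, P 0 i (zz ω) (dd ω) = 0 then (1 : ℂ) else 0) * μ ω +
      ∑ l ∈ range L, ∑ a ∈ range (T + 1), ∑ b ∈ range T,
        (if ∑ i, P (l + 1) i (zz ω) (dd ω) = -(a : ℤ) ∧ ∑ i, P l i (zz ω) (dd ω) = (b : ℤ) + 1
          then (1 : ℂ) else 0) * μ ω := by
    intro ω
    have h4 := tele T L (fun l => ∑ i, P l i (zz ω) (dd ω)) (h1 ω) (h2 ω) (h3 ω)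
    have h5 : ∑ i, S i (zz ω) (dd ω) = ∑ i, P 0 i (zz ω) (dd ω) := by
      refine Finset.sum_congr rfl fun i _ => ?_
      show _ = S i (zz ω) (dd ω) / 2 ^ 0
      simp
    rw [h5, h4, add_mul, Finset.sum_mul]
    simp only [Finset.sum_mul, and_self]
  -- a common modulus
  obtain ⟨M, hM⟩ : ∃ M : ℕ, ∀ (ω : Ω) (l : ℕ) (a : ℤ), l ≤ L → |a| ≤ T + 1 →
      |∑ i, P l i (zz ω) (dd ω) - a| < M := by
    classical
    refine ⟨(∑ ω : Ω, ∑ l ∈ range (L + 1), |∑ i, P l i (zz ω) (dd ω)|).toNat + T + 2, ?_⟩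
    intro ω l a hl ha
    have h6 : |∑ i, P l i (zz ω) (dd ω)| ≤
        ∑ ω : Ω, ∑ l ∈ range (L + 1), |∑ i, P l i (zz ω) (dd ω)| := by
      refine le_trans ?_ (Finset.single_le_sum (f := fun ω : Ω => ∑ l ∈ range (L + 1),
        |∑ i, P l i (zz ω) (dd ω)|) (fun ω _ => Finset.sum_nonneg fun _ _ => abs_nonneg _)
        (Finset.mem_univ ω))
      exact Finset.single_le_sum (f := fun l : ℕ => |∑ i, P l i (zz ω) (dd ω)|)
        (fun l _ => abs_nonneg _) (Finset.mem_range.2 (by omega))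
    have h7 := abs_sub (∑ i, P l i (zz ω) (dd ω)) a
    push_cast
    omega
  rw [Finset.expect_congr rfl (fun ω _ => hid ω), Finset.expect_add_distrib]
  refine (norm_add_le _ _).trans ?_
  have hfirst : ‖𝔼 ω, (if ∑ i, P 0 i (zz ω) (dd ω) = 0 ∧ ∑ i, P 0 i (zz ω) (dd ω) = 0
      then (1 : ℂ) else 0) * μ ω‖ ≤ ε :=
    two_eq zz dd μ ε hε H (P 0) (P 0) (hPF 0) (hPF 0) 0 0 M
      (fun ω => hM ω 0 0 (by omega) (by simp; omega)) (fun ω => hM ω 0 0 (by omega) (by simp; omega))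
  have hsecond : ‖𝔼 ω, ∑ l ∈ range L, ∑ a ∈ range (T + 1), ∑ b ∈ range T,
        (if ∑ i, P (l + 1) i (zz ω) (dd ω) = -(a : ℤ) ∧ ∑ i, P l i (zz ω) (dd ω) = (b : ℤ) + 1
          then (1 : ℂ) else 0) * μ ω‖ ≤ L * ((T + 1) * (T * ε)) := by
    rw [Finset.expect_sum_comm]
    refine (norm_sum_le_of_le (n := fun _ => (T + 1 : ℝ) * (T * ε)) _ fun l hl => ?_).trans ?_
    · rw [Finset.expect_sum_comm]
      refine (norm_sum_le_of_le (n := fun _ => (T : ℝ) * ε) _ fun a ha => ?_).trans ?_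
      · rw [Finset.expect_sum_comm]
        refine (norm_sum_le_of_le (n := fun _ => ε) _ fun b hb => ?_).trans ?_
        · rw [Finset.mem_range] at hl ha hb
          refine two_eq zz dd μ ε hε H (P (l + 1)) (P l) (hPF _) (hPF _) (-(a : ℤ)) ((b : ℤ) + 1) M
            (fun ω => hM ω _ _ (by omega) ?_) (fun ω => hM ω _ _ (by omega) ?_)
          · rw [abs_neg, Nat.abs_cast]; omega
          · rw [abs_of_nonneg (by omega)]; omega
        · rw [Finset.sum_const, Finset.card_range, nsmul_eq_mul]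
      · rw [Finset.sum_const, Finset.card_range, nsmul_eq_mul]
        push_cast
        exact le_refl _
    · rw [Finset.sum_const, Finset.card_range, nsmul_eq_mul]
  have hT : (0 : ℝ) ≤ T := Nat.cast_nonneg _
  have hLn : (0 : ℝ) ≤ L := Nat.cast_nonneg _
  have hlast : (L : ℝ) * ((T + 1) * (T * ε)) ≤ L * (T + 1) ^ 2 * ε := by
    have : (T + 1 : ℝ) * (T * ε) ≤ (T + 1) ^ 2 * ε := by nlinarith [mul_nonneg hT hε]
    calc (L : ℝ) * ((T + 1) * (T * ε)) ≤ L * ((T + 1) ^ 2 * ε) :=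
          mul_le_mul_of_nonneg_left this hLn
      _ = _ := by ring
  calc _ ≤ ε + L * ((T + 1) * (T * ε)) := add_le_add hfirst hsecond
    _ ≤ ε + L * (T + 1) ^ 2 * ε := by linarith
    _ = _ := by ring

end thr

end Pool.Agent.Run7.h284.DL
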